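import Pool.Agent.H577R2.FromSat

/-!
# The digraph of a vector-sum problem, all out-degrees equal
-/

namespace Pool.Agent.Y403.CF

open Finset Pool.Agent.H577R2

/-- The digraph on `{0, …, N}` in which every vertex `u < N` has `Q` arcs, the `i`-th one going to
`tg u i`. -/
def ua (N Q : ℕ) (tg : ℕ → ℕ → ℕ) : List (ℕ × ℕ) :=
  (List.range N).flatMap (fun u => (List.range Q).map (fun i => (u, tg u i)))

theorem ua_sum {M : Type*} [AddCommMonoid M] (N Q : ℕ) (tg : ℕ → ℕ → ℕ) (F : ℕ × ℕ → M) :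
    ((ua N Q tg).map F).sum = ∑ u ∈ range N, ∑ i ∈ range Q, F (u, tg u i) := by
  unfold ua
  rw [sum_map_flatMap, sum_map_range]
  refine Finset.sum_congr rfl fun u _ => ?_
  rw [List.map_map, sum_map_range]
  rfl

theorem mem_ua {N Q : ℕ} {tg : ℕ → ℕ → ℕ} {a : ℕ × ℕ} :
    a ∈ ua N Q tg ↔ ∃ u < N, ∃ i < Q, a = (u, tg u i) := by
  unfold ua
  simp only [List.mem_flatMap, List.mem_range, List.mem_map]
  constructor
  · rintro ⟨u, hu, i, hi, rfl⟩
    exact ⟨u, hu, i, hi, rfl⟩
  · rintro ⟨u, hu, i, hi, rfl⟩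
    exact ⟨u, hu, i, hi, rfl⟩

theorem lap_ua (N Q : ℕ) (tg : ℕ → ℕ → ℕ) (g : ℕ → ℤ) (v : ℕ) :
    lap (ua N Q tg) g v = (if v < N then (Q : ℤ) * g v else 0) -
      ∑ u ∈ range N, ∑ i ∈ range Q, if tg u i = v then g u else 0 := by
  unfold lap
  rw [ua_sum]
  simp only [Finset.sum_sub_distrib]
  congr 1
  by_cases hv : v < N
  · rw [if_pos hv, Finset.sum_eq_single v]
    · simp
    · intro u _ hu
      simp [hu]
    · intro h
      exact absurd (Finset.mem_range.2 hv) h
  · rw [if_neg hv]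
    refine Finset.sum_eq_zero fun u hu => ?_
    have : u ≠ v := by
      have := Finset.mem_range.1 hu
      omega
    simp [this]

theorem sum_getD {M : Type*} [AddCommMonoid M] (l : List ℕ) (F : ℕ → M) (hF : F 0 = 0) {Q : ℕ}
    (h : l.length ≤ Q) : ∑ i ∈ range Q, F (l.getD i 0) = (l.map F).sum := by
  obtain ⟨d, rfl⟩ := Nat.exists_eq_add_of_le h
  rw [Finset.sum_range_add, Finset.sum_eq_zero (s := range d)]
  · rw [add_zero]
    clear h
    induction l with
    | nil => simp
    | cons a l ih =>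
      rw [List.length_cons, Finset.sum_range_succ', List.map_cons, List.sum_cons, add_comm]
      simp only [List.getD_cons_zero, List.getD_cons_succ]
      rw [ih]
  · intro i _
    rw [List.getD_eq_default _ _ (by omega), hF]

/-- The targets different from `0` of the arcs leaving `u`. -/
def ol (L Q q k : ℕ) (r : ℕ → ℕ → ℕ) (b : ℕ → ℕ) (u : ℕ) : List ℕ :=
  if u = 0 then List.replicate Q 1 else if u ≤ L + 1 then List.replicate q (u + 1) else
    (u + 1) :: (List.range L).flatMap
      (fun e => List.replicate (b e + q - k * r (u - (L + 2)) e) (2 + e))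

/-- The targets. -/
def tg (L Q q k : ℕ) (r : ℕ → ℕ → ℕ) (b : ℕ → ℕ) (u i : ℕ) : ℕ := (ol L Q q k r b u).getD i 0

section

variable {L J q k R Q : ℕ} {r : ℕ → ℕ → ℕ} {b : ℕ → ℕ}

theorem ol_length (hq : R * k * k + k < q) (hb : ∀ e, b e ≤ R) (hk : 1 ≤ k) (hqQ : q ≤ Q)
    (hQ : 1 + L * (2 * q) ≤ Q) (u : ℕ) : (ol L Q q k r b u).length ≤ Q := by
  unfold ol
  split_ifs with h1 h2
  · simp
  · simpa using hqQ
  · rw [List.length_cons, List.length_flatMap]
    have h3 : ((List.range L).map (fun e => (List.replicate (b e + q - k * r (u - (L + 2)) e)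
        (2 + e)).length)).sum ≤ L * (2 * q) := by
      rw [sum_map_range]
      calc ∑ e ∈ range L, (List.replicate (b e + q - k * r (u - (L + 2)) e) (2 + e)).length ≤
          ∑ e ∈ range L, (2 * q) := by
            refine Finset.sum_le_sum fun e _ => ?_
            rw [List.length_replicate]
            have := b_le hq hb hk e
            omega
        _ = L * (2 * q) := by simp
    omega

theorem sum_tg {M : Type*} [AddCommMonoid M] (hq : R * k * k + k < q) (hb : ∀ e, b e ≤ R)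
    (hk : 1 ≤ k) (hqQ : q ≤ Q) (hQ : 1 + L * (2 * q) ≤ Q) (F : ℕ → M) (hF : F 0 = 0) (u : ℕ) :
    ∑ i ∈ range Q, F (tg L Q q k r b u i) = if u = 0 then Q • F 1 else if u ≤ L + 1 then
      q • F (u + 1) else F (u + 1) +
        ∑ e ∈ range L, (b e + q - k * r (u - (L + 2)) e) • F (2 + e) := by
  unfold tg
  rw [sum_getD _ F hF (ol_length hq hb hk hqQ hQ u)]
  unfold ol
  split_ifs with h1 h2
  · rw [sum_map_replicate]
  · rw [sum_map_replicate]
  · rw [List.map_cons, List.sum_cons, sum_map_flatMap, sum_map_range]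
    congr 1
    refine Finset.sum_congr rfl fun e _ => ?_
    rw [sum_map_replicate]

theorem tg_cases (u i : ℕ) (hi : i < Q) : (tg L Q q k r b u i = u + 1) ∨
    (0 < u ∧ tg L Q q k r b u i = 0) ∨
    (L + 1 < u ∧ ∃ e < L, tg L Q q k r b u i = 2 + e) := by
  unfold tg
  by_cases h : i < (ol L Q q k r b u).length
  · rw [List.getD_eq_getElem _ _ h]
    have hmem := List.getElem_mem h
    revert hmem
    generalize (ol L Q q k r b u)[i] = a
    unfold ol
    split_ifs with h1 h2
    · intro hmem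
      rw [List.mem_replicate] at hmem
      left
      omega
    · intro hmem
      rw [List.mem_replicate] at hmem
      left
      omega
    · intro hmem
      rw [List.mem_cons, List.mem_flatMap] at hmem
      rcases hmem with hmem | ⟨e, he, hmem⟩
      · left
        exact hmem
      · rw [List.mem_range] at he
        rw [List.mem_replicate] at hmem
        right
        right
        exact ⟨by omega, e, he, hmem.2⟩
  · rw [List.getD_eq_default _ _ (by omega)]
    by_cases hu : u = 0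
    · exfalso
      apply h
      unfold ol
      rw [if_pos hu]
      simpa using hi
    · right
      left
      exact ⟨by omega, rfl⟩

theorem tg_zero (hq : 0 < q) (hQ : 0 < Q) (u : ℕ) : tg L Q q k r b u 0 = u + 1 := by
  unfold tg ol
  split_ifs with h1 h2
  · subst h1
    rw [List.getD_eq_getElem _ _ (by simpa using hQ)]
    simp
  · rw [List.getD_eq_getElem _ _ (by simpa using hq)]
    simp
  · simp

theorem skipFree_ua (hq : 0 < q) (hQ : 0 < Q) :
    SkipFree (L + 2 + J) (ua (L + 2 + J) Q (tg L Q q k r b)) where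
  wf := by
    intro a ha
    obtain ⟨u, hu, i, hi, rfl⟩ := mem_ua.1 ha
    change u < L + 2 + J + 1 ∧ tg L Q q k r b u i < L + 2 + J + 1 ∧ u ≠ tg L Q q k r b u i
    rcases tg_cases (L := L) (Q := Q) (q := q) (k := k) (r := r) (b := b) u i hi with
      h | ⟨h0, h⟩ | ⟨h0, e, he, h⟩ <;> omega
  sink := by
    intro a ha
    obtain ⟨u, hu, i, hi, rfl⟩ := mem_ua.1 ha
    simp only
    omega
  skip := by
    intro a ha
    obtain ⟨u, hu, i, hi, rfl⟩ := mem_ua.1 ha
    change u < tg L Q q k r b u i → tg L Q q k r b u i = u + 1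
    rcases tg_cases (L := L) (Q := Q) (q := q) (k := k) (r := r) (b := b) u i hi with
      h | ⟨h0, h⟩ | ⟨h0, e, he, h⟩ <;> omega
  fwd := by
    intro i hi
    rw [mem_ua]
    exact ⟨i, hi, 0, hQ, by rw [tg_zero hq hQ]⟩

/-- Weights for which all relations vanish. -/
theorem weights_vanish (hq : R * k * k + k < q) (hr : ∀ j e, r j e ≤ R) (hb : ∀ e, b e ≤ R)
    (hk : 1 ≤ k) (hqQ : q ∣ Q) (hQ : 1 + L * (2 * q) ≤ Q) (g : ℕ → ℤ) (m : ℕ) (hm : m ≤ L + 1) :
    ((ua (L + 2 + J) Q (tg L Q q k r b)).map fun a => ((g a.1 : ℤ) : ZMod q) *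
      ((if a.1 = 1 + m then (1 : ZMod q) else if L + 3 ≤ a.1 ∧ 1 ≤ m ∧ m ≤ L then
          (k * r (a.1 - (L + 3)) (m - 1) : ZMod q) - b (m - 1) else 0) -
        (if a.2 = 1 + m then (1 : ZMod q) else if L + 3 ≤ a.2 ∧ 1 ≤ m ∧ m ≤ L then
          (k * r (a.2 - (L + 3)) (m - 1) : ZMod q) - b (m - 1) else 0))).sum = 0 := by
  have hkr : ∀ j e, k * r j e ≤ q := kr_le hq hr hk
  have hbq : ∀ e, b e ≤ q := b_le hq hb hk
  have hQ0 : 0 < Q := by omega
  have hqQ' : q ≤ Q := Nat.le_of_dvd hQ0 hqQ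
  have hq0 : (q : ZMod q) = 0 := ZMod.natCast_self q
  have hQz : (Q : ZMod q) = 0 := (ZMod.natCast_eq_zero_iff _ _).2 hqQ
  rw [ua_sum]
  refine Finset.sum_eq_zero fun u _ => ?_
  change ∑ i ∈ range Q, ((g u : ℤ) : ZMod q) *
      ((if u = 1 + m then (1 : ZMod q) else if L + 3 ≤ u ∧ 1 ≤ m ∧ m ≤ L then
          (k * r (u - (L + 3)) (m - 1) : ZMod q) - b (m - 1) else 0) -
        (if tg L Q q k r b u i = 1 + m then (1 : ZMod q) else
          if L + 3 ≤ tg L Q q k r b u i ∧ 1 ≤ m ∧ m ≤ L then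
          (k * r (tg L Q q k r b u i - (L + 3)) (m - 1) : ZMod q) - b (m - 1) else 0)) = 0
  rw [← Finset.mul_sum, Finset.sum_sub_distrib, Finset.sum_const, card_range, nsmul_eq_mul, hQz,
    zero_mul, zero_sub]
  have h0 : ¬ (0 = 1 + m) := by omega
  have h0' : ¬ (L + 3 ≤ 0 ∧ 1 ≤ m ∧ m ≤ L) := by omega
  have key := sum_tg (r := r) hq hb hk hqQ' hQ (fun v => if v = 1 + m then (1 : ZMod q) else
    if L + 3 ≤ v ∧ 1 ≤ m ∧ m ≤ L then (k * r (v - (L + 3)) (m - 1) : ZMod q) - b (m - 1) else 0)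
    (by simp only [h0, h0', if_false]) u
  rw [key]
  suffices H : (if u = 0 then Q • (if 1 = 1 + m then (1 : ZMod q) else
      if L + 3 ≤ 1 ∧ 1 ≤ m ∧ m ≤ L then (k * r (1 - (L + 3)) (m - 1) : ZMod q) - b (m - 1) else 0)
      else if u ≤ L + 1 then q • (if u + 1 = 1 + m then (1 : ZMod q) else
      if L + 3 ≤ u + 1 ∧ 1 ≤ m ∧ m ≤ L then (k * r (u + 1 - (L + 3)) (m - 1) : ZMod q) -
        b (m - 1) else 0)
      else (if u + 1 = 1 + m then (1 : ZMod q) else
      if L + 3 ≤ u + 1 ∧ 1 ≤ m ∧ m ≤ L then (k * r (u + 1 - (L + 3)) (m - 1) : ZMod q) -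
        b (m - 1) else 0) + ∑ e ∈ range L, (b e + q - k * r (u - (L + 2)) e) •
        (if 2 + e = 1 + m then (1 : ZMod q) else
      if L + 3 ≤ 2 + e ∧ 1 ≤ m ∧ m ≤ L then (k * r (2 + e - (L + 3)) (m - 1) : ZMod q) -
        b (m - 1) else 0)) = 0 by
    rw [H]
    simp
  by_cases h1 : u = 0
  · rw [if_pos h1, nsmul_eq_mul, hQz, zero_mul]
  rw [if_neg h1]
  by_cases h2 : u ≤ L + 1
  · rw [if_pos h2, nsmul_eq_mul, hq0, zero_mul]
  rw [if_neg h2]
  have h3 : ∀ e ∈ range L, (b e + q - k * r (u - (L + 2)) e) •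
        (if 2 + e = 1 + m then (1 : ZMod q) else
      if L + 3 ≤ 2 + e ∧ 1 ≤ m ∧ m ≤ L then (k * r (2 + e - (L + 3)) (m - 1) : ZMod q) -
        b (m - 1) else 0) = if e = m - 1 then (if 1 ≤ m ∧ m ≤ L then
          ((b (m - 1) : ZMod q) - k * r (u - (L + 2)) (m - 1)) else 0) else 0 := by
    intro e he
    have he' := Finset.mem_range.1 he
    have h4 : ¬ (L + 3 ≤ 2 + e ∧ 1 ≤ m ∧ m ≤ L) := by omega
    rw [if_neg h4]
    have h5 : k * r (u - (L + 2)) e ≤ b e + q := (hkr _ e).trans (by omega)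
    by_cases h6 : 2 + e = 1 + m
    · have h7 : e = m - 1 := by omega
      have h8 : 1 ≤ m ∧ m ≤ L := by omega
      rw [if_pos h6, if_pos h7, if_pos h8, nsmul_eq_mul, Nat.cast_sub h5, mul_one, h7]
      push_cast
      rw [hq0]
      ring
    · rw [if_neg h6, smul_zero]
      split_ifs with h7 h8
      · omega
      · rfl
      · rfl
  rw [Finset.sum_congr rfl h3, Finset.sum_ite_eq']
  by_cases h4 : 1 ≤ m ∧ m ≤ L
  · have h5 : ¬ (u + 1 = 1 + m) := by omega
    have h6 : L + 3 ≤ u + 1 ∧ 1 ≤ m ∧ m ≤ L := by omega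
    have h7 : m - 1 ∈ range L := Finset.mem_range.2 (by omega)
    have h8 : u + 1 - (L + 3) = u - (L + 2) := by omega
    rw [if_neg h5, if_pos h6, if_pos h7, if_pos h4, h8]
    ring
  · have h5 : ¬ (u + 1 = 1 + m) := by omega
    have h6 : ¬ (L + 3 ≤ u + 1 ∧ 1 ≤ m ∧ m ≤ L) := by omega
    rw [if_neg h5, if_neg h6, if_neg h4]
    simp

/-- A bad script yields a solution. -/
theorem sol_of_bad (hq : R * k * k + k < q) (hr : ∀ j e, r j e ≤ R) (hb : ∀ e, b e ≤ R)
    (hk : 1 ≤ k) (hqQ : q ∣ Q) (hQ : 1 + L * (2 * q) ≤ Q)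
    (hgr : ∀ j < J, ∃ e < L, b e = 1 ∧ 1 ≤ r j e) {K : ℕ}
    (h : Bad (L + 2 + J + 1) (ua (L + 2 + J) Q (tg L Q q k r b)) (L + 2 + J) K (c0 k)) :
    Sol L J k r b := by
  obtain ⟨g, hgs, ⟨v0, hv0, hgv0⟩, -, hg⟩ := h
  have hq0 : 0 < q := by omega
  have hQ0 : 0 < Q := by omega
  have hsf : SkipFree (L + 2 + J) (ua (L + 2 + J) Q (tg L Q q k r b)) := skipFree_ua hq0 hQ0
  set E := ua (L + 2 + J) Q (tg L Q q k r b) with hE
  -- the new configuration
  obtain ⟨c, hc⟩ : ∃ c : ℕ → ℕ, ∀ v < L + 2 + J + 1,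
      (c v : ℤ) = c0 k v - lap E (fun u => (g u : ℤ)) v := by
    refine ⟨fun v => (c0 k v - lap E (fun u => (g u : ℤ)) v).toNat, ?_⟩
    intro v hv
    have := hg v hv
    simp only
    omega
  have htot : ∑ v ∈ range (L + 2 + J + 1), c v = k := by
    have h1 := pairing (R := ℤ) hsf.wf (fun u => (g u : ℤ)) (fun _ => 1)
    simp only [Int.cast_id, one_mul, sub_self, mul_zero, List.map_const', List.sum_replicate,
      smul_zero] at h1
    have h2 : ∑ v ∈ range (L + 2 + J + 1), (c v : ℤ) = ∑ v ∈ range (L + 2 + J + 1), c0 k v := by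
      rw [Finset.sum_congr rfl (fun v hv => hc v (Finset.mem_range.1 hv)),
        Finset.sum_sub_distrib, h1, sub_zero]
    have h3 : ∑ v ∈ range (L + 2 + J + 1), c0 k v = k := by
      unfold c0
      rw [Finset.sum_ite_eq']
      simp
    rw [h3] at h2
    exact_mod_cast h2
  have hsplit : ∀ (M : Type) [AddCommMonoid M] (f : ℕ → M), ∑ v ∈ range (L + 2 + J + 1), f v =
      f 0 + ∑ m ∈ range (L + 2), f (1 + m) + ∑ j ∈ range J, f (L + 3 + j) := by
    intro M _ f
    have := range_split M f (L + 1) J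
    rw [show L + 1 + 1 + J + 1 = L + 2 + J + 1 by omega, show L + 1 + 1 = L + 2 by omega,
      show L + 1 + 2 = L + 3 by omega] at this
    exact this
  rw [hsplit ℕ] at htot
  have hmod : ∀ m ≤ L + 1, ((c (1 + m) : ZMod q)) + ∑ j ∈ range J, (if 1 ≤ m ∧ m ≤ L then
      (k * r j (m - 1) : ZMod q) - b (m - 1) else 0) * (c (L + 3 + j) : ZMod q) = 0 := by
    intro m hm
    have h1 := pairing (R := ZMod q) hsf.wf (fun u => (g u : ℤ))
      (fun v => if v = 1 + m then (1 : ZMod q) else if L + 3 ≤ v ∧ 1 ≤ m ∧ m ≤ L then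
          (k * r (v - (L + 3)) (m - 1) : ZMod q) - b (m - 1) else 0)
    rw [weights_vanish hq hr hb hk hqQ hQ (fun u => (g u : ℤ)) m hm] at h1
    have h2 : ∀ v ∈ range (L + 2 + J + 1),
        (if v = 1 + m then (1 : ZMod q) else if L + 3 ≤ v ∧ 1 ≤ m ∧ m ≤ L then
          (k * r (v - (L + 3)) (m - 1) : ZMod q) - b (m - 1) else 0) *
          ((lap E (fun u => (g u : ℤ)) v : ℤ) : ZMod q) =
        - ((if v = 1 + m then (1 : ZMod q) else if L + 3 ≤ v ∧ 1 ≤ m ∧ m ≤ L then
          (k * r (v - (L + 3)) (m - 1) : ZMod q) - b (m - 1) else 0) * (c v : ZMod q)) := by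
      intro v hv
      have h3 := hc v (Finset.mem_range.1 hv)
      by_cases hv0 : v = 0
      · have h4 : ¬ (v = 1 + m) := by omega
        have h5 : ¬ (L + 3 ≤ v ∧ 1 ≤ m ∧ m ≤ L) := by omega
        rw [if_neg h4, if_neg h5]
        ring
      · have h4 : lap E (fun u => (g u : ℤ)) v = - (c v : ℤ) := by
          rw [h3]
          unfold c0
          rw [if_neg hv0]
          ring
        rw [h4]
        push_cast
        ring
    rw [Finset.sum_congr rfl h2, Finset.sum_neg_distrib, neg_eq_zero, hsplit (ZMod q)] at h1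
    have h4 : ¬ (0 = 1 + m) := by omega
    have h5 : ¬ (L + 3 ≤ 0 ∧ 1 ≤ m ∧ m ≤ L) := by omega
    rw [if_neg h4, if_neg h5, zero_mul, zero_add] at h1
    refine Eq.trans ?_ h1
    congr 1
    · rw [Finset.sum_eq_single m]
      · simp
      · intro m' hm' hne
        have hm'' := Finset.mem_range.1 hm'
        have h6 : ¬ (1 + m' = 1 + m) := by omega
        have h7 : ¬ (L + 3 ≤ 1 + m' ∧ 1 ≤ m ∧ m ≤ L) := by omega
        rw [if_neg h6, if_neg h7, zero_mul]
      · intro h6
        exact absurd (Finset.mem_range.2 (by omega)) h6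
    · refine Finset.sum_congr rfl fun j _ => ?_
      have h6 : ¬ (L + 3 + j = 1 + m) := by omega
      have h7 : L + 3 + j - (L + 3) = j := by omega
      have h8 : (L + 3 ≤ L + 3 + j ∧ 1 ≤ m ∧ m ≤ L) ↔ (1 ≤ m ∧ m ≤ L) := by
        constructor
        · exact fun h => h.2
        · exact fun h => ⟨by omega, h⟩
      rw [if_neg h6, h7]
      simp only [h8]
  -- bounds
  have hCk : ∑ j ∈ range J, c (L + 3 + j) ≤ k := by omega
  have hVk : ∀ m ≤ L + 1, c (1 + m) ≤ k := by
    intro m hm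
    have := Finset.single_le_sum (f := fun m => c (1 + m)) (s := range (L + 2))
      (fun _ _ => Nat.zero_le _) (Finset.mem_range.2 (by omega : m < L + 2))
    omega
  have hV0 : ∀ m, m ≤ L + 1 → ¬ (1 ≤ m ∧ m ≤ L) → c (1 + m) = 0 := by
    intro m hm hm'
    have h1 := hmod m hm
    simp only [hm', if_false, zero_mul, Finset.sum_const_zero, add_zero] at h1
    rw [ZMod.natCast_eq_zero_iff] at h1
    have h2 := hVk m hm
    exact Nat.eq_zero_of_dvd_of_lt h1 (by
      have : k < q := by omega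
      omega)
  have heq : ∀ e < L, c (2 + e) + k * ∑ j ∈ range J, c (L + 3 + j) * r j e =
      (∑ j ∈ range J, c (L + 3 + j)) * b e := by
    intro e he
    have h1 := hmod (e + 1) (by omega)
    have he1 : 1 ≤ e + 1 ∧ e + 1 ≤ L := by omega
    simp only [he1, and_self, if_true, Nat.add_sub_cancel] at h1
    rw [show 1 + (e + 1) = 2 + e by omega] at h1
    have h2 : ((c (2 + e) + k * ∑ j ∈ range J, c (L + 3 + j) * r j e : ℕ) : ZMod q) =
        (((∑ j ∈ range J, c (L + 3 + j)) * b e : ℕ) : ZMod q) := by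
      push_cast
      rw [← sub_eq_zero, ← h1, Finset.mul_sum, Finset.sum_mul, add_sub_assoc,
        ← Finset.sum_sub_distrib]
      congr 1
      refine Finset.sum_congr rfl fun j _ => ?_
      ring
    rw [ZMod.natCast_eq_natCast_iff'] at h2
    have h3 : ∑ j ∈ range J, c (L + 3 + j) * r j e ≤ k * R := by
      calc ∑ j ∈ range J, c (L + 3 + j) * r j e ≤ ∑ j ∈ range J, c (L + 3 + j) * R :=
            Finset.sum_le_sum fun j _ => Nat.mul_le_mul_left _ (hr j e)
        _ = (∑ j ∈ range J, c (L + 3 + j)) * R := by rw [Finset.sum_mul]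
        _ ≤ k * R := Nat.mul_le_mul_right _ hCk
    have h4 : k * ∑ j ∈ range J, c (L + 3 + j) * r j e ≤ k * (k * R) := Nat.mul_le_mul_left _ h3
    have h5 : k * (k * R) = R * k * k := by ring
    have h6 := hVk (e + 1) (by omega)
    rw [show 1 + (e + 1) = 2 + e by omega] at h6
    have h7 : (∑ j ∈ range J, c (L + 3 + j)) * b e ≤ k * R := Nat.mul_le_mul hCk (hb e)
    have h8 : R * k ≤ R * k * k := Nat.le_mul_of_pos_right _ hk
    have h9 : k * R = R * k := by ring
    rw [Nat.mod_eq_of_lt (by omega), Nat.mod_eq_of_lt (by omega)] at h2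
    exact h2
  -- some vector is chosen
  by_cases hz : ∃ j < J, c (L + 3 + j) ≠ 0
  · obtain ⟨j, hj, hcj⟩ := hz
    obtain ⟨e, he, hbe, hre⟩ := hgr j hj
    have h1 := heq e he
    rw [hbe, mul_one] at h1
    have h2 : 1 ≤ ∑ j ∈ range J, c (L + 3 + j) * r j e := by
      have := Finset.single_le_sum (f := fun j => c (L + 3 + j) * r j e) (s := range J)
        (fun _ _ => Nat.zero_le _) (Finset.mem_range.2 hj)
      have h3 : 1 ≤ c (L + 3 + j) * r j e := Nat.mul_pos (by omega) (by omega)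
      omega
    have h3 : k * 1 ≤ k * ∑ j ∈ range J, c (L + 3 + j) * r j e := Nat.mul_le_mul_left _ h2
    have h4 : ∑ j ∈ range J, c (L + 3 + j) = k := by omega
    have h5 : ∑ m ∈ range (L + 2), c (1 + m) = 0 := by omega
    refine ⟨fun j => c (L + 3 + j), h4, ?_⟩
    intro e he
    have h6 := heq e he
    have h7 : c (1 + (e + 1)) = 0 :=
      (Finset.sum_eq_zero_iff.1 h5) (e + 1) (Finset.mem_range.2 (by omega))
    rw [show 1 + (e + 1) = 2 + e by omega] at h7
    rw [h7, zero_add, h4] at h6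
    exact Nat.eq_of_mul_eq_mul_left hk h6
  · push Not at hz
    exfalso
    have h1 : ∑ j ∈ range J, c (L + 3 + j) = 0 :=
      Finset.sum_eq_zero fun j hj => hz j (Finset.mem_range.1 hj)
    have h2 : ∀ m < L + 2, c (1 + m) = 0 := by
      intro m hm
      by_cases hmL : 1 ≤ m ∧ m ≤ L
      · have h3 := heq (m - 1) (by omega)
        rw [h1, zero_mul, show 2 + (m - 1) = 1 + m by omega] at h3
        omega
      · exact hV0 m (by omega) hmL
    have h3 : ∑ m ∈ range (L + 2), c (1 + m) = 0 :=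
      Finset.sum_eq_zero fun m hm => h2 m (Finset.mem_range.1 hm)
    have h4 : c 0 = k := by omega
    have h5 : ∀ v < L + 2 + J + 1, lap E (fun u => (g u : ℤ)) v = 0 := by
      intro v hv
      have h6 := hc v hv
      have h7 : (c v : ℤ) = c0 k v := by
        unfold c0
        by_cases hv0 : v = 0
        · subst hv0
          simp [h4]
        · rw [if_neg hv0]
          by_cases hv1 : v < L + 3
          · have := h2 (v - 1) (by omega)
            rw [show 1 + (v - 1) = v by omega] at this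
            rw [this]
            rfl
          · have := hz (v - (L + 3)) (by omega)
            rw [show L + 3 + (v - (L + 3)) = v by omega] at this
            rw [this]
            rfl
      linarith
    have h6 := hsf.ker (fun u => (g u : ℤ)) (by simp [hgs]) h5 v0 hv0
    omega

/-- The relations of the digraph imply that solutions are null classes. -/
theorem group_part {G : Type*} [AddCommGroup G] (hq : R * k * k + k < q)
    (hr : ∀ j e, r j e ≤ R) (hb : ∀ e, b e ≤ R) (hk : 1 ≤ k) (hqQ : q ∣ Q)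
    (hQ : 1 + L * (2 * q) ≤ Q) (π : ℕ → G)
    (hrel : ∀ u < L + 2 + J, ((ua (L + 2 + J) Q (tg L Q q k r b)).map
      (fun a => if a.1 = u then π u - π a.2 else 0)).sum = 0)
    (c : ℕ → ℕ) (hc1 : ∑ j ∈ range J, c j = k) (hc2 : ∀ e < L, ∑ j ∈ range J, c j * r j e = b e) :
    ∑ j ∈ range J, (c j : ℤ) • (π (L + 3 + j) - π 0) = 0 := by
  have hkr : ∀ j e, k * r j e ≤ q := kr_le hq hr hk
  have hbq : ∀ e, b e ≤ q := b_le hq hb hk
  have hQ0 : 0 < Q := by omega
  have hqQ' : q ≤ Q := Nat.le_of_dvd hQ0 hqQ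
  obtain ⟨d, hd⟩ := hqQ
  obtain ⟨δ, hδ⟩ : ∃ δ : ℕ → G, ∀ v, δ v = π v - π 0 := ⟨fun v => π v - π 0, fun _ => rfl⟩
  have hδ0 : δ 0 = 0 := by rw [hδ]; simp
  have hrel' : ∀ u < L + 2 + J, Q • δ u = if u = 0 then Q • δ 1 else if u ≤ L + 1 then
      q • δ (u + 1) else δ (u + 1) +
        ∑ e ∈ range L, (b e + q - k * r (u - (L + 2)) e) • δ (2 + e) := by
    intro u hu
    rw [← sum_tg (r := r) hq hb hk hqQ' hQ δ hδ0 u]
    have h1 := hrel u hu
    rw [ua_sum, Finset.sum_eq_single u] at h1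
    · simp only [if_true] at h1
      have h2 : ∑ i ∈ range Q, (π u - π (tg L Q q k r b u i)) =
          ∑ i ∈ range Q, (δ u - δ (tg L Q q k r b u i)) := by
        refine Finset.sum_congr rfl fun i _ => ?_
        rw [hδ, hδ]
        abel
      rw [h2, Finset.sum_sub_distrib, Finset.sum_const, card_range, sub_eq_zero] at h1
      exact h1
    · intro u' _ hne
      simp [hne]
    · intro h2
      exact absurd (Finset.mem_range.2 hu) h2
  have hstep1 : ∀ i, i ≤ L → q • δ (2 + i) = 0 := by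
    intro i
    induction i with
    | zero =>
      intro _
      have h1 := hrel' 0 (by omega)
      have h2 := hrel' 1 (by omega)
      rw [hδ0] at h1
      simp only [smul_zero, if_true] at h1
      simp only [one_ne_zero, if_false] at h2
      rw [if_pos (by omega)] at h2
      rw [show 2 + 0 = 1 + 1 by omega, ← h2, ← h1]
    | succ i ih =>
      intro hi
      have h1 := ih (by omega)
      have h2 := hrel' (2 + i) (by omega)
      rw [if_neg (by omega), if_pos (by omega), hd, mul_comm, mul_smul, h1, smul_zero] at h2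
      rw [show 2 + (i + 1) = 2 + i + 1 by omega, ← h2]
  have hstep2 : ∀ j < J, q • δ (L + 2 + j) = 0 →
      δ (L + 3 + j) = ∑ e ∈ range L, ((k * r j e : ℤ) - b e) • δ (2 + e) := by
    intro j hj hqj
    have h1 := hrel' (L + 2 + j) (by omega)
    rw [if_neg (by omega), if_neg (by omega), hd, mul_comm, mul_smul, hqj, smul_zero,
      show L + 2 + j - (L + 2) = j by omega, show L + 2 + j + 1 = L + 3 + j by omega] at h1
    rw [eq_neg_of_add_eq_zero_left h1.symm, ← Finset.sum_neg_distrib]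
    refine Finset.sum_congr rfl fun e he => ?_
    have he' := Finset.mem_range.1 he
    have h5 : k * r j e ≤ b e + q := (hkr j e).trans (by omega)
    have h9 : (q : ℤ) • δ (2 + e) = 0 := by
      rw [natCast_zsmul]
      exact hstep1 _ (by omega)
    rw [← natCast_zsmul, Nat.cast_sub h5]
    push_cast
    have h11 : -(((b e : ℤ) + q - k * r j e) • δ (2 + e)) =
        ((k : ℤ) * r j e - b e) • δ (2 + e) - (q : ℤ) • δ (2 + e) := by
      module
    rw [h11, h9, sub_zero]
  have hqδ2 : ∀ j ≤ J, q • δ (L + 2 + j) = 0 := by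
    intro j
    induction j with
    | zero =>
      intro _
      have := hstep1 L le_rfl
      rw [show L + 2 + 0 = 2 + L by omega]
      exact this
    | succ j ih =>
      intro hj
      have h1 := hstep2 j (by omega) (ih (by omega))
      rw [show L + 2 + (j + 1) = L + 3 + j by omega, h1, Finset.smul_sum]
      refine Finset.sum_eq_zero fun e he => ?_
      have he' := Finset.mem_range.1 he
      rw [smul_comm, hstep1 e (by omega), smul_zero]
  have h1 : ∀ j ∈ range J, (c j : ℤ) • (π (L + 3 + j) - π 0) =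
      ∑ e ∈ range L, ((c j : ℤ) * ((k * r j e : ℤ) - b e)) • δ (2 + e) := by
    intro j hj
    have hj' := Finset.mem_range.1 hj
    rw [← hδ, hstep2 j hj' (hqδ2 j (by omega)), Finset.smul_sum]
    refine Finset.sum_congr rfl fun e _ => ?_
    rw [mul_smul]
  rw [Finset.sum_congr rfl h1, Finset.sum_comm]
  refine Finset.sum_eq_zero fun e he => ?_
  rw [← Finset.sum_smul]
  have h2 : ∑ j ∈ range J, (c j : ℤ) * ((k * r j e : ℤ) - b e) = 0 := by
    have h3 := hc2 e (Finset.mem_range.1 he)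
    have h4 : ∑ j ∈ range J, (c j : ℤ) * ((k * r j e : ℤ) - b e) =
        k * ((∑ j ∈ range J, c j * r j e : ℕ) : ℤ) - ((∑ j ∈ range J, c j : ℕ) : ℤ) * b e := by
      push_cast
      rw [Finset.mul_sum, Finset.sum_mul, ← Finset.sum_sub_distrib]
      refine Finset.sum_congr rfl fun j _ => ?_
      ring
    rw [h4, h3, hc1]
    ring
  rw [h2, zero_smul]

/-- A solution yields an integral script. -/
theorem script_of_sol (hq : R * k * k + k < q) (hr : ∀ j e, r j e ≤ R) (hb : ∀ e, b e ≤ R)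
    (hk : 1 ≤ k) (hqQ : q ∣ Q) (hQ : 1 + L * (2 * q) ≤ Q) (c : ℕ → ℕ)
    (hc1 : ∑ j ∈ range J, c j = k) (hc2 : ∀ e < L, ∑ j ∈ range J, c j * r j e = b e) :
    (∑ j ∈ range J, (c j : ℤ) • ((Pi.single (L + 3 + j) 1 : ℕ → ℤ) - Pi.single 0 1)) ∈
      Prin (ua (L + 2 + J) Q (tg L Q q k r b)) (L + 2 + J) := by
  have hrel : ∀ u < L + 2 + J, ((ua (L + 2 + J) Q (tg L Q q k r b)).map
      (fun a => if a.1 = u then
      QuotientAddGroup.mk' (Prin (ua (L + 2 + J) Q (tg L Q q k r b)) (L + 2 + J)) (Pi.single u 1) -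
      QuotientAddGroup.mk' (Prin (ua (L + 2 + J) Q (tg L Q q k r b)) (L + 2 + J)) (Pi.single a.2 1)
      else 0)).sum = 0 := by
    intro u hu
    have h1 : QuotientAddGroup.mk' (Prin (ua (L + 2 + J) Q (tg L Q q k r b)) (L + 2 + J))
        (((ua (L + 2 + J) Q (tg L Q q k r b)).map (fun a => if a.1 = u then
        (Pi.single u 1 - Pi.single a.2 1 : ℕ → ℤ) else 0)).sum) = 0 := by
      rw [QuotientAddGroup.mk'_apply, QuotientAddGroup.eq_zero_iff]
      refine ⟨Pi.single u 1, ?_, fun v _ => lap_single _ u v⟩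
      rw [Pi.single_apply, if_neg (by omega)]
    rw [map_list_sum, List.map_map] at h1
    refine Eq.trans ?_ h1
    congr 1
    refine List.map_congr_left fun a _ => ?_
    simp only [Function.comp_apply]
    split_ifs
    · rw [map_sub]
    · rw [map_zero]
  have h := group_part hq hr hb hk hqQ hQ
    (fun v => QuotientAddGroup.mk' (Prin (ua (L + 2 + J) Q (tg L Q q k r b)) (L + 2 + J))
      (Pi.single v 1)) hrel c hc1 hc2
  rw [← QuotientAddGroup.eq_zero_iff, ← QuotientAddGroup.mk'_apply, map_sum]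
  refine Eq.trans ?_ h
  refine Finset.sum_congr rfl fun j _ => ?_
  rw [map_zsmul, map_sub]

/-- A solution yields a bad script, which is positive at `0`. -/
theorem bad_of_sol (hq : R * k * k + k < q) (hr : ∀ j e, r j e ≤ R) (hb : ∀ e, b e ≤ R)
    (hk : 1 ≤ k) (hqQ : q ∣ Q) (hQ : 1 + L * (2 * q) ≤ Q) (h : Sol L J k r b) :
    ∃ g : ℕ → ℕ, g (L + 2 + J) = 0 ∧ 1 ≤ g 0 ∧ (∀ v < L + 2 + J + 1,
      g v ≤ k * ((L + 2 + J) * Q + 1) ^ (L + 2 + J)) ∧
      ∀ v < L + 2 + J + 1, lap (ua (L + 2 + J) Q (tg L Q q k r b)) (fun u => (g u : ℤ)) v ≤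
        c0 k v := by
  obtain ⟨c, hc1, hc2⟩ := h
  have hq0 : 0 < q := by omega
  have hQ0 : 0 < Q := by omega
  have hsf : SkipFree (L + 2 + J) (ua (L + 2 + J) Q (tg L Q q k r b)) := skipFree_ua hq0 hQ0
  obtain ⟨g0, hg0, hg0L⟩ := script_of_sol hq hr hb hk hqQ hQ c hc1 hc2
  have hlen : (ua (L + 2 + J) Q (tg L Q q k r b)).length = (L + 2 + J) * Q := by
    unfold ua
    rw [List.length_flatMap]
    simp
  set E := ua (L + 2 + J) Q (tg L Q q k r b) with hE
  -- the vector of chosen chips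
  obtain ⟨d, hd⟩ : ∃ d : ℕ → ℤ, ∀ v, d v = ∑ j ∈ range J, if v = L + 3 + j then (c j : ℤ) else 0 :=
    ⟨_, fun _ => rfl⟩
  have hd0 : ∀ v, 0 ≤ d v := by
    intro v
    rw [hd]
    refine Finset.sum_nonneg fun j _ => ?_
    split_ifs <;> positivity
  have hval : ∀ v < L + 2 + J + 1, lap E (fun u => - g0 u) v = c0 k v - d v := by
    intro v hv
    rw [lap_neg, hg0L v hv]
    rw [Finset.sum_apply]
    have h1 : ∀ j ∈ range J, ((c j : ℤ) • ((Pi.single (L + 3 + j) 1 : ℕ → ℤ) - Pi.single 0 1) :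
        ℕ → ℤ) v =
        (if v = L + 3 + j then (c j : ℤ) else 0) - (if v = 0 then 1 else 0) * (c j : ℤ) := by
      intro j _
      simp only [Pi.smul_apply, Pi.sub_apply, Pi.single_apply, smul_eq_mul]
      split_ifs <;> ring
    rw [Finset.sum_congr rfl h1, Finset.sum_sub_distrib, ← Finset.mul_sum]
    have h2 : ∑ j ∈ range J, (c j : ℤ) = k := by exact_mod_cast hc1
    rw [h2, hd]
    unfold c0
    split_ifs <;> ring
  have hdsum : ∑ v ∈ range (L + 2 + J + 1), d v ≤ k := by
    simp only [hd]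
    rw [Finset.sum_comm]
    have h1 : ∀ j ∈ range J, ∑ v ∈ range (L + 2 + J + 1), (if v = L + 3 + j then (c j : ℤ) else 0) =
        c j := by
      intro j hj
      have hj' := Finset.mem_range.1 hj
      rw [Finset.sum_ite_eq', if_pos (Finset.mem_range.2 (by omega))]
    rw [Finset.sum_congr rfl h1]
    exact le_of_eq (by exact_mod_cast hc1)
  have hbd := hsf.bound (fun u => - g0 u) d k (by simp [hg0]) hd0 hdsum (by
    intro v hv1 hv2
    rw [hval v hv2]
    unfold c0
    rw [if_neg (by omega)]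
    ring)
  have hcong : ∀ v, lap E (fun u => (((- g0 u).toNat : ℕ) : ℤ)) v = lap E (fun u => - g0 u) v := by
    intro v
    refine lap_congr E ?_ v
    intro a ha
    have := (hbd a.1 (hsf.wf a ha).1).1
    omega
  refine ⟨fun v => (- g0 v).toNat, by simp [hg0], ?_, ?_, ?_⟩
  · by_contra hcon
    change ¬ 1 ≤ (- g0 0).toNat at hcon
    have h00 : - g0 0 = 0 := by
      have h01 : 0 ≤ - g0 0 := (hbd 0 (by omega)).1
      omega
    -- the value at `0` vanishes, so the Laplacian at `0` is not positive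
    have h2 := hval 0 (by omega)
    have h4 : d 0 = 0 := by
      rw [hd]
      refine Finset.sum_eq_zero fun j _ => ?_
      rw [if_neg (by omega)]
    have h3 : lap E (fun u => - g0 u) 0 ≤ 0 := by
      rw [hE, lap_ua, h00]
      have : 0 ≤ ∑ u ∈ range (L + 2 + J), ∑ i ∈ range Q,
          if tg L Q q k r b u i = 0 then - g0 u else 0 := by
        refine Finset.sum_nonneg fun u hu => Finset.sum_nonneg fun i _ => ?_
        have := (hbd u (by have := Finset.mem_range.1 hu; omega)).1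
        split_ifs
        · exact this
        · exact le_rfl
      simp only [mul_zero, ite_self]
      linarith
    rw [h2, h4] at h3
    unfold c0 at h3
    simp at h3
    omega
  · intro v hv
    have h1 := (hbd v hv).1
    have h2 := (hbd v hv).2
    rw [hlen] at h2
    have h4 : (- g0 v) ≤ ((k * ((L + 2 + J) * Q + 1) ^ (L + 2 + J) : ℕ) : ℤ) := by
      refine h2.trans (le_of_eq ?_)
      push_cast
      ring
    change (- g0 v).toNat ≤ _
    omega
  · intro v hv
    rw [hcong v, hval v hv]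
    have := hd0 v
    linarith

end

end Pool.Agent.Y403.CF
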