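import Pool.Agent.Y403.CF.Core3

/-!
# Replacing the vertices by binary trees

Every vertex of out-degree `P + 1 = 2 ^ H` is replaced by a complete binary tree with `P` inner
vertices, whose leaves stand for the arcs; the leaves of the arcs with a common target form a path,
which ends in the root of the tree of the target.
-/

namespace Pool.Agent.Y403.CF

open Finset Pool.Agent.H577R2

theorem code_inj {W u u' t t' : ℕ} (h : t < W) (h' : t' < W) :
    u * W + t = u' * W + t' ↔ u = u' ∧ t = t' := by
  constructor
  · intro h1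
    have h2 : (u * W + t) / W = u := by
      rw [mul_comm, Nat.mul_add_div (by omega), Nat.div_eq_of_lt h, add_zero]
    have h3 : (u' * W + t') / W = u' := by
      rw [mul_comm, Nat.mul_add_div (by omega), Nat.div_eq_of_lt h', add_zero]
    rw [h1, h3] at h2
    subst h2
    exact ⟨rfl, by omega⟩
  · rintro ⟨rfl, rfl⟩
    rfl

theorem sum_range_mul {M : Type*} [AddCommMonoid M] (N Q : ℕ) (F : ℕ → M) :
    ∑ a ∈ range (N * Q), F a = ∑ u ∈ range N, ∑ i ∈ range Q, F (u * Q + i) := by
  induction N with
  | zero => simp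
  | succ N ih => rw [Nat.succ_mul, Finset.sum_range_add, ih, Finset.sum_range_succ]

theorem lap_append (E E' : List (ℕ × ℕ)) (g : ℕ → ℤ) (v : ℕ) :
    lap (E ++ E') g v = lap E g v + lap E' g v := by
  unfold lap
  rw [List.map_append, List.sum_append]

/-- The vertex of the `a`-th arc. -/
def leaf (P a : ℕ) : ℕ := a / (P + 1) * (2 * P + 1) + (P + a % (P + 1))

/-- The inner vertex above the vertex of the `a`-th arc. -/
def par (P a : ℕ) : ℕ := a / (P + 1) * (2 * P + 1) + (P + a % (P + 1) - 1) / 2

/-- The target of the `a`-th arc. -/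
def ta (P : ℕ) (tg : ℕ → ℕ → ℕ) (a : ℕ) : ℕ := tg (a / (P + 1)) (a % (P + 1))

/-- The next arc with the same target. -/
def next (N P : ℕ) (tg : ℕ → ℕ → ℕ) (a : ℕ) : Option ℕ :=
  ((List.range (N * (P + 1))).filter
    (fun b => decide (a < b) && decide (ta P tg b = ta P tg a))).head?

/-- The out-neighbour of the vertex of the `a`-th arc. -/
def nx (N P : ℕ) (tg : ℕ → ℕ → ℕ) (a : ℕ) : ℕ :=
  ((next N P tg a).map (leaf P)).getD (ta P tg a * (2 * P + 1))

/-- The arcs leaving the inner vertices of the trees. -/
def ints (N P : ℕ) : List (ℕ × ℕ) :=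
  (List.range N).flatMap (fun u => (List.range P).flatMap (fun t =>
    [(u * (2 * P + 1) + t, u * (2 * P + 1) + (2 * t + 1)),
      (u * (2 * P + 1) + t, u * (2 * P + 1) + (2 * t + 2))]))

/-- The arcs leaving the vertices which stand for arcs. -/
def lfs (N P : ℕ) (tg : ℕ → ℕ → ℕ) : List (ℕ × ℕ) :=
  (List.range (N * (P + 1))).map (fun a => (leaf P a, nx N P tg a))

/-- The digraph, with the sink `N * (2 * P + 1)`. -/
def cub (N P : ℕ) (tg : ℕ → ℕ → ℕ) : List (ℕ × ℕ) := ints N P ++ lfs N P tg

section next

variable {N P : ℕ} {tg : ℕ → ℕ → ℕ} {a b : ℕ}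

theorem head?_filter_range {n : ℕ} {p : ℕ → Bool} {b : ℕ}
    (h : ((List.range n).filter p).head? = some b) : b < n ∧ p b = true ∧
      ∀ c < b, p c = false := by
  rw [List.head?_filter, List.find?_range_eq_some] at h
  obtain ⟨h1, h2, h3⟩ := h
  refine ⟨List.mem_range.1 h2, h1, ?_⟩
  intro c hc
  simpa using h3 c hc

theorem head?_filter_range_none {n : ℕ} {p : ℕ → Bool}
    (h : ((List.range n).filter p).head? = none) : ∀ c < n, p c = false := by
  intro c hc
  rw [List.head?_eq_none_iff, List.filter_eq_nil_iff] at h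
  simpa using h c (List.mem_range.2 hc)

theorem next_some (h : next N P tg a = some b) : b < N * (P + 1) ∧ a < b ∧
    ta P tg b = ta P tg a ∧ ∀ c, a < c → c < b → ta P tg c ≠ ta P tg a := by
  obtain ⟨h1, h2, h3⟩ := head?_filter_range h
  simp only [Bool.and_eq_true, decide_eq_true_eq] at h2
  refine ⟨h1, h2.1, h2.2, ?_⟩
  intro c hc1 hc2 hc3
  have := h3 c hc2
  simp [hc1, hc3] at this

theorem next_none (h : next N P tg a = none) : ∀ c, a < c → c < N * (P + 1) →
    ta P tg c ≠ ta P tg a := by
  intro c hc1 hc2 hc3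
  have := head?_filter_range_none h c hc2
  simp [hc1, hc3] at this

end next

section lapl

variable {N P : ℕ} {tg : ℕ → ℕ → ℕ}

theorem leaf_inj {a b : ℕ} : leaf P a = leaf P b ↔ a = b := by
  unfold leaf
  have h1 := Nat.mod_lt a (show 0 < P + 1 by omega)
  have h2 := Nat.mod_lt b (show 0 < P + 1 by omega)
  rw [code_inj (by omega) (by omega)]
  constructor
  · rintro ⟨h3, h4⟩
    rw [← Nat.div_add_mod a (P + 1), ← Nat.div_add_mod b (P + 1), h3]
    omega
  · rintro rfl
    exact ⟨rfl, rfl⟩

theorem lap_ints (g : ℕ → ℤ) {u t : ℕ} (hu : u < N) (ht : t < 2 * P + 1) :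
    lap (ints N P) g (u * (2 * P + 1) + t) =
      (if t < P then 2 * g (u * (2 * P + 1) + t) else 0) -
        (if t = 0 then 0 else g (u * (2 * P + 1) + (t - 1) / 2)) := by
  have key : lap (ints N P) g (u * (2 * P + 1) + t) = ∑ u' ∈ range N, ∑ t' ∈ range P,
      (((if u' = u ∧ t' = t then g (u * (2 * P + 1) + t) else 0) -
        (if u' = u ∧ 2 * t' + 1 = t then g (u' * (2 * P + 1) + t') else 0)) +
      ((if u' = u ∧ t' = t then g (u * (2 * P + 1) + t) else 0) -
        (if u' = u ∧ 2 * t' + 2 = t then g (u' * (2 * P + 1) + t') else 0))) := by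
    unfold lap ints
    rw [sum_map_flatMap, sum_map_range]
    refine Finset.sum_congr rfl fun u' _ => ?_
    rw [sum_map_flatMap, sum_map_range]
    refine Finset.sum_congr rfl fun t' ht' => ?_
    have ht'' := Finset.mem_range.1 ht'
    have c1 := code_inj (W := 2 * P + 1) (u := u') (u' := u) (t := t') (t' := t) (by omega) ht
    have c2 := code_inj (W := 2 * P + 1) (u := u') (u' := u) (t := 2 * t' + 1) (t' := t)
      (by omega) ht
    have c3 := code_inj (W := 2 * P + 1) (u := u') (u' := u) (t := 2 * t' + 2) (t' := t)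
      (by omega) ht
    simp only [List.map_cons, List.map_nil, List.sum_cons, List.sum_nil, add_zero, c1, c2, c3]
  rw [key, Finset.sum_eq_single u]
  · simp only [true_and]
    simp only [Finset.sum_add_distrib, Finset.sum_sub_distrib, Finset.sum_ite_eq',
      Finset.mem_range]
    by_cases h0 : t = 0
    · subst h0
      have h1 : ∀ t', ¬ (2 * t' + 1 = 0) := by intro t'; omega
      have h2 : ∀ t', ¬ (2 * t' + 2 = 0) := by intro t'; omega
      simp only [h1, h2, if_false, Finset.sum_const_zero, if_true]
      split_ifs <;> ring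
    · have h1 : ∑ t' ∈ range P, (if 2 * t' + 1 = t then g (u * (2 * P + 1) + t') else 0) +
          ∑ t' ∈ range P, (if 2 * t' + 2 = t then g (u * (2 * P + 1) + t') else 0) =
          g (u * (2 * P + 1) + (t - 1) / 2) := by
        rw [← Finset.sum_add_distrib, Finset.sum_eq_single ((t - 1) / 2)]
        · by_cases h2 : 2 * ((t - 1) / 2) + 1 = t
          · have h3 : ¬ (2 * ((t - 1) / 2) + 2 = t) := by omega
            rw [if_pos h2, if_neg h3, add_zero]
          · have h3 : 2 * ((t - 1) / 2) + 2 = t := by omega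
            rw [if_neg h2, if_pos h3, zero_add]
        · intro t' _ ht'
          rw [if_neg (by omega), if_neg (by omega), add_zero]
        · intro h2
          exact absurd (Finset.mem_range.2 (by omega)) h2
      rw [if_neg h0, ← h1]
      split_ifs <;> ring
  · intro u' _ hu'
    refine Finset.sum_eq_zero fun t' _ => ?_
    simp [hu']
  · intro h
    exact absurd (Finset.mem_range.2 hu) h

theorem lap_ints_sink (g : ℕ → ℤ) : lap (ints N P) g (N * (2 * P + 1)) = 0 := by
  unfold lap ints
  rw [sum_map_flatMap, sum_map_range]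
  refine Finset.sum_eq_zero fun u hu => ?_
  rw [sum_map_flatMap, sum_map_range]
  refine Finset.sum_eq_zero fun t ht => ?_
  have hu' := Finset.mem_range.1 hu
  have ht' := Finset.mem_range.1 ht
  have h1 : ¬ (u = N) := by omega
  have c1 := code_inj (W := 2 * P + 1) (u := u) (u' := N) (t := t) (t' := 0) (by omega) (by omega)
  have c2 := code_inj (W := 2 * P + 1) (u := u) (u' := N) (t := 2 * t + 1) (t' := 0)
    (by omega) (by omega)
  have c3 := code_inj (W := 2 * P + 1) (u := u) (u' := N) (t := 2 * t + 2) (t' := 0)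
    (by omega) (by omega)
  rw [add_zero] at c1 c2 c3
  simp only [List.map_cons, List.map_nil, List.sum_cons, List.sum_nil, add_zero, c1, c2, c3, h1,
    false_and, if_false, sub_self]

/-- The flow into a root. -/
def LF (N P : ℕ) (tg : ℕ → ℕ → ℕ) (g : ℕ → ℤ) (v : ℕ) : ℤ :=
  ∑ a ∈ range (N * (P + 1)), if next N P tg a = none ∧ ta P tg a = v then g (leaf P a) else 0

/-- The flow into the vertex of an arc from the preceding one. -/
def PF (N P : ℕ) (tg : ℕ → ℕ → ℕ) (g : ℕ → ℤ) (b : ℕ) : ℤ :=
  ∑ a ∈ range (N * (P + 1)), if next N P tg a = some b then g (leaf P a) else 0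

theorem lap_lfs_eq (g : ℕ → ℤ) (p : ℕ) : lap (lfs N P tg) g p =
    ∑ a ∈ range (N * (P + 1)), ((if leaf P a = p then g p else 0) -
      (if nx N P tg a = p then g (leaf P a) else 0)) := by
  unfold lap lfs
  rw [List.map_map, sum_map_range]
  rfl

theorem lap_lfs_int (g : ℕ → ℤ) {u t : ℕ} (ht : t < P) :
    lap (lfs N P tg) g (u * (2 * P + 1) + t) = - (if t = 0 then LF N P tg g u else 0) := by
  rw [lap_lfs_eq]
  have h1 : ∀ a ∈ range (N * (P + 1)), ((if leaf P a = u * (2 * P + 1) + t then
      g (u * (2 * P + 1) + t) else 0) -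
      (if nx N P tg a = u * (2 * P + 1) + t then g (leaf P a) else 0)) =
      - (if t = 0 then (if next N P tg a = none ∧ ta P tg a = u then g (leaf P a) else 0)
        else 0) := by
    intro a _
    have ha := Nat.mod_lt a (show 0 < P + 1 by omega)
    have h2 : ∀ b, ¬ (leaf P b = u * (2 * P + 1) + t) := by
      intro b
      unfold leaf
      have hb := Nat.mod_lt b (show 0 < P + 1 by omega)
      rw [code_inj (by omega) (by omega)]
      omega
    rw [if_neg (h2 a), zero_sub]
    congr 1
    unfold nx
    cases hn : next N P tg a with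
    | some b =>
      simp only [Option.map_some, Option.getD_some, h2 b, if_false, reduceCtorEq, false_and,
        ite_self]
    | none =>
      simp only [Option.map_none, Option.getD_none, true_and]
      have h3 : (ta P tg a * (2 * P + 1) = u * (2 * P + 1) + t) ↔ (ta P tg a = u ∧ 0 = t) := by
        have := code_inj (W := 2 * P + 1) (u := ta P tg a) (u' := u) (t := 0) (t' := t) (by omega)
          (by omega)
        rwa [add_zero] at this
      by_cases h4 : t = 0
      · subst h4
        simp only [h3, and_true, if_true]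
      · rw [if_neg h4, if_neg]
        rw [h3]
        omega
  rw [Finset.sum_congr rfl h1, Finset.sum_neg_distrib]
  congr 1
  unfold LF
  split_ifs
  · rfl
  · simp

theorem lap_lfs_sink (hP : 1 ≤ P) (g : ℕ → ℤ) :
    lap (lfs N P tg) g (N * (2 * P + 1)) = - LF N P tg g N := by
  have h := lap_lfs_int (N := N) (tg := tg) g (u := N) (t := 0) hP
  rw [add_zero, if_pos rfl] at h
  exact h

theorem lap_lfs_leaf (hP : 1 ≤ P) (g : ℕ → ℤ) {b : ℕ} (hb : b < N * (P + 1)) :
    lap (lfs N P tg) g (leaf P b) = g (leaf P b) - PF N P tg g b := by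
  rw [lap_lfs_eq, Finset.sum_sub_distrib]
  congr 1
  · simp only [leaf_inj]
    rw [Finset.sum_ite_eq', if_pos (Finset.mem_range.2 hb)]
  · unfold PF
    refine Finset.sum_congr rfl fun a _ => ?_
    unfold nx
    cases hn : next N P tg a with
    | some b' =>
      simp only [Option.map_some, Option.getD_some, leaf_inj, Option.some.injEq]
    | none =>
      have h3 : ¬ (ta P tg a * (2 * P + 1) = leaf P b) := by
        unfold leaf
        have hb' := Nat.mod_lt b (show 0 < P + 1 by omega)
        have := code_inj (W := 2 * P + 1) (u := ta P tg a) (u' := b / (P + 1)) (t := 0)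
          (t' := P + b % (P + 1)) (by omega) (by omega)
        rw [add_zero] at this
        rw [this]
        omega
      simp only [Option.map_none, Option.getD_none, h3, if_false, reduceCtorEq]

theorem lap_cub_int (g : ℕ → ℤ) {u t : ℕ} (hu : u < N) (ht : t < P) :
    lap (cub N P tg) g (u * (2 * P + 1) + t) = 2 * g (u * (2 * P + 1) + t) -
      (if t = 0 then LF N P tg g u else g (u * (2 * P + 1) + (t - 1) / 2)) := by
  unfold cub
  rw [lap_append, lap_ints g hu (by omega), lap_lfs_int g ht, if_pos ht]
  split_ifs <;> ring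

theorem lap_cub_leaf (hP : 1 ≤ P) (g : ℕ → ℤ) {b : ℕ} (hb : b < N * (P + 1)) :
    lap (cub N P tg) g (leaf P b) = g (leaf P b) - g (par P b) - PF N P tg g b := by
  unfold cub
  have hb' := Nat.mod_lt b (show 0 < P + 1 by omega)
  rw [lap_append, lap_lfs_leaf hP g hb]
  have h1 : b / (P + 1) < N := Nat.div_lt_of_lt_mul (by rwa [mul_comm])
  have h2 : lap (ints N P) g (leaf P b) = - g (par P b) := by
    unfold leaf par
    rw [lap_ints g h1 (by omega), if_neg (by omega), if_neg (by omega)]
    ring
  rw [h2]
  ring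

theorem lap_cub_sink (hP : 1 ≤ P) (g : ℕ → ℤ) :
    lap (cub N P tg) g (N * (2 * P + 1)) = - LF N P tg g N := by
  unfold cub
  rw [lap_append, lap_ints_sink, lap_lfs_sink hP]
  ring

/-- The flow into the root of a vertex, in terms of its defects. -/
theorem LF_eq (g : ℕ → ℤ) (v : ℕ) : LF N P tg g v = ∑ b ∈ range (N * (P + 1)),
    (if ta P tg b = v then g (leaf P b) - PF N P tg g b else 0) := by
  have h1 : ∑ b ∈ range (N * (P + 1)), (if ta P tg b = v then g (leaf P b) - PF N P tg g b else 0) =
      ∑ b ∈ range (N * (P + 1)), (if ta P tg b = v then g (leaf P b) else 0) -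
      ∑ b ∈ range (N * (P + 1)), (if ta P tg b = v then PF N P tg g b else 0) := by
    rw [← Finset.sum_sub_distrib]
    refine Finset.sum_congr rfl fun b _ => ?_
    split_ifs <;> ring
  have h2 : ∑ b ∈ range (N * (P + 1)), (if ta P tg b = v then PF N P tg g b else 0) =
      ∑ a ∈ range (N * (P + 1)), (if ¬ next N P tg a = none ∧ ta P tg a = v then g (leaf P a)
        else 0) := by
    unfold PF
    have h3 : ∀ b ∈ range (N * (P + 1)), (if ta P tg b = v then ∑ a ∈ range (N * (P + 1)),
        (if next N P tg a = some b then g (leaf P a) else 0) else 0) =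
        ∑ a ∈ range (N * (P + 1)), (if ta P tg b = v then
          (if next N P tg a = some b then g (leaf P a) else 0) else 0) := by
      intro b _
      split_ifs
      · rfl
      · simp
    rw [Finset.sum_congr rfl h3, Finset.sum_comm]
    refine Finset.sum_congr rfl fun a _ => ?_
    cases hn : next N P tg a with
    | none => simp
    | some b =>
      obtain ⟨h4, h5, h6, h7⟩ := next_some hn
      rw [Finset.sum_eq_single b]
      · rw [h6]
        simp
      · intro b' _ hne
        have : ¬ (b = b') := fun h => hne h.symm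
        simp [this]
      · intro h
        exact absurd (Finset.mem_range.2 h4) h
  rw [h1, h2, ← Finset.sum_sub_distrib]
  unfold LF
  refine Finset.sum_congr rfl fun a _ => ?_
  by_cases h4 : next N P tg a = none <;> by_cases h5 : ta P tg a = v <;> simp [h4, h5]

end lapl

end Pool.Agent.Y403.CF
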