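import Pool.Agent.Y403.CF.Cub

/-!
# Bad scripts of the cubic digraph
-/

namespace Pool.Agent.Y403.CF

open Finset Pool.Agent.H577R2

/-- The distribution of `k` chips over the first tree. -/
def cc (P k : ℕ) (p : ℕ) : ℤ :=
  if p < 2 * P + 1 then ((k / 2 ^ (Nat.log 2 (p + 1)) % 2 : ℕ) : ℤ) else 0

theorem cc_nonneg (P k p : ℕ) : 0 ≤ cc P k p := by
  unfold cc
  split_ifs
  · positivity
  · exact le_rfl

/-- The number of chips on a vertex. -/
def ku (k u : ℕ) : ℕ := if u = 0 then k else 0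

theorem log_half {t : ℕ} (ht : t ≠ 0) : Nat.log 2 (t + 1) = Nat.log 2 ((t - 1) / 2 + 1) + 1 := by
  have h1 : (t - 1) / 2 + 1 = (t + 1) / 2 := by omega
  rw [h1, Nat.log_div_base]
  have h2 : 0 < Nat.log 2 (t + 1) := Nat.log_pos (by norm_num) (by omega)
  omega

section

variable {N H P k : ℕ} {tg : ℕ → ℕ → ℕ}

theorem log_leaf (hP : P + 1 = 2 ^ H) {t : ℕ} (h1 : P ≤ t) (h2 : t < 2 * P + 1) :
    Nat.log 2 (t + 1) = H := by
  apply Nat.log_eq_of_pow_le_of_lt_pow
  · omega
  · rw [pow_succ]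
    omega

theorem log_par (hP : P + 1 = 2 ^ H) (hH : 1 ≤ H) {i : ℕ} (hi : i < P + 1) :
    Nat.log 2 ((P + i - 1) / 2 + 1) + 1 = H := by
  obtain ⟨h, rfl⟩ : ∃ h, H = h + 1 := ⟨H - 1, by omega⟩
  have h1 : Nat.log 2 ((P + i - 1) / 2 + 1) = h := by
    rw [pow_succ] at hP
    apply Nat.log_eq_of_pow_le_of_lt_pow
    · omega
    · rw [pow_succ]
      omega
  omega

theorem log_int (hP : P + 1 = 2 ^ H) {t : ℕ} (ht : t < P) : Nat.log 2 (t + 1) < H :=
  Nat.log_lt_of_lt_pow (by omega) (by omega)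

theorem cc_code {u t : ℕ} (ht : t < 2 * P + 1) :
    cc P k (u * (2 * P + 1) + t) = ((ku k u / 2 ^ (Nat.log 2 (t + 1)) % 2 : ℕ) : ℤ) := by
  unfold cc ku
  by_cases hu : u = 0
  · subst hu
    rw [zero_mul, zero_add, if_pos ht, if_pos rfl]
  · rw [if_neg hu, if_neg]
    · simp
    · have : 1 * (2 * P + 1) ≤ u * (2 * P + 1) := Nat.mul_le_mul_right _ (by omega)
      omega

theorem ku_lt (hk : k < 2 ^ H) (u : ℕ) : ku k u < 2 ^ H := by
  unfold ku
  split_ifs
  · exact hk
  · positivity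

theorem cc_leaf (hP : P + 1 = 2 ^ H) (hk : k < 2 ^ H) (b : ℕ) : cc P k (leaf P b) = 0 := by
  unfold leaf
  have hb := Nat.mod_lt b (show 0 < P + 1 by omega)
  rw [cc_code (by omega), log_leaf hP (by omega) (by omega), Nat.div_eq_of_lt (ku_lt hk _)]
  rfl

theorem cc_sink (hN : 1 ≤ N) : cc P k (N * (2 * P + 1)) = 0 := by
  unfold cc
  have : 1 * (2 * P + 1) ≤ N * (2 * P + 1) := Nat.mul_le_mul_right _ hN
  rw [if_neg (by omega)]

/-- The inequalities in a tree. -/
theorem tree_le (g : ℕ → ℤ) {u : ℕ} (hu : u < N)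
    (h : ∀ t < P, lap (cub N P tg) g (u * (2 * P + 1) + t) ≤ cc P k (u * (2 * P + 1) + t)) :
    ∀ t < P, 2 ^ (Nat.log 2 (t + 1) + 1) * g (u * (2 * P + 1) + t) ≤
      ((ku k u % 2 ^ (Nat.log 2 (t + 1) + 1) : ℕ) : ℤ) + LF N P tg g u := by
  intro t
  induction t using Nat.strong_induction_on with
  | _ t ih =>
    intro ht
    have h1 := h t ht
    rw [lap_cub_int g hu ht, cc_code (by omega)] at h1
    by_cases h0 : t = 0
    · subst h0
      simp only [if_true, zero_add, Nat.log_one_right, pow_zero, Nat.div_one, pow_one] at h1 ⊢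
      linarith
    · rw [if_neg h0] at h1
      have h2 := ih ((t - 1) / 2) (by omega) (by omega)
      rw [← log_half h0] at h2
      set d := Nat.log 2 (t + 1) with hd
      rw [Nat.mod_pow_succ]
      push_cast at h1 h2 ⊢
      have h3 : (0 : ℤ) ≤ 2 ^ d := by positivity
      have h4 := mul_le_mul_of_nonneg_left h1 h3
      rw [pow_succ]
      linarith

theorem LF_neg (g : ℕ → ℤ) (v : ℕ) : LF N P tg (fun u => - g u) v = - LF N P tg g v := by
  unfold LF
  rw [← Finset.sum_neg_distrib]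
  refine Finset.sum_congr rfl fun a _ => ?_
  split_ifs <;> simp

/-- The equalities in a tree. -/
theorem tree_eq (g : ℕ → ℤ) {u : ℕ} (hu : u < N)
    (h : ∀ t < P, lap (cub N P tg) g (u * (2 * P + 1) + t) = 0) :
    ∀ t < P, 2 ^ (Nat.log 2 (t + 1) + 1) * g (u * (2 * P + 1) + t) = LF N P tg g u := by
  intro t ht
  have h1 := tree_le (k := 0) g hu (fun t ht => by rw [h t ht]; exact cc_nonneg _ _ _) t ht
  have h2 := tree_le (k := 0) (fun v => - g v) hu (fun t ht => by
    rw [lap_neg, h t ht]; simpa using cc_nonneg _ _ _) t ht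
  rw [LF_neg] at h2
  have h3 : ku 0 u = 0 := by
    unfold ku
    simp
  rw [h3] at h1 h2
  simp only [Nat.zero_mod, Nat.cast_zero, zero_add] at h1 h2
  have h4 : (2 : ℤ) ^ (Nat.log 2 (t + 1) + 1) * (- g (u * (2 * P + 1) + t)) =
      - (2 ^ (Nat.log 2 (t + 1) + 1) * g (u * (2 * P + 1) + t)) := by ring
  rw [h4] at h2
  linarith

theorem ta_code {u i : ℕ} (hi : i < P + 1) : ta P tg (u * (P + 1) + i) = tg u i := by
  unfold ta
  rw [mul_comm, Nat.mul_add_div (by omega), Nat.div_eq_of_lt hi, add_zero, Nat.mul_add_mod,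
    Nat.mod_eq_of_lt hi]

theorem div_code {u i : ℕ} (hi : i < P + 1) : (u * (P + 1) + i) / (P + 1) = u := by
  rw [mul_comm, Nat.mul_add_div (by omega), Nat.div_eq_of_lt hi, add_zero]

theorem mod_code {u i : ℕ} (hi : i < P + 1) : (u * (P + 1) + i) % (P + 1) = i := by
  rw [mul_comm, Nat.mul_add_mod, Nat.mod_eq_of_lt hi]

theorem par_code {u i : ℕ} (hi : i < P + 1) : par P (u * (P + 1) + i) =
    u * (2 * P + 1) + (P + i - 1) / 2 := by
  unfold par
  rw [div_code hi, mod_code hi]

theorem leaf_code {u i : ℕ} (hi : i < P + 1) : leaf P (u * (P + 1) + i) =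
    u * (2 * P + 1) + (P + i) := by
  unfold leaf
  rw [div_code hi, mod_code hi]

theorem leaf_lt {b : ℕ} (hb : b < N * (P + 1)) : leaf P b < N * (2 * P + 1) := by
  unfold leaf
  have h1 : b / (P + 1) < N := Nat.div_lt_of_lt_mul (by rwa [mul_comm])
  have h2 := Nat.mod_lt b (show 0 < P + 1 by omega)
  have h3 : (b / (P + 1) + 1) * (2 * P + 1) ≤ N * (2 * P + 1) := Nat.mul_le_mul_right _ h1
  rw [add_mul] at h3
  omega

theorem code_lt {u t : ℕ} (hu : u < N) (ht : t < 2 * P + 1) :
    u * (2 * P + 1) + t < N * (2 * P + 1) := by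
  have h3 : (u + 1) * (2 * P + 1) ≤ N * (2 * P + 1) := Nat.mul_le_mul_right _ hu
  rw [add_mul] at h3
  omega

/-- Every vertex is the sink, an inner vertex or the vertex of an arc. -/
theorem code_cases {p : ℕ} (hp : p < N * (2 * P + 1) + 1) : p = N * (2 * P + 1) ∨
    (∃ u < N, ∃ t < P, p = u * (2 * P + 1) + t) ∨ (∃ b < N * (P + 1), p = leaf P b) := by
  by_cases h0 : p = N * (2 * P + 1)
  · exact Or.inl h0
  · right
    have h1 : p / (2 * P + 1) < N := Nat.div_lt_of_lt_mul (by rw [mul_comm]; omega)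
    have h2 := Nat.mod_lt p (show 0 < 2 * P + 1 by omega)
    have h3 := Nat.div_add_mod p (2 * P + 1)
    rw [mul_comm] at h3
    by_cases h4 : p % (2 * P + 1) < P
    · exact Or.inl ⟨_, h1, _, h4, h3.symm⟩
    · refine Or.inr ⟨p / (2 * P + 1) * (P + 1) + (p % (2 * P + 1) - P), ?_, ?_⟩
      · have h5 : (p / (2 * P + 1) + 1) * (P + 1) ≤ N * (P + 1) := Nat.mul_le_mul_right _ h1
        rw [add_mul] at h5
        omega
      · rw [leaf_code (by omega)]
        omega

/-- Reduction of a bad script of the cubic digraph. -/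
theorem bad_of_cub (hN : 1 ≤ N) (hP : P + 1 = 2 ^ H) (hH : 1 ≤ H) (hk : k < 2 ^ H) {K : ℕ}
    (h : Bad (N * (2 * P + 1) + 1) (cub N P tg) (N * (2 * P + 1)) K (cc P k)) :
    Bad (N + 1) (ua N (P + 1) tg) N K (c0 k) := by
  obtain ⟨g, hgs, ⟨v0, hv0, hgv0⟩, hgK, hg⟩ := h
  have hP1 : 1 ≤ P := by
    have : 2 ^ 1 ≤ 2 ^ H := Nat.pow_le_pow_right (by norm_num) hH
    omega
  set G : ℕ → ℕ := fun u => if u < N then (range (P + 1)).sup (fun i => g (par P (u * (P + 1) + i)))
    else 0 with hG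
  have hGle : ∀ u < N, ∀ i < P + 1, g (par P (u * (P + 1) + i)) ≤ G u := by
    intro u hu i hi
    rw [hG]
    simp only [hu, if_true]
    exact Finset.le_sup (f := fun i => g (par P (u * (P + 1) + i))) (Finset.mem_range.2 hi)
  have hGex : ∀ u < N, ∃ i < P + 1, G u = g (par P (u * (P + 1) + i)) := by
    intro u hu
    obtain ⟨i, hi, h⟩ := Finset.exists_mem_eq_sup (range (P + 1)) ⟨0, by simp⟩
      (fun i => g (par P (u * (P + 1) + i)))
    refine ⟨i, Finset.mem_range.1 hi, ?_⟩
    rw [hG]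
    simp only [hu, if_true]
    exact h
  have hleaf : ∀ b < N * (P + 1), (g (leaf P b) : ℤ) - PF N P tg (fun u => (g u : ℤ)) b ≤
      g (par P b) := by
    intro b hb
    have h1 := hg (leaf P b) (by have := leaf_lt hb; omega)
    rw [lap_cub_leaf hP1 _ hb, cc_leaf hP hk] at h1
    linarith
  have hLF : ∀ v, LF N P tg (fun u => (g u : ℤ)) v ≤ ∑ u ∈ range N, ∑ i ∈ range (P + 1),
      (if tg u i = v then (G u : ℤ) else 0) := by
    intro v
    rw [LF_eq, sum_range_mul]
    refine Finset.sum_le_sum fun u hu => Finset.sum_le_sum fun i hi => ?_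
    have hu' := Finset.mem_range.1 hu
    have hi' := Finset.mem_range.1 hi
    rw [ta_code hi']
    split_ifs
    · have h1 := hleaf (u * (P + 1) + i) (by
        have h5 : (u + 1) * (P + 1) ≤ N * (P + 1) := Nat.mul_le_mul_right _ hu'
        rw [add_mul] at h5
        omega)
      have h2 := hGle u hu' i hi'
      have h3 : (g (par P (u * (P + 1) + i)) : ℤ) ≤ G u := by exact_mod_cast h2
      exact h1.trans h3
    · exact le_rfl
  have htree : ∀ u < N, ∀ t < P, 2 ^ (Nat.log 2 (t + 1) + 1) * (g (u * (2 * P + 1) + t) : ℤ) ≤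
      ((ku k u % 2 ^ (Nat.log 2 (t + 1) + 1) : ℕ) : ℤ) + LF N P tg (fun u => (g u : ℤ)) u := by
    intro u hu
    exact tree_le (fun u => (g u : ℤ)) hu (fun t ht => hg _ (by
      have := code_lt (N := N) (P := P) hu (show t < 2 * P + 1 by omega)
      omega))
  refine ⟨G, by simp [hG], ?_, ?_, ?_⟩
  · -- not all values vanish
    by_contra hcon
    push Not at hcon
    have h1 : ∀ b < N * (P + 1), g (par P b) = 0 := by
      intro b hb
      have h2 : b / (P + 1) < N := Nat.div_lt_of_lt_mul (by rwa [mul_comm])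
      have h3 := Nat.mod_lt b (show 0 < P + 1 by omega)
      have h4 := hGle _ h2 _ h3
      rw [hcon _ (by omega)] at h4
      have h5 : b / (P + 1) * (P + 1) + b % (P + 1) = b := by
        rw [mul_comm]
        exact Nat.div_add_mod b (P + 1)
      rw [h5] at h4
      omega
    have h2 : ∀ b, b < N * (P + 1) → g (leaf P b) = 0 := by
      intro b
      induction b using Nat.strong_induction_on with
      | _ b ih =>
        intro hb
        have h3 := hleaf b hb
        rw [h1 b hb] at h3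
        have h4 : PF N P tg (fun u => (g u : ℤ)) b = 0 := by
          unfold PF
          refine Finset.sum_eq_zero fun a ha => ?_
          split_ifs with hn
          · have := ih a (next_some hn).2.1 (Finset.mem_range.1 ha)
            simp [this]
          · rfl
        rw [h4] at h3
        push_cast at h3
        omega
    have h3 : ∀ v, LF N P tg (fun u => (g u : ℤ)) v = 0 := by
      intro v
      unfold LF
      refine Finset.sum_eq_zero fun a ha => ?_
      have h4 := h2 a (Finset.mem_range.1 ha)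
      simp [h4]
    rcases code_cases hv0 with rfl | ⟨u, hu, t, ht, rfl⟩ | ⟨b, hb, rfl⟩
    · exact hgv0 hgs
    · have h4 := htree u hu t ht
      rw [h3, add_zero] at h4
      have h5 : ku k u % 2 ^ (Nat.log 2 (t + 1) + 1) < 2 ^ (Nat.log 2 (t + 1) + 1) :=
        Nat.mod_lt _ (by positivity)
      have h6 : 2 ^ (Nat.log 2 (t + 1) + 1) * g (u * (2 * P + 1) + t) <
          2 ^ (Nat.log 2 (t + 1) + 1) * 1 := by
        rw [mul_one]
        have : 2 ^ (Nat.log 2 (t + 1) + 1) * g (u * (2 * P + 1) + t) ≤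
            ku k u % 2 ^ (Nat.log 2 (t + 1) + 1) := by exact_mod_cast h4
        omega
      have h7 := Nat.lt_of_mul_lt_mul_left h6
      omega
    · exact hgv0 (h2 b hb)
  · intro v _
    by_cases hv : v < N
    · obtain ⟨i, hi, h⟩ := hGex v hv
      rw [h]
      refine hgK _ ?_
      rw [par_code hi]
      have := code_lt (N := N) (P := P) hv (show (P + i - 1) / 2 < 2 * P + 1 by omega)
      omega
    · simp [hG, hv]
  · intro v hv
    rw [lap_ua]
    have h1 := hLF v
    by_cases hvN : v < N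
    · obtain ⟨i, hi, h2⟩ := hGex v hvN
      have h3 := htree v hvN ((P + i - 1) / 2) (by omega)
      rw [log_par hP hH hi, ← par_code hi, ← h2, Nat.mod_eq_of_lt (ku_lt hk v)] at h3
      have h4 : ((ku k v : ℕ) : ℤ) = c0 k v := by
        unfold ku c0
        split_ifs <;> rfl
      have h5 : (((P + 1 : ℕ)) : ℤ) = 2 ^ H := by exact_mod_cast hP
      rw [if_pos hvN, h5]
      rw [h4] at h3
      linarith
    · rw [if_neg hvN]
      have h6 : (0 : ℤ) ≤ ∑ u ∈ range N, ∑ i ∈ range (P + 1), (if tg u i = v then (G u : ℤ) else 0) :=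
        Finset.sum_nonneg fun u _ => Finset.sum_nonneg fun i _ => by split_ifs <;> positivity
      have h7 : (0 : ℤ) ≤ c0 k v := by
        unfold c0
        split_ifs <;> positivity
      linarith

end

end Pool.Agent.Y403.CF
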