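import Pool.Agent.Y403.CF.Cub2

/-!
# Bad scripts of the cubic digraph, the converse; the kernel
-/

namespace Pool.Agent.Y403.CF

open Finset Pool.Agent.H577R2

/-- The number of firings of the vertices of the arcs. -/
def XX (G : ℕ → ℕ) (nxt : ℕ → Option ℕ) (b : ℕ) : ℕ :=
  G b + ∑ a : Fin b, if nxt a = some b then XX G nxt a else 0
termination_by b
decreasing_by exact a.2

theorem XX_eq (G : ℕ → ℕ) (nxt : ℕ → Option ℕ) (b : ℕ) :
    XX G nxt b = G b + ∑ a ∈ range b, if nxt a = some b then XX G nxt a else 0 := by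
  rw [XX, Finset.sum_range (f := fun a => if nxt a = some b then XX G nxt a else 0)]

theorem XX_le (G : ℕ → ℕ) (nxt : ℕ → Option ℕ) (B : ℕ) (hG : ∀ b, G b ≤ B) (b : ℕ) :
    XX G nxt b ≤ 2 ^ b * B := by
  induction b using Nat.strong_induction_on with
  | _ b ih =>
    rw [XX_eq]
    have h1 : ∑ a ∈ range b, (if nxt a = some b then XX G nxt a else 0) ≤
        ∑ a ∈ range b, 2 ^ a * B := by
      refine Finset.sum_le_sum fun a ha => ?_
      split_ifs
      · exact ih a (Finset.mem_range.1 ha)
      · exact Nat.zero_le _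
    rw [← Finset.sum_mul] at h1
    have h2 : ∑ a ∈ range b, 2 ^ a + 1 = 2 ^ b := by
      clear ih h1
      induction b with
      | zero => simp
      | succ b ih => rw [Finset.sum_range_succ, pow_succ]; omega
    have h3 := hG b
    rw [← h2, add_mul, one_mul]
    omega

section

variable {N H P k : ℕ} {tg : ℕ → ℕ → ℕ}

/-- The script of the cubic digraph. -/
def gg (N H P k : ℕ) (tg : ℕ → ℕ → ℕ) (G : ℕ → ℕ) (p : ℕ) : ℕ :=
  if p < N * (2 * P + 1) then
    (if p % (2 * P + 1) < P then 2 ^ (H - 1 - Nat.log 2 (p % (2 * P + 1) + 1)) *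
        G (p / (2 * P + 1)) - ku k (p / (2 * P + 1)) / 2 ^ (Nat.log 2 (p % (2 * P + 1) + 1) + 1)
      else XX (fun b => G (b / (P + 1))) (next N P tg)
        (p / (2 * P + 1) * (P + 1) + (p % (2 * P + 1) - P)))
  else 0

theorem gg_int (G : ℕ → ℕ) {u t : ℕ} (hu : u < N) (ht : t < P) :
    gg N H P k tg G (u * (2 * P + 1) + t) = 2 ^ (H - 1 - Nat.log 2 (t + 1)) * G u -
      ku k u / 2 ^ (Nat.log 2 (t + 1) + 1) := by
  unfold gg
  have h1 : (u * (2 * P + 1) + t) / (2 * P + 1) = u := by
    rw [mul_comm, Nat.mul_add_div (by omega), Nat.div_eq_of_lt (by omega), add_zero]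
  have h2 : (u * (2 * P + 1) + t) % (2 * P + 1) = t := by
    rw [mul_comm, Nat.mul_add_mod, Nat.mod_eq_of_lt (by omega)]
  rw [if_pos (code_lt hu (by omega)), h1, h2, if_pos ht]

theorem gg_leaf (G : ℕ → ℕ) {b : ℕ} (hb : b < N * (P + 1)) :
    gg N H P k tg G (leaf P b) = XX (fun b => G (b / (P + 1))) (next N P tg) b := by
  unfold gg
  have h0 := Nat.mod_lt b (show 0 < P + 1 by omega)
  have h1 : leaf P b / (2 * P + 1) = b / (P + 1) := by
    unfold leaf
    have h' : (P + b % (P + 1)) / (2 * P + 1) = 0 := Nat.div_eq_of_lt (by omega)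
    rw [mul_comm (b / (P + 1)), Nat.mul_add_div (by omega), h', add_zero]
  have h2 : leaf P b % (2 * P + 1) = P + b % (P + 1) := by
    unfold leaf
    rw [mul_comm (b / (P + 1)), Nat.mul_add_mod, Nat.mod_eq_of_lt (by omega)]
  rw [if_pos (leaf_lt hb), h1, h2, if_neg (by omega)]
  congr 1
  rw [Nat.add_sub_cancel_left, mul_comm]
  exact Nat.div_add_mod b (P + 1)

theorem gg_sink (G : ℕ → ℕ) : gg N H P k tg G (N * (2 * P + 1)) = 0 := by
  unfold gg
  rw [if_neg (by omega)]

theorem ku_div_lt (hk : k < 2 ^ H) (u d : ℕ) (hd : d < H) :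
    ku k u / 2 ^ (d + 1) < 2 ^ (H - 1 - d) := by
  rw [Nat.div_lt_iff_lt_mul (by positivity), ← pow_add, show H - 1 - d + (d + 1) = H by omega]
  exact ku_lt hk u

theorem gg_par (hP : P + 1 = 2 ^ H) (hH : 1 ≤ H) (hk : k < 2 ^ H) (G : ℕ → ℕ) {b : ℕ}
    (hb : b < N * (P + 1)) : (gg N H P k tg G (par P b) : ℤ) = G (b / (P + 1)) := by
  have h2 : b / (P + 1) < N := Nat.div_lt_of_lt_mul (by rwa [mul_comm])
  have h3 := Nat.mod_lt b (show 0 < P + 1 by omega)
  have hP1 : 1 ≤ P := by
    have : 2 ^ 1 ≤ 2 ^ H := Nat.pow_le_pow_right (by norm_num) hH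
    omega
  unfold par
  rw [gg_int G h2 (by omega)]
  have h4 := log_par hP hH h3
  rw [h4, Nat.div_eq_of_lt (ku_lt hk _), show H - 1 - Nat.log 2 ((P + b % (P + 1) - 1) / 2 + 1) =
    0 by omega]
  simp

theorem gg_PF (G : ℕ → ℕ) {b : ℕ} (hb : b < N * (P + 1)) :
    (gg N H P k tg G (leaf P b) : ℤ) - PF N P tg (fun u => (gg N H P k tg G u : ℤ)) b =
      G (b / (P + 1)) := by
  have h2 : PF N P tg (fun u => (gg N H P k tg G u : ℤ)) b = ((∑ a ∈ range b,
      if next N P tg a = some b then XX (fun b => G (b / (P + 1))) (next N P tg) a else 0 : ℕ) :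
        ℤ) := by
    unfold PF
    obtain ⟨d, hd⟩ := Nat.exists_eq_add_of_le hb.le
    rw [hd, Finset.sum_range_add, Finset.sum_eq_zero (s := range d), add_zero]
    · push_cast
      refine Finset.sum_congr rfl fun a ha => ?_
      have ha' := Finset.mem_range.1 ha
      rw [gg_leaf G (by omega)]
    · intro a _
      rw [if_neg]
      intro hn
      have := (next_some hn).2.1
      omega
  rw [h2, gg_leaf G hb]
  rw [XX_eq]
  push_cast
  ring

theorem gg_LF (G : ℕ → ℕ) (v : ℕ) : LF N P tg (fun u => (gg N H P k tg G u : ℤ)) v =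
    ∑ u ∈ range N, ∑ i ∈ range (P + 1), (if tg u i = v then (G u : ℤ) else 0) := by
  rw [LF_eq, sum_range_mul]
  refine Finset.sum_congr rfl fun u hu => Finset.sum_congr rfl fun i hi => ?_
  have hu' := Finset.mem_range.1 hu
  have hi' := Finset.mem_range.1 hi
  have h3 : u * (P + 1) + i < N * (P + 1) := by
    have h5 : (u + 1) * (P + 1) ≤ N * (P + 1) := Nat.mul_le_mul_right _ hu'
    rw [add_mul] at h5
    omega
  rw [ta_code hi', gg_PF _ h3, div_code hi']

/-- A potential of the cubic digraph from one of the digraph. -/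
theorem pot_cub (hP : P + 1 = 2 ^ H) (hH : 1 ≤ H) (hN : 1 ≤ N) (q : ℤ) {G : ℕ → ℕ}
    (h1 : ∀ v < N, 1 ≤ G v)
    (hG : ∀ v < N + 1, lap (ua N (P + 1) tg) (fun u => (G u : ℤ)) v =
      if v = 0 then q else if v = N then -q else 0) :
    ∃ F : ℕ → ℕ, F (N * (2 * P + 1)) = 0 ∧ (∀ p < N * (2 * P + 1), 1 ≤ F p) ∧
      ∀ p < N * (2 * P + 1) + 1, lap (cub N P tg) (fun u => (F u : ℤ)) p =
        if p = 0 then q else if p = N * (2 * P + 1) then -q else 0 := by
  have hP1 : 1 ≤ P := by
    have : 2 ^ 1 ≤ 2 ^ H := Nat.pow_le_pow_right (by norm_num) hH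
    omega
  have hk : 0 < 2 ^ H := by positivity
  have hku : ∀ u, ku 0 u = 0 := by
    intro u
    unfold ku
    simp
  have hint : ∀ u < N, ∀ t < P, gg N H P 0 tg G (u * (2 * P + 1) + t) =
      2 ^ (H - 1 - Nat.log 2 (t + 1)) * G u := by
    intro u hu t ht
    rw [gg_int G hu ht, hku, Nat.zero_div, Nat.sub_zero]
  refine ⟨gg N H P 0 tg G, gg_sink G, ?_, ?_⟩
  · intro p hp
    rcases code_cases (show p < N * (2 * P + 1) + 1 by omega) with rfl | ⟨u, hu, t, ht, rfl⟩ |
      ⟨b, hb, rfl⟩
    · omega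
    · rw [hint u hu t ht]
      exact Nat.mul_pos (by positivity) (h1 u hu)
    · rw [gg_leaf G hb, XX_eq]
      have h2 : b / (P + 1) < N := Nat.div_lt_of_lt_mul (by rwa [mul_comm])
      have := h1 _ h2
      omega
  · intro p hp
    have hNW : 1 * (2 * P + 1) ≤ N * (2 * P + 1) := Nat.mul_le_mul_right _ hN
    rcases code_cases hp with rfl | ⟨u, hu, t, ht, rfl⟩ | ⟨b, hb, rfl⟩
    · rw [lap_cub_sink hP1, gg_LF, if_neg (by omega), if_pos rfl]
      have h2 := hG N (by omega)
      rw [lap_ua, if_neg (by omega), if_neg (by omega), if_pos rfl] at h2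
      linarith
    · have hlt := code_lt (N := N) (P := P) hu (show t < 2 * P + 1 by omega)
      rw [lap_cub_int _ hu ht, hint u hu t ht]
      by_cases ht0 : t = 0
      · subst ht0
        rw [if_pos rfl, gg_LF]
        have h2 := hG u (by omega)
        rw [lap_ua, if_pos hu] at h2
        have h4 : (((P + 1 : ℕ)) : ℤ) = 2 * 2 ^ (H - 1) := by
          rw [← pow_succ', show H - 1 + 1 = H by omega]
          exact_mod_cast hP
        have h5 : ∀ z : ℤ, (if u * (2 * P + 1) + 0 = 0 then q else
            if u * (2 * P + 1) + 0 = N * (2 * P + 1) then z else 0) =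
            if u = 0 then q else if u = N then z else 0 := by
          intro z
          by_cases h6 : u = 0
          · subst h6
            simp
          · have h7 : 0 < u * (2 * P + 1) := Nat.mul_pos (by omega) (by omega)
            rw [if_neg (by omega), if_neg (by omega), if_neg h6, if_neg (by omega)]
        rw [h5, ← h2, h4]
        push_cast
        simp only [zero_add, Nat.log_one_right, Nat.sub_zero]
        ring
      · rw [if_neg ht0, hint u hu _ (by omega), if_neg (by omega), if_neg (by omega)]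
        have h2 := log_half ht0
        have h3 := log_int hP ht
        set d := Nat.log 2 ((t - 1) / 2 + 1) with hd
        rw [h2] at h3 ⊢
        have h4 : (2 : ℤ) ^ (H - 1 - d) = 2 * 2 ^ (H - 1 - (d + 1)) := by
          rw [← pow_succ', show H - 1 - (d + 1) + 1 = H - 1 - d by omega]
        push_cast
        rw [h4]
        ring
    · have h0 : leaf P b ≠ 0 := by
        unfold leaf
        omega
      have hlt := leaf_lt hb
      rw [lap_cub_leaf hP1 _ hb, if_neg h0, if_neg (by omega), gg_par hP hH hk G hb]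
      have h2 := gg_PF (H := H) (k := 0) (tg := tg) G hb
      linarith

/-- Bad scripts of the cubic digraph from those of the digraph. -/
theorem cub_of_bad (hN : 1 ≤ N) (hP : P + 1 = 2 ^ H) (hH : 1 ≤ H) (hk : k < 2 ^ H) {G : ℕ → ℕ}
    {B K : ℕ} (h0 : G N = 0) (h1 : 1 ≤ G 0) (hB : ∀ v < N + 1, G v ≤ B)
    (hG : ∀ v < N + 1, lap (ua N (P + 1) tg) (fun u => (G u : ℤ)) v ≤ c0 k v)
    (hK : 2 ^ (N * (P + 1) + H) * B ≤ K) :
    Bad (N * (2 * P + 1) + 1) (cub N P tg) (N * (2 * P + 1)) K (cc P k) := by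
  have hP1 : 1 ≤ P := by
    have : 2 ^ 1 ≤ 2 ^ H := Nat.pow_le_pow_right (by norm_num) hH
    omega
  -- positivity of the values
  have hval : ∀ u < N, ∀ t < P, ku k u / 2 ^ (Nat.log 2 (t + 1) + 1) ≤
      2 ^ (H - 1 - Nat.log 2 (t + 1)) * G u := by
    intro u hu t ht
    by_cases hu0 : u = 0
    · subst hu0
      have h2 := ku_div_lt hk 0 _ (log_int hP ht)
      calc ku k 0 / 2 ^ (Nat.log 2 (t + 1) + 1) ≤ 2 ^ (H - 1 - Nat.log 2 (t + 1)) * 1 := by
            omega
        _ ≤ _ := Nat.mul_le_mul_left _ h1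
    · unfold ku
      rw [if_neg hu0, Nat.zero_div]
      exact Nat.zero_le _
  have hintz : ∀ u < N, ∀ t < P, (gg N H P k tg G (u * (2 * P + 1) + t) : ℤ) =
      2 ^ (H - 1 - Nat.log 2 (t + 1)) * (G u : ℤ) -
        ((ku k u / 2 ^ (Nat.log 2 (t + 1) + 1) : ℕ) : ℤ) := by
    intro u hu t ht
    rw [gg_int G hu ht, Nat.cast_sub (hval u hu t ht)]
    push_cast
    rfl
  have hpar : ∀ b < N * (P + 1), (gg N H P k tg G (par P b) : ℤ) = G (b / (P + 1)) := by
    intro b hb
    have h2 : b / (P + 1) < N := Nat.div_lt_of_lt_mul (by rwa [mul_comm])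
    have h3 := Nat.mod_lt b (show 0 < P + 1 by omega)
    unfold par
    rw [hintz _ h2 _ (by omega)]
    have h4 := log_par hP hH h3
    rw [h4, Nat.div_eq_of_lt (ku_lt hk _), show H - 1 - Nat.log 2 ((P + b % (P + 1) - 1) / 2 + 1) =
      0 by omega]
    simp
  have hleaf : ∀ b < N * (P + 1), (gg N H P k tg G (leaf P b) : ℤ) -
      PF N P tg (fun u => (gg N H P k tg G u : ℤ)) b = G (b / (P + 1)) := by
    intro b hb
    have h2 : PF N P tg (fun u => (gg N H P k tg G u : ℤ)) b = ((∑ a ∈ range b,
        if next N P tg a = some b then XX (fun b => G (b / (P + 1))) (next N P tg) a else 0 : ℕ) :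
          ℤ) := by
      unfold PF
      obtain ⟨d, hd⟩ := Nat.exists_eq_add_of_le hb.le
      rw [hd, Finset.sum_range_add, Finset.sum_eq_zero (s := range d), add_zero]
      · push_cast
        refine Finset.sum_congr rfl fun a ha => ?_
        have ha' := Finset.mem_range.1 ha
        rw [gg_leaf G (by omega)]
      · intro a _
        rw [if_neg]
        intro hn
        have := (next_some hn).2.1
        omega
    rw [h2, gg_leaf G hb]
    rw [XX_eq]
    push_cast
    ring
  have hLF : ∀ v, LF N P tg (fun u => (gg N H P k tg G u : ℤ)) v =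
      ∑ u ∈ range N, ∑ i ∈ range (P + 1), (if tg u i = v then (G u : ℤ) else 0) := by
    intro v
    rw [LF_eq, sum_range_mul]
    refine Finset.sum_congr rfl fun u hu => Finset.sum_congr rfl fun i hi => ?_
    have hu' := Finset.mem_range.1 hu
    have hi' := Finset.mem_range.1 hi
    have h3 : u * (P + 1) + i < N * (P + 1) := by
      have h5 : (u + 1) * (P + 1) ≤ N * (P + 1) := Nat.mul_le_mul_right _ hu'
      rw [add_mul] at h5
      omega
    rw [ta_code hi', hleaf _ h3, div_code hi']
  refine ⟨gg N H P k tg G, gg_sink G, ?_, ?_, ?_⟩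
  · have hM : 0 < N * (P + 1) := Nat.mul_pos hN (by omega)
    refine ⟨leaf P 0, by have := leaf_lt hM; omega, ?_⟩
    rw [gg_leaf G hM, XX_eq]
    simp
    omega
  · intro v hv
    have hB' : ∀ u < N, G u ≤ B := fun u hu => hB u (by omega)
    rcases code_cases hv with rfl | ⟨u, hu, t, ht, rfl⟩ | ⟨b, hb, rfl⟩
    · rw [gg_sink]
      exact Nat.zero_le _
    · rw [gg_int G hu ht]
      refine (Nat.sub_le _ _).trans (le_trans ?_ hK)
      refine Nat.mul_le_mul (Nat.pow_le_pow_right (by norm_num) ?_) (hB' u hu)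
      omega
    · rw [gg_leaf G hb]
      refine le_trans ?_ hK
      -- truncate
      have h2 : ∀ b, XX (fun b => G (b / (P + 1))) (next N P tg) b =
          XX (fun b => G (b / (P + 1))) (next N P tg) b := fun _ => rfl
      have h3 : ∀ b, b < N * (P + 1) → XX (fun b => G (b / (P + 1))) (next N P tg) b ≤ 2 ^ b * B := by
        intro b
        induction b using Nat.strong_induction_on with
        | _ b ih =>
          intro hb
          rw [XX_eq]
          have h1 : ∑ a ∈ range b, (if next N P tg a = some b then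
              XX (fun b => G (b / (P + 1))) (next N P tg) a else 0) ≤ ∑ a ∈ range b, 2 ^ a * B := by
            refine Finset.sum_le_sum fun a ha => ?_
            have ha' := Finset.mem_range.1 ha
            split_ifs
            · exact ih a ha' (by omega)
            · exact Nat.zero_le _
          rw [← Finset.sum_mul] at h1
          have h2 : ∑ a ∈ range b, 2 ^ a + 1 = 2 ^ b := by
            clear ih h1 hb
            induction b with
            | zero => simp
            | succ b ih => rw [Finset.sum_range_succ, pow_succ]; omega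
          have h3 := hB' (b / (P + 1)) (Nat.div_lt_of_lt_mul (by rwa [mul_comm]))
          rw [← h2, add_mul, one_mul]
          omega
      refine (h3 b hb).trans (Nat.mul_le_mul_right _ (Nat.pow_le_pow_right (by norm_num) ?_))
      omega
  · intro v hv
    rcases code_cases hv with rfl | ⟨u, hu, t, ht, rfl⟩ | ⟨b, hb, rfl⟩
    · rw [lap_cub_sink hP1, cc_sink hN, hLF]
      have h6 : (0 : ℤ) ≤ ∑ u ∈ range N, ∑ i ∈ range (P + 1), (if tg u i = N then (G u : ℤ) else 0) :=
        Finset.sum_nonneg fun u _ => Finset.sum_nonneg fun i _ => by split_ifs <;> positivity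
      linarith
    · rw [lap_cub_int _ hu ht, cc_code (by omega), hintz u hu t ht]
      by_cases ht0 : t = 0
      · subst ht0
        rw [if_pos rfl, hLF]
        have h2 := hG u (by omega)
        rw [lap_ua, if_pos hu] at h2
        have h3 : c0 k u = ((ku k u : ℕ) : ℤ) := by
          unfold ku c0
          split_ifs <;> rfl
        have h4 : (((P + 1 : ℕ)) : ℤ) = 2 * 2 ^ (H - 1) := by
          rw [← pow_succ', show H - 1 + 1 = H by omega]
          exact_mod_cast hP
        rw [h3, h4] at h2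
        simp only [zero_add, Nat.log_one_right, pow_zero, Nat.div_one, pow_one, Nat.sub_zero]
        have h5 : ((ku k u : ℕ) : ℤ) = 2 * ((ku k u / 2 : ℕ) : ℤ) + ((ku k u % 2 : ℕ) : ℤ) := by
          exact_mod_cast (Nat.div_add_mod (ku k u) 2).symm
        linarith
      · rw [if_neg ht0, hintz u hu _ (by omega)]
        have h2 := log_half ht0
        have h3 := log_int hP ht
        set d := Nat.log 2 ((t - 1) / 2 + 1) with hd
        rw [h2] at h3 ⊢
        have h4 : (2 : ℤ) ^ (H - 1 - d) = 2 * 2 ^ (H - 1 - (d + 1)) := by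
          rw [← pow_succ', show H - 1 - (d + 1) + 1 = H - 1 - d by omega]
        have h5 : ((ku k u / 2 ^ (d + 1) : ℕ) : ℤ) = 2 * ((ku k u / 2 ^ (d + 1 + 1) : ℕ) : ℤ) +
            ((ku k u / 2 ^ (d + 1) % 2 : ℕ) : ℤ) := by
          rw [pow_succ 2 (d + 1), ← Nat.div_div_eq_div_mul]
          exact_mod_cast (Nat.div_add_mod (ku k u / 2 ^ (d + 1)) 2).symm
        rw [h4, h5]
        apply le_of_eq
        ring
    · rw [lap_cub_leaf hP1 _ hb, cc_leaf hP hk]
      have h2 := hleaf b hb
      have h3 := hpar b hb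
      linarith

/-- The kernel. -/
theorem ker_cub (hN : 1 ≤ N) (hP : P + 1 = 2 ^ H) (hH : 1 ≤ H) (hker : Ker0 (N + 1) (ua N (P + 1) tg) N) :
    Ker0 (N * (2 * P + 1) + 1) (cub N P tg) (N * (2 * P + 1)) := by
  have hP1 : 1 ≤ P := by
    have : 2 ^ 1 ≤ 2 ^ H := Nat.pow_le_pow_right (by norm_num) hH
    omega
  intro h hs hL
  obtain ⟨G, hG⟩ : ∃ G : ℕ → ℤ, ∀ u, G u = if u < N then h (par P (u * (P + 1))) else 0 :=
    ⟨_, fun _ => rfl⟩
  have htree : ∀ u < N, ∀ t < P, 2 ^ (Nat.log 2 (t + 1) + 1) * h (u * (2 * P + 1) + t) =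
      LF N P tg h u := fun u hu => tree_eq h hu (fun t ht => hL _ (by
        have := code_lt (N := N) (P := P) hu (show t < 2 * P + 1 by omega)
        omega))
  have hpar : ∀ u < N, ∀ i < P + 1, 2 ^ H * h (par P (u * (P + 1) + i)) = LF N P tg h u := by
    intro u hu i hi
    have h1 := htree u hu ((P + i - 1) / 2) (by omega)
    rw [log_par hP hH hi] at h1
    rw [par_code hi]
    exact h1
  have hparG : ∀ u < N, ∀ i < P + 1, h (par P (u * (P + 1) + i)) = G u := by
    intro u hu i hi
    have h1 := hpar u hu i hi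
    have h2 := hpar u hu 0 (by omega)
    rw [add_zero] at h2
    rw [hG, if_pos hu]
    have h3 : (2 : ℤ) ^ H ≠ 0 := by positivity
    exact mul_left_cancel₀ h3 (h1.trans h2.symm)
  have hleaf : ∀ b < N * (P + 1), h (leaf P b) - PF N P tg h b = h (par P b) := by
    intro b hb
    have h1 := hL (leaf P b) (by have := leaf_lt hb; omega)
    rw [lap_cub_leaf hP1 _ hb] at h1
    linarith
  have hLF : ∀ v, LF N P tg h v = ∑ u ∈ range N, ∑ i ∈ range (P + 1),
      (if tg u i = v then G u else 0) := by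
    intro v
    rw [LF_eq, sum_range_mul]
    refine Finset.sum_congr rfl fun u hu => Finset.sum_congr rfl fun i hi => ?_
    have hu' := Finset.mem_range.1 hu
    have hi' := Finset.mem_range.1 hi
    have h3 : u * (P + 1) + i < N * (P + 1) := by
      have h5 : (u + 1) * (P + 1) ≤ N * (P + 1) := Nat.mul_le_mul_right _ hu'
      rw [add_mul] at h5
      omega
    rw [ta_code hi', hleaf _ h3, hparG u hu' i hi']
  have hGz : ∀ v < N + 1, G v = 0 := by
    refine hker G (by rw [hG, if_neg (by omega)]) ?_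
    intro v hv
    rw [lap_ua, ← hLF]
    by_cases hvN : v < N
    · have h1 := hpar v hvN 0 (by omega)
      rw [hparG v hvN 0 (by omega)] at h1
      have h5 : (((P + 1 : ℕ)) : ℤ) = 2 ^ H := by exact_mod_cast hP
      rw [if_pos hvN, h5, h1, sub_self]
    · rw [if_neg hvN]
      have hvN' : v = N := by omega
      have h1 := hL (N * (2 * P + 1)) (by omega)
      rw [lap_cub_sink hP1] at h1
      rw [hvN']
      linarith
  have hpar0 : ∀ b < N * (P + 1), h (par P b) = 0 := by
    intro b hb
    have h2 : b / (P + 1) < N := Nat.div_lt_of_lt_mul (by rwa [mul_comm])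
    have h3 := Nat.mod_lt b (show 0 < P + 1 by omega)
    have h4 := hparG _ h2 _ h3
    have h5 : b / (P + 1) * (P + 1) + b % (P + 1) = b := by
      rw [mul_comm]
      exact Nat.div_add_mod b (P + 1)
    rw [h5, hGz _ (by omega)] at h4
    exact h4
  have hleaf0 : ∀ b, b < N * (P + 1) → h (leaf P b) = 0 := by
    intro b
    induction b using Nat.strong_induction_on with
    | _ b ih =>
      intro hb
      have h3 := hleaf b hb
      rw [hpar0 b hb] at h3
      have h4 : PF N P tg h b = 0 := by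
        unfold PF
        refine Finset.sum_eq_zero fun a ha => ?_
        split_ifs with hn
        · exact ih a (next_some hn).2.1 (Finset.mem_range.1 ha)
        · rfl
      rw [h4] at h3
      linarith
  have hLF0 : ∀ v, LF N P tg h v = 0 := by
    intro v
    unfold LF
    refine Finset.sum_eq_zero fun a ha => ?_
    have h4 := hleaf0 a (Finset.mem_range.1 ha)
    simp [h4]
  intro v hv
  rcases code_cases hv with rfl | ⟨u, hu, t, ht, rfl⟩ | ⟨b, hb, rfl⟩
  · exact hs
  · have h1 := htree u hu t ht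
    rw [hLF0] at h1
    rcases mul_eq_zero.1 h1 with h2 | h2
    · exact absurd h2 (by positivity)
    · exact h2
  · exact hleaf0 b hb

end

end Pool.Agent.Y403.CF
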