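import Pool.Agent.H577R2.ChipList

/-!
# Arcs leaving a vertex which ends with a negative number of chips
-/

namespace Pool.Agent.Y403.CF

open Finset Pool.Agent.H577R2

section

variable {V : Type} [Fintype V] [DecidableEq V]

theorem reach_nonneg (m : V → V → ℕ) (s : V) {x y : V → ℤ} (h : Reach m x y) (hx : 0 ≤ x s) :
    0 ≤ y s := by
  induction h with
  | refl => exact hx
  | @tail b c _ h2 ih =>
    obtain ⟨v, hv, rfl⟩ := h2
    by_cases hvs : v = s
    · subst hvs
      exact hv
    · have hsv : s ≠ v := fun h => hvs h.symm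
      unfold fire
      rw [if_neg hsv]
      have : (0 : ℤ) ≤ m v s := by positivity
      linarith

theorem reach_mono (m m' : V → V → ℕ) (s : V) (hm : ∀ v, v ≠ s → m v = m' v) {x y : V → ℤ}
    (hy : y s < 0) (h : Reach m x y) : Reach m' x y := by
  induction h using Relation.ReflTransGen.head_induction_on with
  | refl => exact Relation.ReflTransGen.refl
  | @head x x1 h1 h2 ih =>
    obtain ⟨v, hv, rfl⟩ := h1
    by_cases hvs : v = s
    · subst hvs
      have := reach_nonneg m v h2 hv
      omega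
    · have e : fire m x v = fire m' x v := by
        unfold fire
        rw [hm v hvs]
      rw [e] at hv ih
      exact Relation.ReflTransGen.head ⟨v, hv, rfl⟩ ih

end

theorem reach_cons {n : ℕ} {E : List (ℕ × ℕ)} {s t : ℕ} (hsn : s < n) (x y : Fin n → ℤ)
    (hy : y ⟨s, hsn⟩ < 0) : Reach (mul n ((s, t) :: E)) x y ↔ Reach (mul n E) x y := by
  have h : ∀ v : Fin n, v ≠ ⟨s, hsn⟩ → mul n ((s, t) :: E) v = mul n E v := by
    intro v hv
    have hv' : s ≠ (v : ℕ) := fun h => hv (Fin.ext h.symm)
    funext u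
    unfold mul
    rw [List.count_cons]
    simp [hv']
  exact ⟨reach_mono _ _ ⟨s, hsn⟩ h hy, reach_mono _ _ ⟨s, hsn⟩ (fun v hv => (h v hv).symm) hy⟩

/-- Out-degrees from the Laplacian. -/
theorem outdeg_of_lap {n : ℕ} {E : List (ℕ × ℕ)} (hE : Wf n E) (v : ℕ) :
    (outdeg E v : ℤ) = lap E (fun u => if u = v then 1 else 0) v := by
  rw [outdeg_eq]
  unfold lap
  induction E with
  | nil => simp
  | cons a E ih =>
    have h1 : Wf n E := fun b hb => hE b (List.mem_cons_of_mem _ hb)
    have h2 := hE a (by simp)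
    rw [List.map_cons, List.map_cons, List.sum_cons, List.sum_cons, ← ih h1]
    congr 1
    by_cases h3 : a.1 = v
    · have h4 : a.2 ≠ v := fun h => h2.2.2 (h3.trans h.symm)
      simp [h3, h4]
    · simp [h3]

/-- In-degrees from the Laplacian. -/
theorem indeg_of_lap {n : ℕ} {E : List (ℕ × ℕ)} (hE : Wf n E) (v : ℕ) :
    (indeg E v : ℤ) = - lap E (fun u => if u = v then 0 else 1) v := by
  rw [indeg_eq]
  unfold lap
  induction E with
  | nil => simp
  | cons a E ih =>
    have h1 : Wf n E := fun b hb => hE b (List.mem_cons_of_mem _ hb)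
    have h2 := hE a (by simp)
    rw [List.map_cons, List.map_cons, List.sum_cons, List.sum_cons, neg_add, ← ih h1]
    congr 1
    by_cases h3 : a.2 = v
    · have h4 : a.1 ≠ v := fun h => h2.2.2 (h.trans h3.symm)
      simp [h3, h4]
    · simp [h3]

theorem outdeg_cons (a : ℕ × ℕ) (E : List (ℕ × ℕ)) (v : ℕ) :
    outdeg (a :: E) v = outdeg E v + if a.1 = v then 1 else 0 := by
  unfold outdeg
  rw [List.filter_cons]
  split_ifs <;> simp_all

theorem indeg_cons (a : ℕ × ℕ) (E : List (ℕ × ℕ)) (v : ℕ) :
    indeg (a :: E) v = indeg E v + if a.2 = v then 1 else 0 := by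
  unfold indeg
  rw [List.filter_cons]
  split_ifs <;> simp_all

end Pool.Agent.Y403.CF
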