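import Pool.Agent.Y403.CF.Cub3
import Pool.Agent.Y403.CF.Ext

/-!
# Degrees and connectivity of the cubic digraph
-/

namespace Pool.Agent.Y403.CF

open Finset Pool.Agent.H577R2

theorem sum_le_one (n : ℕ) (p : ℕ → Prop) [DecidablePred p] (x : ℕ → ℤ) (hx : ∀ a, x a ≤ 1)
    (h : ∀ a < n, ∀ b < n, p a → p b → a = b) : ∑ a ∈ range n, (if p a then x a else 0) ≤ 1 := by
  by_cases hex : ∃ a < n, p a
  · obtain ⟨a, ha, hpa⟩ := hex
    rw [Finset.sum_eq_single a]
    · rw [if_pos hpa]
      exact hx a
    · intro b hb hne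
      rw [if_neg]
      intro hpb
      exact hne (h b (Finset.mem_range.1 hb) a ha hpb hpa)
    · intro h
      exact absurd (Finset.mem_range.2 ha) h
  · push Not at hex
    rw [Finset.sum_eq_zero]
    · norm_num
    · intro a ha
      rw [if_neg (hex a (Finset.mem_range.1 ha))]

section

variable {N P : ℕ} {tg : ℕ → ℕ → ℕ}

theorem mem_ints {a : ℕ × ℕ} : a ∈ ints N P ↔ ∃ u < N, ∃ t < P,
    a = (u * (2 * P + 1) + t, u * (2 * P + 1) + (2 * t + 1)) ∨
      a = (u * (2 * P + 1) + t, u * (2 * P + 1) + (2 * t + 2)) := by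
  unfold ints
  simp only [List.mem_flatMap, List.mem_range, List.mem_cons, List.not_mem_nil, or_false]

theorem mem_lfs {a : ℕ × ℕ} : a ∈ lfs N P tg ↔ ∃ b < N * (P + 1), a = (leaf P b, nx N P tg b) := by
  unfold lfs
  simp only [List.mem_map, List.mem_range]
  constructor
  · rintro ⟨b, hb, rfl⟩
    exact ⟨b, hb, rfl⟩
  · rintro ⟨b, hb, rfl⟩
    exact ⟨b, hb, rfl⟩

theorem leaf_ne_root (hP : 1 ≤ P) (b v : ℕ) : leaf P b ≠ v * (2 * P + 1) := by
  unfold leaf
  have hb' := Nat.mod_lt b (show 0 < P + 1 by omega)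
  have := code_inj (W := 2 * P + 1) (u := b / (P + 1)) (u' := v) (t := P + b % (P + 1))
    (t' := 0) (by omega) (by omega)
  rw [add_zero] at this
  intro h
  have := (this.1 h).2
  omega

theorem leaf_ne_int {b u t : ℕ} (ht : t < P) : leaf P b ≠ u * (2 * P + 1) + t := by
  unfold leaf
  have hb' := Nat.mod_lt b (show 0 < P + 1 by omega)
  intro h
  have := ((code_inj (W := 2 * P + 1) (by omega) (by omega)).1 h).2
  omega

theorem wf_cub (hP : 1 ≤ P) (htg : ∀ u < N, ∀ i < P + 1, tg u i ≤ N) :
    Wf (N * (2 * P + 1) + 1) (cub N P tg) := by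
  intro a ha
  unfold cub at ha
  rw [List.mem_append] at ha
  rcases ha with ha | ha
  · obtain ⟨u, hu, t, ht, rfl | rfl⟩ := mem_ints.1 ha
    · have h1 := code_lt (N := N) (P := P) hu (show t < 2 * P + 1 by omega)
      have h2 := code_lt (N := N) (P := P) hu (show 2 * t + 1 < 2 * P + 1 by omega)
      refine ⟨by simp only; omega, by simp only; omega, by simp only; omega⟩
    · have h1 := code_lt (N := N) (P := P) hu (show t < 2 * P + 1 by omega)
      have h2 := code_lt (N := N) (P := P) hu (show 2 * t + 2 < 2 * P + 1 by omega)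
      refine ⟨by simp only; omega, by simp only; omega, by simp only; omega⟩
  · obtain ⟨b, hb, rfl⟩ := mem_lfs.1 ha
    have h1 := leaf_lt hb
    have h2 : b / (P + 1) < N := Nat.div_lt_of_lt_mul (by rwa [mul_comm])
    have h3 := Nat.mod_lt b (show 0 < P + 1 by omega)
    unfold nx
    cases hn : next N P tg b with
    | some c =>
      obtain ⟨h4, h5, -, -⟩ := next_some hn
      have h6 := leaf_lt h4
      simp only [Option.map_some, Option.getD_some]
      refine ⟨by omega, by omega, ?_⟩
      intro h
      have := leaf_inj.1 h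
      omega
    | none =>
      simp only [Option.map_none, Option.getD_none]
      have h4 : ta P tg b * (2 * P + 1) ≤ N * (2 * P + 1) :=
        Nat.mul_le_mul_right _ (htg _ h2 _ h3)
      exact ⟨by omega, by omega, leaf_ne_root hP _ _⟩

theorem cub_sink {a : ℕ × ℕ} (ha : a ∈ cub N P tg) : a.1 ≠ N * (2 * P + 1) := by
  unfold cub at ha
  rw [List.mem_append] at ha
  rcases ha with ha | ha
  · obtain ⟨u, hu, t, ht, rfl | rfl⟩ := mem_ints.1 ha
    · have h1 := code_lt (N := N) (P := P) hu (show t < 2 * P + 1 by omega)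
      simp only
      omega
    · have h1 := code_lt (N := N) (P := P) hu (show t < 2 * P + 1 by omega)
      simp only
      omega
  · obtain ⟨b, hb, rfl⟩ := mem_lfs.1 ha
    have h1 := leaf_lt hb
    simp only
    omega

/-- The final digraph: an arc leaves the sink. -/
def fin (N P : ℕ) (tg : ℕ → ℕ → ℕ) : List (ℕ × ℕ) :=
  (N * (2 * P + 1), leaf P 0) :: cub N P tg

theorem wf_fin (hN : 1 ≤ N) (hP : 1 ≤ P) (htg : ∀ u < N, ∀ i < P + 1, tg u i ≤ N) :
    Wf (N * (2 * P + 1) + 1) (fin N P tg) := by
  intro a ha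
  unfold fin at ha
  rw [List.mem_cons] at ha
  rcases ha with rfl | ha
  · have h1 : leaf P 0 < N * (2 * P + 1) := leaf_lt (Nat.mul_pos hN (by omega))
    exact ⟨by simp only; omega, by simp only; omega, by simp only; omega⟩
  · exact wf_cub hP htg a ha

theorem nodup_fin : (fin N P tg).Nodup := by
  unfold fin
  rw [List.nodup_cons]
  refine ⟨fun h => cub_sink h rfl, ?_⟩
  unfold cub
  rw [List.nodup_append]
  refine ⟨?_, ?_, ?_⟩
  · unfold ints
    rw [List.nodup_flatMap]
    refine ⟨?_, ?_⟩
    · intro u hu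
      rw [List.nodup_flatMap]
      refine ⟨?_, ?_⟩
      · intro t ht
        simp
      · refine (List.nodup_range (n := P)).imp_of_mem ?_
        intro i j hi hj hij
        simp only [Function.onFun, List.disjoint_cons_left, List.mem_cons, Prod.mk.injEq,
          List.not_mem_nil, or_false, List.disjoint_nil_left, and_true]
        omega
    · refine (List.nodup_range (n := N)).imp_of_mem ?_
      intro i j hi hj hij
      simp only [Function.onFun]
      intro a ha hb
      simp only [List.mem_flatMap, List.mem_range, List.mem_cons, List.not_mem_nil, or_false] at ha hb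
      obtain ⟨t, ht, ha⟩ := ha
      obtain ⟨t', ht', hb⟩ := hb
      have h1 : a.1 = i * (2 * P + 1) + t := by rcases ha with rfl | rfl <;> rfl
      have h2 : a.1 = j * (2 * P + 1) + t' := by rcases hb with rfl | rfl <;> rfl
      rw [h1] at h2
      exact hij ((code_inj (W := 2 * P + 1) (by omega) (by omega)).1 h2).1
  · unfold lfs
    refine List.Nodup.map ?_ List.nodup_range
    intro a b h
    simp only [Prod.mk.injEq] at h
    exact leaf_inj.1 h.1
  · intro a ha b hb hab
    obtain ⟨u, hu, t, ht, ha⟩ := mem_ints.1 ha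
    obtain ⟨c, hc, hb⟩ := mem_lfs.1 hb
    have h1 : a.1 = u * (2 * P + 1) + t := by rcases ha with rfl | rfl <;> rfl
    have h2 : b.1 = leaf P c := by rw [hb]
    rw [hab, h2] at h1
    exact leaf_ne_int ht h1

theorem LF_le_one (x : ℕ → ℤ) (hx : ∀ a, x a ≤ 1) (v : ℕ) : LF N P tg x v ≤ 1 := by
  unfold LF
  refine sum_le_one _ (fun a => next N P tg a = none ∧ ta P tg a = v) (fun a => x (leaf P a))
    (fun a => hx _) ?_
  rintro a ha b hb ⟨h1, h2⟩ ⟨h3, h4⟩
  rcases lt_trichotomy a b with h | h | h
  · exact absurd (h4.trans h2.symm) (next_none h1 b h hb)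
  · exact h
  · exact absurd (h2.trans h4.symm) (next_none h3 a h ha)

theorem PF_le_one (x : ℕ → ℤ) (hx : ∀ a, x a ≤ 1) (b : ℕ) : PF N P tg x b ≤ 1 := by
  unfold PF
  refine sum_le_one _ (fun a => next N P tg a = some b) (fun a => x (leaf P a))
    (fun a => hx _) ?_
  rintro a ha a' ha' h1 h2
  obtain ⟨-, h3, h4, h5⟩ := next_some h1
  obtain ⟨-, h6, h7, h8⟩ := next_some h2
  rcases lt_trichotomy a a' with h | h | h
  · exact absurd (h7.symm.trans h4) (h5 a' h h6)
  · exact h
  · exact absurd (h4.symm.trans h7) (h8 a h h3)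

theorem LF_nonneg (x : ℕ → ℤ) (hx : ∀ a, 0 ≤ x a) (v : ℕ) : 0 ≤ LF N P tg x v := by
  unfold LF
  refine Finset.sum_nonneg fun a _ => ?_
  split_ifs
  · exact hx _
  · exact le_rfl

theorem PF_nonneg (x : ℕ → ℤ) (hx : ∀ a, 0 ≤ x a) (b : ℕ) : 0 ≤ PF N P tg x b := by
  unfold PF
  refine Finset.sum_nonneg fun a _ => ?_
  split_ifs
  · exact hx _
  · exact le_rfl

/-- All vertices have total degree at most three. -/
theorem deg_fin (hN : 1 ≤ N) (hP : 1 ≤ P) (htg : ∀ u < N, ∀ i < P + 1, tg u i ≤ N) {v : ℕ}
    (hv : v < N * (2 * P + 1) + 1) : outdeg (fin N P tg) v + indeg (fin N P tg) v ≤ 3 := by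
  have hwf := wf_cub (N := N) hP htg
  have ho := outdeg_of_lap hwf v
  have hi := indeg_of_lap hwf v
  unfold fin
  rw [outdeg_cons, indeg_cons]
  have hM : 0 < N * (P + 1) := Nat.mul_pos hN (by omega)
  rcases code_cases hv with rfl | ⟨u, hu, t, ht, rfl⟩ | ⟨b, hb, rfl⟩
  · rw [lap_cub_sink hP] at ho hi
    have h1 := leaf_ne_root hP 0 N
    have h2 : 0 ≤ LF N P tg (fun u => if u = N * (2 * P + 1) then (1 : ℤ) else 0) N :=
      LF_nonneg _ (fun a => by split_ifs <;> norm_num) _
    have h3 := LF_le_one (N := N) (P := P) (tg := tg)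
      (fun u => if u = N * (2 * P + 1) then (0 : ℤ) else 1)
      (fun a => by split_ifs <;> norm_num) N
    simp only [if_true, h1, if_false]
    omega
  · rw [lap_cub_int _ hu ht] at ho hi
    have h1 := leaf_ne_int (b := 0) (u := u) ht
    have h2 : N * (2 * P + 1) ≠ u * (2 * P + 1) + t := by
      have := code_lt (N := N) (P := P) hu (show t < 2 * P + 1 by omega)
      omega
    rw [if_neg h1, if_neg h2]
    simp only [if_true] at ho hi
    by_cases h0 : t = 0
    · rw [if_pos h0] at ho hi
      have h3 : 0 ≤ LF N P tg (fun v => if v = u * (2 * P + 1) + t then (1 : ℤ) else 0) u :=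
        LF_nonneg _ (fun a => by split_ifs <;> norm_num) _
      have h4 := LF_le_one (N := N) (P := P) (tg := tg)
        (fun v => if v = u * (2 * P + 1) + t then (0 : ℤ) else 1)
        (fun a => by split_ifs <;> norm_num) u
      omega
    · rw [if_neg h0, if_neg (by omega)] at ho hi
      omega
  · rw [lap_cub_leaf hP _ hb] at ho hi
    have hbm := Nat.mod_lt b (show 0 < P + 1 by omega)
    have h1 : par P b ≠ leaf P b := by
      unfold par
      exact (leaf_ne_int (by omega)).symm
    have h2 : N * (2 * P + 1) ≠ leaf P b := (leaf_ne_root hP b N).symm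
    rw [if_neg h2]
    simp only [if_true, h1, if_false] at ho hi
    have h3 : 0 ≤ PF N P tg (fun v => if v = leaf P b then (1 : ℤ) else 0) b :=
      PF_nonneg _ (fun a => by split_ifs <;> norm_num) _
    have h4 := PF_le_one (N := N) (P := P) (tg := tg)
      (fun v => if v = leaf P b then (0 : ℤ) else 1)
      (fun a => by split_ifs <;> norm_num) b
    by_cases h5 : b = 0
    · have h6 : PF N P tg (fun v => if v = leaf P b then (0 : ℤ) else 1) b = 0 := by
        unfold PF
        refine Finset.sum_eq_zero fun a _ => ?_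
        rw [if_neg]
        intro hn
        have := (next_some hn).2.1
        omega
      rw [h5, if_pos rfl]
      rw [h5] at ho hi h6 h3
      omega
    · have h6 : ¬ (leaf P 0 = leaf P b) := fun h => h5 (leaf_inj.1 h).symm
      rw [if_neg h6]
      omega

/-! ### Strong connectivity -/

/-- Directed reachability. -/
abbrev Conn (E : List (ℕ × ℕ)) (a b : ℕ) : Prop := Relation.ReflTransGen (fun a b => (a, b) ∈ E) a b

theorem conn_root_node {u : ℕ} (hu : u < N) : ∀ t, t < 2 * P + 1 →
    Conn (fin N P tg) (u * (2 * P + 1)) (u * (2 * P + 1) + t) := by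
  intro t
  induction t using Nat.strong_induction_on with
  | _ t ih =>
    intro ht
    by_cases h0 : t = 0
    · subst h0
      exact Relation.ReflTransGen.refl
    · refine (ih ((t - 1) / 2) (by omega) (by omega)).tail ?_
      unfold fin cub
      refine List.mem_cons_of_mem _ (List.mem_append_left _ ?_)
      rw [mem_ints]
      refine ⟨u, hu, (t - 1) / 2, by omega, ?_⟩
      by_cases h1 : 2 * ((t - 1) / 2) + 1 = t
      · left
        rw [h1]
      · right
        rw [show 2 * ((t - 1) / 2) + 2 = t by omega]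

theorem conn_leaf {b : ℕ} (hb : b < N * (P + 1)) :
    Conn (fin N P tg) (leaf P b) (ta P tg b * (2 * P + 1)) := by
  suffices H : ∀ d b, b < N * (P + 1) → N * (P + 1) - b ≤ d →
      Conn (fin N P tg) (leaf P b) (ta P tg b * (2 * P + 1)) from H _ b hb le_rfl
  intro d
  induction d with
  | zero =>
    intro b hb hd
    omega
  | succ d ih =>
    intro b hb hd
    have hmem : (leaf P b, nx N P tg b) ∈ fin N P tg := by
      unfold fin cub
      exact List.mem_cons_of_mem _ (List.mem_append_right _ (mem_lfs.2 ⟨b, hb, rfl⟩))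
    refine Relation.ReflTransGen.head hmem ?_
    unfold nx
    cases hn : next N P tg b with
    | some c =>
      obtain ⟨h1, h2, h3, -⟩ := next_some hn
      simp only [Option.map_some, Option.getD_some]
      rw [← h3]
      exact ih c h1 (by omega)
    | none =>
      simp only [Option.map_none, Option.getD_none]
      exact Relation.ReflTransGen.refl

theorem conn_root_root {u i : ℕ} (hu : u < N) (hi : i < P + 1) :
    Conn (fin N P tg) (u * (2 * P + 1)) (tg u i * (2 * P + 1)) := by
  have h3 : u * (P + 1) + i < N * (P + 1) := by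
    have h5 : (u + 1) * (P + 1) ≤ N * (P + 1) := Nat.mul_le_mul_right _ hu
    rw [add_mul] at h5
    omega
  have h1 := conn_leaf (tg := tg) h3
  rw [ta_code hi, leaf_code hi] at h1
  exact (conn_root_node hu (P + i) (by omega)).trans h1

theorem conn_fwd (hf : ∀ u < N, tg u 0 = u + 1) {u v : ℕ} (huv : u ≤ v) (hv : v ≤ N) :
    Conn (fin N P tg) (u * (2 * P + 1)) (v * (2 * P + 1)) := by
  induction v with
  | zero =>
    have : u = 0 := by omega
    rw [this]
  | succ v ih =>
    by_cases h : u = v + 1
    · rw [h]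
    · have h1 := conn_root_root (P := P) (tg := tg) (u := v) (i := 0) (N := N) (by omega) (by omega)
      rw [hf v (by omega)] at h1
      exact (ih (by omega) (by omega)).trans h1

theorem conn_node {u t : ℕ} (hu : u < N) (ht : t < 2 * P + 1) (hf : ∀ u < N, tg u 0 = u + 1)
    (htg : ∀ u < N, ∀ i < P + 1, tg u i ≤ N) :
    Conn (fin N P tg) (u * (2 * P + 1) + t) (N * (2 * P + 1)) := by
  suffices H : ∀ d t, t < 2 * P + 1 → 2 * P + 1 - t ≤ d →
      Conn (fin N P tg) (u * (2 * P + 1) + t) (N * (2 * P + 1)) from H _ t ht le_rfl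
  intro d
  induction d with
  | zero =>
    intro t ht hd
    omega
  | succ d ih =>
    intro t ht hd
    by_cases htP : t < P
    · have hmem : (u * (2 * P + 1) + t, u * (2 * P + 1) + (2 * t + 1)) ∈ fin N P tg := by
        unfold fin cub
        refine List.mem_cons_of_mem _ (List.mem_append_left _ ?_)
        rw [mem_ints]
        exact ⟨u, hu, t, htP, Or.inl rfl⟩
      exact Relation.ReflTransGen.head hmem (ih _ (by omega) (by omega))
    · have h3 : u * (P + 1) + (t - P) < N * (P + 1) := by
        have h5 : (u + 1) * (P + 1) ≤ N * (P + 1) := Nat.mul_le_mul_right _ hu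
        rw [add_mul] at h5
        omega
      have h1 := conn_leaf (tg := tg) h3
      rw [ta_code (by omega), leaf_code (by omega), show P + (t - P) = t by omega] at h1
      exact h1.trans (conn_fwd hf (htg u hu _ (by omega)) le_rfl)

/-- The final digraph is strongly connected. -/
theorem conn_fin (hN : 2 ≤ N) (hP : 1 ≤ P) (hf : ∀ u < N, tg u 0 = u + 1)
    (htg : ∀ u < N, ∀ i < P + 1, tg u i ≤ N) {i0 : ℕ} (hi0 : i0 < P + 1) (h0 : tg 1 i0 = 0) {v w : ℕ}
    (hv : v < N * (2 * P + 1) + 1) (hw : w < N * (2 * P + 1) + 1) : Conn (fin N P tg) v w := by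
  have hM : 0 < N * (P + 1) := Nat.mul_pos (by omega) (by omega)
  have h1 : Conn (fin N P tg) (N * (2 * P + 1)) (0 * (2 * P + 1)) := by
    have hmem : (N * (2 * P + 1), leaf P 0) ∈ fin N P tg := by
      unfold fin
      exact List.mem_cons_self
    have h2 := conn_leaf (tg := tg) hM
    have h3 : ta P tg 0 = 1 := by
      unfold ta
      rw [Nat.zero_div, Nat.zero_mod]
      exact hf 0 (by omega)
    rw [h3] at h2
    have h4 := conn_root_root (N := N) (P := P) (tg := tg) (u := 1) (by omega) hi0
    rw [h0] at h4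
    exact (Relation.ReflTransGen.head hmem h2).trans h4
  have h2 : Conn (fin N P tg) v (N * (2 * P + 1)) := by
    rcases code_cases hv with rfl | ⟨u, hu, t, ht, rfl⟩ | ⟨b, hb, rfl⟩
    · exact Relation.ReflTransGen.refl
    · exact conn_node hu (by omega) hf htg
    · have h3 : b / (P + 1) < N := Nat.div_lt_of_lt_mul (by rwa [mul_comm])
      have h4 := Nat.mod_lt b (show 0 < P + 1 by omega)
      unfold leaf
      exact conn_node h3 (by omega) hf htg
  have h3 : Conn (fin N P tg) (N * (2 * P + 1)) w := by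
    rcases code_cases hw with rfl | ⟨u, hu, t, ht, rfl⟩ | ⟨b, hb, rfl⟩
    · exact Relation.ReflTransGen.refl
    · exact (h1.trans (conn_fwd hf (Nat.zero_le u) (by omega))).trans
        (conn_root_node hu t (by omega))
    · have h3 : b / (P + 1) < N := Nat.div_lt_of_lt_mul (by rwa [mul_comm])
      have h4 := Nat.mod_lt b (show 0 < P + 1 by omega)
      unfold leaf
      exact (h1.trans (conn_fwd hf (Nat.zero_le _) (by omega))).trans
        (conn_root_node h3 _ (by omega))
  exact h2.trans h3

end

end Pool.Agent.Y403.CF
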