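import Pool.Agent.H577R2.Defs
import Pool.Agent.NPC.Classes

/-!
# Moving chips in a strongly connected digraph of small degree
-/

namespace Pool.Agent.Y403.CF

open Pool.Agent.NPC Pool.Agent.H577R2

/-- The instance (list of arcs, initial distribution `x`, target distribution `y`; the vertices
are the numbers below the common length of `x` and `y`) is tame: the digraph is simple (no loops,
no repeated arcs), every vertex can be reached from every vertex along arcs, every vertex is an
endpoint of at most three arcs, and for some number `D` and two vertices `a ≠ s` the distribution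
`x` has no chip on `s` and `y` has `D` chips on `s`, `y` has `0` or `1` chips on every other vertex,
and `x` agrees with `y` outside of `s` except for `D` additional chips on `a`. -/
def Tame (I : List (ℕ × ℕ) × List ℤ × List ℤ) : Prop :=
  I.2.1.length = I.2.2.length ∧ I.1.Nodup ∧
    (∀ e ∈ I.1, e.1 < I.2.1.length ∧ e.2 < I.2.1.length ∧ e.1 ≠ e.2) ∧
    (∀ u < I.2.1.length, ∀ v < I.2.1.length,
      Relation.ReflTransGen (fun p q => (p, q) ∈ I.1) u v) ∧
    (∀ v < I.2.1.length, (I.1.filter (fun e => decide (e.1 = v))).length +
      (I.1.filter (fun e => decide (e.2 = v))).length ≤ 3) ∧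
    ∃ D a s : ℕ, a < I.2.1.length ∧ s < I.2.1.length ∧ a ≠ s ∧
      I.2.1.getD s 0 = 0 ∧ I.2.2.getD s 0 = D ∧
      ∀ v < I.2.1.length, v ≠ s → (I.2.2.getD v 0 = 0 ∨ I.2.2.getD v 0 = 1) ∧
        I.2.1.getD v 0 = I.2.2.getD v 0 + if v = a then D else 0

/-- Reachability is `co-NP`-hard on tame instances: every language whose complement is in `NP`
reduces to it by a polynomial-time many-one reduction all of whose values are tame instances. -/
def TameHard : Prop := ∀ L : Set (List Bool), InNP Lᶜ →
  ∃ f : List Bool → List (ℕ × ℕ) × List ℤ × List ℤ, PolyTime (fun x => bits (f x)) ∧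
    (∀ x, Tame (f x)) ∧ ∀ x, x ∈ L ↔ SimpleReach (f x)

end Pool.Agent.Y403.CF
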