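import Pool.Agent.Y403.CF.Core3

/-!
# A potential: the chips on the first vertex can be moved to the sink
-/

namespace Pool.Agent.Y403.CF

open Finset Pool.Agent.H577R2

section

variable {L J q k R Q : ℕ} {r : ℕ → ℕ → ℕ} {b : ℕ → ℕ}

/-- The class of the sink has an order dividing `q`. -/
theorem order_part {G : Type*} [AddCommGroup G] (hq : R * k * k + k < q)
    (hr : ∀ j e, r j e ≤ R) (hb : ∀ e, b e ≤ R) (hk : 1 ≤ k) (hqQ : q ∣ Q)
    (hQ : 1 + L * (2 * q) ≤ Q) (π : ℕ → G)
    (hrel : ∀ u < L + 2 + J, ((ua (L + 2 + J) Q (tg L Q q k r b)).map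
      (fun a => if a.1 = u then π u - π a.2 else 0)).sum = 0) :
    (q : ℤ) • (π (L + 2 + J) - π 0) = 0 := by
  have hkr : ∀ j e, k * r j e ≤ q := kr_le hq hr hk
  have hQ0 : 0 < Q := by omega
  have hqQ' : q ≤ Q := Nat.le_of_dvd hQ0 hqQ
  obtain ⟨d, hd⟩ := hqQ
  obtain ⟨δ, hδ⟩ : ∃ δ : ℕ → G, ∀ v, δ v = π v - π 0 := ⟨fun v => π v - π 0, fun _ => rfl⟩
  have hδ0 : δ 0 = 0 := by rw [hδ]; simp
  have hrel' : ∀ u < L + 2 + J, Q • δ u = if u = 0 then Q • δ 1 else if u ≤ L + 1 then
      q • δ (u + 1) else δ (u + 1) +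
        ∑ e ∈ range L, (b e + q - k * r (u - (L + 2)) e) • δ (2 + e) := by
    intro u hu
    rw [← sum_tg (r := r) hq hb hk hqQ' hQ δ hδ0 u]
    have h1 := hrel u hu
    rw [ua_sum, Finset.sum_eq_single u] at h1
    · simp only [if_true] at h1
      have h2 : ∑ i ∈ range Q, (π u - π (tg L Q q k r b u i)) =
          ∑ i ∈ range Q, (δ u - δ (tg L Q q k r b u i)) := by
        refine Finset.sum_congr rfl fun i _ => ?_
        rw [hδ, hδ]
        abel
      rw [h2, Finset.sum_sub_distrib, Finset.sum_const, card_range, sub_eq_zero] at h1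
      exact h1
    · intro u' _ hne
      simp [hne]
    · intro h2
      exact absurd (Finset.mem_range.2 hu) h2
  have hstep1 : ∀ i, i ≤ L → q • δ (2 + i) = 0 := by
    intro i
    induction i with
    | zero =>
      intro _
      have h1 := hrel' 0 (by omega)
      have h2 := hrel' 1 (by omega)
      rw [hδ0] at h1
      simp only [smul_zero, if_true] at h1
      simp only [one_ne_zero, if_false] at h2
      rw [if_pos (by omega)] at h2
      rw [show 2 + 0 = 1 + 1 by omega, ← h2, ← h1]
    | succ i ih =>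
      intro hi
      have h1 := ih (by omega)
      have h2 := hrel' (2 + i) (by omega)
      rw [if_neg (by omega), if_pos (by omega), hd, mul_comm, mul_smul, h1, smul_zero] at h2
      rw [show 2 + (i + 1) = 2 + i + 1 by omega, ← h2]
  have hqδ2 : ∀ j ≤ J, q • δ (L + 2 + j) = 0 := by
    intro j
    induction j with
    | zero =>
      intro _
      have := hstep1 L le_rfl
      rw [show L + 2 + 0 = 2 + L by omega]
      exact this
    | succ j ih =>
      intro hj
      have h1 := hrel' (L + 2 + j) (by omega)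
      rw [if_neg (by omega), if_neg (by omega), hd, mul_comm, mul_smul, ih (by omega), smul_zero,
        show L + 2 + j + 1 = L + 2 + (j + 1) by omega] at h1
      rw [eq_neg_of_add_eq_zero_left h1.symm, smul_neg, Finset.smul_sum, neg_eq_zero]
      refine Finset.sum_eq_zero fun e he => ?_
      have he' := Finset.mem_range.1 he
      rw [smul_comm, hstep1 e (by omega), smul_zero]
  have h1 := hqδ2 J le_rfl
  rw [hδ] at h1
  rw [natCast_zsmul]
  exact h1

/-- The chips of the first vertex can be moved to the sink. -/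
theorem exists_pot (hq : R * k * k + k < q) (hr : ∀ j e, r j e ≤ R) (hb : ∀ e, b e ≤ R)
    (hk : 1 ≤ k) (hqQ : q ∣ Q) (hQ : 1 + L * (2 * q) ≤ Q) :
    ∃ g : ℕ → ℕ, g (L + 2 + J) = 0 ∧ (∀ v < L + 2 + J, 1 ≤ g v) ∧
      ∀ v < L + 2 + J + 1, lap (ua (L + 2 + J) Q (tg L Q q k r b)) (fun u => (g u : ℤ)) v =
        if v = 0 then (q : ℤ) else if v = L + 2 + J then - (q : ℤ) else 0 := by
  have hq0 : 0 < q := by omega
  have hQ0 : 0 < Q := by omega
  have hsf : SkipFree (L + 2 + J) (ua (L + 2 + J) Q (tg L Q q k r b)) := skipFree_ua hq0 hQ0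
  have hrel : ∀ u < L + 2 + J, ((ua (L + 2 + J) Q (tg L Q q k r b)).map
      (fun a => if a.1 = u then
      QuotientAddGroup.mk' (Prin (ua (L + 2 + J) Q (tg L Q q k r b)) (L + 2 + J)) (Pi.single u 1) -
      QuotientAddGroup.mk' (Prin (ua (L + 2 + J) Q (tg L Q q k r b)) (L + 2 + J)) (Pi.single a.2 1)
      else 0)).sum = 0 := by
    intro u hu
    have h1 : QuotientAddGroup.mk' (Prin (ua (L + 2 + J) Q (tg L Q q k r b)) (L + 2 + J))
        (((ua (L + 2 + J) Q (tg L Q q k r b)).map (fun a => if a.1 = u then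
        (Pi.single u 1 - Pi.single a.2 1 : ℕ → ℤ) else 0)).sum) = 0 := by
      rw [QuotientAddGroup.mk'_apply, QuotientAddGroup.eq_zero_iff]
      refine ⟨Pi.single u 1, ?_, fun v _ => lap_single _ u v⟩
      rw [Pi.single_apply, if_neg (by omega)]
    rw [map_list_sum, List.map_map] at h1
    refine Eq.trans ?_ h1
    congr 1
    refine List.map_congr_left fun a _ => ?_
    simp only [Function.comp_apply]
    split_ifs
    · rw [map_sub]
    · rw [map_zero]
  have h := order_part hq hr hb hk hqQ hQ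
    (fun v => QuotientAddGroup.mk' (Prin (ua (L + 2 + J) Q (tg L Q q k r b)) (L + 2 + J))
      (Pi.single v 1)) hrel
  rw [← map_sub, ← map_zsmul, QuotientAddGroup.mk'_apply, QuotientAddGroup.eq_zero_iff] at h
  obtain ⟨g0, hg0, hg0L⟩ := h
  set E := ua (L + 2 + J) Q (tg L Q q k r b) with hE
  have hval : ∀ v < L + 2 + J + 1, lap E (fun u => - g0 u) v =
      if v = 0 then (q : ℤ) else if v = L + 2 + J then - (q : ℤ) else 0 := by
    intro v hv
    rw [lap_neg, hg0L v hv]
    simp only [Pi.smul_apply, Pi.sub_apply, Pi.single_apply, smul_eq_mul]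
    by_cases h1 : v = 0
    · have h2 : ¬ (v = L + 2 + J) := by omega
      rw [if_neg h2, if_pos h1, if_pos h1]
      ring
    · by_cases h2 : v = L + 2 + J
      · rw [if_pos h2, if_neg h1, if_neg h1, if_pos h2]
        ring
      · rw [if_neg h2, if_neg h1, if_neg h1, if_neg h2]
        ring
  have hbd := hsf.bound (fun u => - g0 u) (fun v => if v = L + 2 + J then (q : ℤ) else 0) q
    (by simp [hg0]) (fun v => by split_ifs <;> positivity) (by
      rw [Finset.sum_ite_eq', if_pos (Finset.mem_range.2 (by omega))]) (by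
    intro v hv1 hv2
    rw [hval v hv2, if_neg (by omega)]
    split_ifs <;> ring)
  have hpos : ∀ v < L + 2 + J, 1 ≤ - g0 v := by
    intro v hv
    have h1 := cut hsf (fun u => - g0 u) v
    have h2 : 0 ≤ (E.map fun a => if v + 1 ≤ a.1 ∧ a.2 < v + 1 then - g0 a.1 else 0).sum := by
      refine List.sum_nonneg ?_
      intro x hx
      rw [List.mem_map] at hx
      obtain ⟨a, ha, rfl⟩ := hx
      split_ifs
      · exact (hbd a.1 (hsf.wf a ha).1).1
      · exact le_rfl
    have h3 : ∑ u ∈ (range (L + 2 + J + 1)).filter (fun u => v + 1 ≤ u),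
        lap E (fun u => - g0 u) u = - (q : ℤ) := by
      rw [Finset.sum_eq_single (L + 2 + J)]
      · rw [hval _ (by omega), if_neg (by omega), if_pos rfl]
      · intro u hu hne
        rw [Finset.mem_filter, Finset.mem_range] at hu
        rw [hval _ hu.1, if_neg (by omega), if_neg hne]
      · intro h4
        exfalso
        apply h4
        rw [Finset.mem_filter, Finset.mem_range]
        omega
    rw [h3] at h1
    have h4 := (hbd v (by omega)).1
    by_contra hcon
    have h5 : - g0 v = 0 := by omega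
    rw [h5, mul_zero] at h1
    omega
  have hcong : ∀ v, lap E (fun u => (((- g0 u).toNat : ℕ) : ℤ)) v = lap E (fun u => - g0 u) v := by
    intro v
    refine lap_congr E ?_ v
    intro a ha
    have := (hbd a.1 (hsf.wf a ha).1).1
    omega
  refine ⟨fun v => (- g0 v).toNat, by simp [hg0], ?_, ?_⟩
  · intro v hv
    have := hpos v hv
    change 1 ≤ (- g0 v).toNat
    omega
  · intro v hv
    rw [hcong v, hval v hv]

end

end Pool.Agent.Y403.CF
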