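import Pool.Agent.H577R2.ChipList

/-!
# Reachability with a given minimal script in a strongly connected digraph
-/

namespace Pool.Agent.Y403.CF

open Finset Pool.Agent.H577R2

section

variable {V : Type} [Fintype V] [DecidableEq V]

/-- A function in the kernel of the Laplacian of a strongly connected digraph which is nonnegative
at one vertex is nonnegative. -/
theorem ker_sign (m : V → V → ℕ)
    (hconn : ∀ u v, Relation.ReflTransGen (fun a b => 0 < m a b) u v) (s : V) (p : V → ℤ)
    (hp : ∀ v, Lap m p v = 0) (hs : 0 ≤ p s) : ∀ v, 0 ≤ p v := by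
  obtain ⟨w, hw⟩ : ∃ w : V → ℤ, ∀ v, w v = max (- p v) 0 := ⟨_, fun _ => rfl⟩
  have hw0 : ∀ v, 0 ≤ w v := fun v => by rw [hw]; exact le_max_right _ _
  have hwp : ∀ v, - p v ≤ w v := fun v => by rw [hw]; exact le_max_left _ _
  have h1 : ∀ v, deg m v * w v ≤ ∑ u, (m u v : ℤ) * w u := by
    intro v
    have h2 : 0 ≤ ∑ u, (m u v : ℤ) * w u :=
      Finset.sum_nonneg fun u _ => mul_nonneg (by positivity) (hw0 u)
    rw [hw v]
    rcases max_cases (- p v) 0 with ⟨h3, -⟩ | ⟨h3, -⟩
    · rw [h3]
      have h4 := hp v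
      unfold Lap at h4
      have h5 : deg m v * (- p v) = ∑ u, (m u v : ℤ) * (- p u) := by
        simp only [mul_neg, Finset.sum_neg_distrib]
        linarith
      rw [h5]
      exact Finset.sum_le_sum fun u _ => mul_le_mul_of_nonneg_left (hwp u) (by positivity)
    · rw [h3, mul_zero]
      exact h2
  have h2 : ∑ v, deg m v * w v = ∑ v, ∑ u, (m u v : ℤ) * w u := by
    rw [Finset.sum_comm]
    refine Finset.sum_congr rfl fun u _ => ?_
    unfold deg
    rw [Finset.sum_mul]
  have h3 : ∀ v, deg m v * w v = ∑ u, (m u v : ℤ) * w u := by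
    intro v
    exact (Finset.sum_eq_sum_iff_of_le (fun v _ => h1 v)).1 h2 v (Finset.mem_univ v)
  have h4 : ∀ u v, 0 < w u → 0 < m u v → 0 < w v := by
    intro u v hu hm
    have h5 : (m u v : ℤ) * w u ≤ deg m v * w v := by
      rw [h3 v]
      exact Finset.single_le_sum (f := fun u => (m u v : ℤ) * w u)
        (fun u _ => mul_nonneg (by positivity) (hw0 u)) (Finset.mem_univ u)
    have h6 : 0 < (m u v : ℤ) * w u := mul_pos (by exact_mod_cast hm) hu
    have h7 := hw0 v
    by_contra hcon
    have h8 : w v = 0 := by omega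
    rw [h8, mul_zero] at h5
    linarith
  intro v
  by_contra hcon
  have h5 : 0 < w v := by
    have := hwp v
    omega
  have h6 : ∀ z, Relation.ReflTransGen (fun a b => 0 < m a b) v z → 0 < w z := by
    intro z hz
    induction hz with
    | refl => exact h5
    | tail _ h7 ih => exact h4 _ _ ih h7
  have h7 := h6 s (hconn v s)
  rw [hw, max_eq_right (by omega)] at h7
  exact absurd h7 (lt_irrefl _)

/-- Reachability from `y + Lap f` to `y`, where `f` is the smallest script with its Laplacian and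
`y = deg - 1 - c` outside of the vertex `s`, on which `f` vanishes. -/
theorem reach_iff_script (m : V → V → ℕ) (hl : ∀ v, m v v = 0) (s : V) (f : V → ℕ) (hfs : f s = 0)
    (hmin : ∀ h : V → ℕ, (∀ v, Lap m (fun u => (h u : ℤ)) v = Lap m (fun u => (f u : ℤ)) v) →
      ∀ v, f v ≤ h v)
    (c : V → ℤ) (hc : ∀ v, 0 ≤ c v) (x y : V → ℤ)
    (hy : ∀ v, v ≠ s → y v = deg m v - 1 - c v)
    (hx : ∀ v, x v = y v + Lap m (fun u => (f u : ℤ)) v) :
    Reach m x y ↔ ¬ ∃ g : V → ℕ, g s = 0 ∧ (∃ v, g v ≠ 0) ∧ (∀ v, g v ≤ f v) ∧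
      ∀ v, v ≠ s → Lap m (fun u => (g u : ℤ)) v ≤ c v := by
  constructor
  · rintro hR ⟨g, hgs, ⟨v0, hv0⟩, hgf, hg⟩
    obtain ⟨h, hh, hst⟩ := exists_script m hl hR
    have hfh : ∀ v, f v ≤ h v := by
      refine hmin h fun v => ?_
      have := hh v
      have := hx v
      linarith
    obtain ⟨v, hv1, hv2⟩ := hst (fun v => h v - g v) (fun v => Nat.sub_le _ _) ⟨v0, by
      have := hgf v0
      have := hfh v0
      omega⟩
    have hvs : v ≠ s := by
      rintro rfl
      simp [hgs] at hv1
    have e : Lap m (fun u => ((h u - g u : ℕ) : ℤ)) v =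
        Lap m (fun u => (h u : ℤ)) v - Lap m (fun u => (g u : ℤ)) v := by
      rw [← Lap_sub]
      congr 1
      funext u
      have : g u ≤ h u := (hgf u).trans (hfh u)
      push_cast [this]
      ring
    rw [e] at hv2
    have h3 := hh v
    have h4 := hy v hvs
    have h5 := hg v hvs
    linarith
  · intro hno
    have hxy : y = fun v => x v - Lap m (fun u => (f u : ℤ)) v := by
      funext v
      rw [hx v]
      ring
    rw [hxy]
    refine reach_of_script m hl f ?_
    intro f' h1 h2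
    by_contra hcon
    push Not at hcon
    apply hno
    refine ⟨fun v => f v - f' v, by simp [hfs], ?_, fun v => Nat.sub_le _ _, ?_⟩
    · obtain ⟨v, hv⟩ := h2
      refine ⟨v, ?_⟩
      have := h1 v
      simp only
      omega
    · intro v hvs
      have e : Lap m (fun u => ((f u - f' u : ℕ) : ℤ)) v =
          Lap m (fun u => (f u : ℤ)) v - Lap m (fun u => (f' u : ℤ)) v := by
        rw [← Lap_sub]
        congr 1
        funext u
        have := h1 u
        push_cast [this]
        ring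
      by_cases hv : f' v < f v
      · have h3 := hcon v hv
        have h4 := hx v
        have h5 := hy v hvs
        rw [e]
        linarith
      · have h6 : f v - f' v = 0 := by omega
        have h7 : Lap m (fun u => ((f u - f' u : ℕ) : ℤ)) v ≤ 0 := by
          unfold Lap
          have : 0 ≤ ∑ u, (m u v : ℤ) * ((f u - f' u : ℕ) : ℤ) :=
            Finset.sum_nonneg fun _ _ => by positivity
          simp only [h6]
          simp only [Nat.cast_zero, mul_zero, zero_sub, Left.neg_nonpos_iff]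
          exact this
        exact h7.trans (hc v)

end

/-- Directed paths between vertices below `n`. -/
theorem conn_lift {n : ℕ} {E : List (ℕ × ℕ)} (hE : Wf n E) {a b : ℕ}
    (h : Relation.ReflTransGen (fun a b => (a, b) ∈ E) a b) (ha : a < n) :
    ∃ hb : b < n, Relation.ReflTransGen (fun u v : Fin n => 0 < mul n E u v) ⟨a, ha⟩ ⟨b, hb⟩ := by
  induction h with
  | refl => exact ⟨ha, Relation.ReflTransGen.refl⟩
  | @tail b c _ h2 ih =>
    obtain ⟨hb, h3⟩ := ih
    refine ⟨(hE _ h2).2.1, h3.tail ?_⟩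
    unfold mul
    exact List.count_pos_iff.2 h2

/-- The list version of `reach_iff_script`, for a digraph with an additional arc leaving `s`. -/
theorem reach_iff_list {n : ℕ} {E : List (ℕ × ℕ)} {s t : ℕ} (hE : Wf n ((s, t) :: E)) (hsn : s < n)
    (hconn : ∀ u < n, ∀ v < n, Relation.ReflTransGen (fun a b => (a, b) ∈ (s, t) :: E) u v)
    (f : ℕ → ℕ) (hfs : f s = 0) (c : ℕ → ℤ) (hc : ∀ v < n, 0 ≤ c v) (x y : Fin n → ℤ)
    (hy : ∀ v : Fin n, (v : ℕ) ≠ s → y v = outdeg E v - 1 - c v)
    (hx : ∀ v : Fin n, x v = y v + lap E (fun u => (f u : ℤ)) v) :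
    Reach (mul n ((s, t) :: E)) x y ↔ ¬ ∃ g : ℕ → ℕ, g s = 0 ∧ (∃ v < n, g v ≠ 0) ∧
      (∀ v < n, g v ≤ f v) ∧ ∀ v < n, v ≠ s → lap E (fun u => (g u : ℤ)) v ≤ c v := by
  have hlap : ∀ g : ℕ → ℤ, g s = 0 → ∀ v, lap ((s, t) :: E) g v = lap E g v := by
    intro g hg v
    unfold lap
    rw [List.map_cons, List.sum_cons]
    simp only [hg]
    by_cases h : s = v
    · subst h
      simp [hg]
    · simp [h]
  have hLap : ∀ g : ℕ → ℤ, g s = 0 → ∀ v : Fin n, Lap (mul n ((s, t) :: E)) (fun u => g u) v =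
      lap E g v := by
    intro g hg v
    rw [Lap_mul hE, hlap g hg]
  rw [reach_iff_script (mul n ((s, t) :: E)) hE.mul_self ⟨s, hsn⟩ (fun v => f v) hfs ?_
    (fun v => c v) (fun v => hc v v.2) x y ?_ ?_]
  · apply not_congr
    constructor
    · rintro ⟨g, hg1, ⟨v, hv⟩, hg3, hg4⟩
      have hgs : (fun v => if h : v < n then g ⟨v, h⟩ else 0) s = 0 := by simp [hsn, hg1]
      refine ⟨fun v => if h : v < n then g ⟨v, h⟩ else 0, hgs, ⟨v, v.2, by simpa using hv⟩,
        fun v hv => by simpa [hv] using hg3 _, fun v hv hvs => ?_⟩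
      have := hg4 ⟨v, hv⟩ (fun h => hvs (by simpa using congrArg Fin.val h))
      rw [← hLap _ (by simp only [hgs, Nat.cast_zero]) ⟨v, hv⟩]
      convert this using 2
      funext u
      simp
    · rintro ⟨g, hg1, ⟨v, hv, hgv⟩, hg3, hg4⟩
      refine ⟨fun v => g v, hg1, ⟨⟨v, hv⟩, hgv⟩, fun v => hg3 v v.2, fun v hvs => ?_⟩
      rw [hLap (fun u => (g u : ℤ)) (by simp [hg1])]
      exact hg4 v v.2 (fun h => hvs (Fin.ext h))
  · intro h hh v
    have h1 := ker_sign (mul n ((s, t) :: E)) (fun u v => by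
      obtain ⟨hb, h⟩ := conn_lift hE (hconn u u.2 v v.2) u.2
      exact h) ⟨s, hsn⟩ (fun v => (h v : ℤ) - f v) (fun v => by
        rw [Lap_sub]
        have := hh v
        linarith) (by simp [hfs]) v
    have h2 : (0 : ℤ) ≤ (h v : ℤ) - f v := h1
    change f v ≤ h v
    omega
  · intro v hvs
    have hvs' : (v : ℕ) ≠ s := fun h => hvs (Fin.ext h)
    rw [hy v hvs', deg_mul hE]
    congr 2
    unfold outdeg
    rw [List.filter_cons_of_neg (by simpa using fun h => hvs' h.symm)]
  · intro v
    rw [hx v, hLap (fun u => (f u : ℤ)) (by simp [hfs])]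

end Pool.Agent.Y403.CF
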