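import Pool.Agent.Y403.CF.Red3
import Pool.Agent.Y403.CF.Pot
import Pool.Agent.Y403.CF.Script
import Pool.Agent.Y403.CF.Defs

/-!
# Correctness of the reduction to tame instances
-/

namespace Pool.Agent.NPC.Y403CF

open Finset Pool.Agent.H577R2 Pool.Agent.Y403.CF Pool.Agent.NPC.H577R2

theorem hq3 (φ : CNF3) : 5 * nv φ * nv φ + nv φ < q3 φ := lt_pw _

theorem hdvd (φ : CNF3) : q3 φ ∣ P3 φ + 1 := by
  rw [P3_eq, ← Q3_eq]
  exact Dvd.intro _ rfl

theorem P3_Q3 (φ : CNF3) : P3 φ + 1 = Q3 φ := by rw [P3_eq, Q3_eq]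

theorem hQ3 (φ : CNF3) : 1 + L3 φ * (2 * q3 φ) ≤ P3 φ + 1 := by
  rw [P3_Q3]
  unfold Q3
  have h1 := lt_pw (2 * L3 φ + 1)
  have h2 := hq3 φ
  have h3 : q3 φ * (2 * L3 φ + 2) ≤ q3 φ * pw (2 * L3 φ + 1) := Nat.mul_le_mul_left _ h1
  have h4 : q3 φ * (2 * L3 φ + 2) = L3 φ * (2 * q3 φ) + 2 * q3 φ := by ring
  omega

theorem hk3 (φ : CNF3) : nv φ < 2 ^ H3 φ := by
  rw [← Q3_eq]
  have h1 := hq3 φ
  have h2 : q3 φ ≤ Q3 φ := Nat.le_mul_of_pos_right _ (by unfold pw; positivity)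
  omega

theorem hnv (φ : CNF3) : 1 ≤ nv φ := by
  unfold nv
  omega

theorem hH3 (φ : CNF3) : 1 ≤ H3 φ := by
  have h1 := hk3 φ
  have h2 := hnv φ
  by_contra hcon
  have : H3 φ = 0 := by omega
  rw [this] at h1
  simp at h1
  omega

theorem hP3 (φ : CNF3) : 1 ≤ P3 φ := by
  have h1 := P3_eq φ
  have : 2 ^ 1 ≤ 2 ^ H3 φ := Nat.pow_le_pow_right (by norm_num) (hH3 φ)
  omega

theorem hN3 (φ : CNF3) : 2 ≤ N3 φ := by
  unfold N3
  omega

theorem htg3 (φ : CNF3) : ∀ u < N3 φ, ∀ i < P3 φ + 1, tg3 φ u i ≤ N3 φ := by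
  intro u hu i hi
  rw [P3_Q3] at hi
  have h1 := tg_cases (L := L3 φ) (Q := Q3 φ) (q := q3 φ) (k := nv φ) (r := rS φ) (b := bS φ) u i hi
  unfold tg3
  have h2 : L3 φ + 2 ≤ N3 φ := by unfold N3; omega
  rcases h1 with h | ⟨h0, h⟩ | ⟨h0, e, he, h⟩ <;> omega

theorem tg3_zero (φ : CNF3) : ∀ u < N3 φ, tg3 φ u 0 = u + 1 := by
  intro u _
  unfold tg3
  exact tg_zero (by have := hq3 φ; omega) (Q3_pos φ) u

/-- The vertex `1` has an arc to `0`. -/
theorem tg3_back (φ : CNF3) : P3 φ < P3 φ + 1 ∧ tg3 φ 1 (P3 φ) = 0 := by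
  refine ⟨by omega, ?_⟩
  unfold tg3 tg
  rw [List.getD_eq_default]
  unfold ol
  rw [if_neg (by omega), if_pos (by omega), List.length_replicate]
  have h1 := lt_pw (2 * L3 φ + 1)
  have h2 := hq3 φ
  have h3 := hnv φ
  have h4 : q3 φ * 2 ≤ Q3 φ := by
    unfold Q3
    exact Nat.mul_le_mul_left _ (by omega)
  have h5 := P3_Q3 φ
  omega

theorem tg3_eq (φ : CNF3) :
    tg3 φ = tg (L3 φ) (P3 φ + 1) (q3 φ) (nv φ) (rS φ) (bS φ) := by
  rw [P3_Q3]
  rfl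

theorem sat_of_bad (φ : CNF3) (hφ : Small φ) {K : ℕ}
    (h : Bad (S3 φ + 1) (E3 φ) (S3 φ) K (cc (P3 φ) (nv φ))) : SAT3 φ := by
  rw [sat_iff_sol φ hφ]
  change Sol (L3 φ) (2 * nv φ) (nv φ) (rS φ) (bS φ)
  have h1 := bad_of_cub (by have := hN3 φ; omega) (P3_eq φ) (hH3 φ) (hk3 φ) h
  refine sol_of_bad (Q := P3 φ + 1) (K := K) (hq3 φ) (rS_le φ) (bS_le φ) (hnv φ) (hdvd φ)
    (hQ3 φ) ?_ ?_
  · intro j hj
    refine ⟨j / 2, by unfold L3; omega, ?_, ?_⟩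
    · unfold bS
      rw [if_pos (by omega)]
    · unfold rS
      rw [if_pos (by omega), if_pos rfl]
  · rw [tg3_eq] at h1
    exact h1

theorem bad_of_sat (φ : CNF3) (hφ : Small φ) (h : SAT3 φ) :
    Bad (S3 φ + 1) (E3 φ) (S3 φ) (K3 φ) (cc (P3 φ) (nv φ)) := by
  rw [sat_iff_sol φ hφ] at h
  change Sol (L3 φ) (2 * nv φ) (nv φ) (rS φ) (bS φ) at h
  obtain ⟨G, h1, h2, h3, h4⟩ := bad_of_sol (Q := P3 φ + 1) (hq3 φ) (rS_le φ) (bS_le φ) (hnv φ)
    (hdvd φ) (hQ3 φ) h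
  unfold E3 S3
  refine cub_of_bad (by have := hN3 φ; omega) (P3_eq φ) (hH3 φ) (hk3 φ) (G := G)
    (B := nv φ * (N3 φ * (P3 φ + 1) + 1) ^ N3 φ) h1 h2 h3 ?_ ?_
  · rw [tg3_eq]
    exact h4
  · -- the bound
    unfold K3
    have e1 : H3 φ ≤ Q3 φ := by
      rw [Q3_eq]
      exact Nat.lt_two_pow_self.le
    have e2 : N3 φ * (P3 φ + 1) + 1 ≤ 2 ^ (N3 φ * Q3 φ) := by
      rw [P3_Q3]
      exact Nat.lt_two_pow_self
    calc 2 ^ (N3 φ * (P3 φ + 1) + H3 φ) * (nv φ * (N3 φ * (P3 φ + 1) + 1) ^ N3 φ) ≤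
        2 ^ (N3 φ * (P3 φ + 1) + Q3 φ) * (2 ^ nv φ * (2 ^ (N3 φ * Q3 φ)) ^ N3 φ) :=
          Nat.mul_le_mul (Nat.pow_le_pow_right (by norm_num) (by omega))
            (Nat.mul_le_mul Nat.lt_two_pow_self.le (Nat.pow_le_pow_left e2 _))
      _ = 2 ^ (N3 φ * (P3 φ + 1) + Q3 φ + (nv φ + N3 φ * Q3 φ * N3 φ)) := by
          rw [← pow_mul, ← pow_add, ← pow_add]

theorem wf_E3 (φ : CNF3) : Wf (S3 φ + 1) (E3 φ) := wf_cub (hP3 φ) (htg3 φ)

/-- The potential. -/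
theorem pot3 (φ : CNF3) : ∃ F : ℕ → ℕ, F (S3 φ) = 0 ∧ (∀ p < S3 φ, 1 ≤ F p) ∧
    ∀ p < S3 φ + 1, lap (E3 φ) (fun u => (F u : ℤ)) p =
      if p = 0 then (q3 φ : ℤ) else if p = S3 φ then - (q3 φ : ℤ) else 0 := by
  obtain ⟨G, h1, h2, h3⟩ := exists_pot (Q := P3 φ + 1) (J := 2 * nv φ) (hq3 φ) (rS_le φ) (bS_le φ)
    (hnv φ) (hdvd φ) (hQ3 φ)
  have h := pot_cub (tg := tg3 φ) (P3_eq φ) (hH3 φ) (show 1 ≤ N3 φ by have := hN3 φ; omega)
    (q3 φ : ℤ) (G := G) h2 (by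
      rw [tg3_eq]
      exact h3)
  exact h

theorem bg3_eq (φ : CNF3) (v : ℕ) : bg3 φ v = outdeg (E3 φ) v - 1 - cc (P3 φ) (nv φ) v := by
  unfold bg3
  rw [← ccN_eq]
  push_cast
  ring

theorem y3_eq (φ : CNF3) {v : ℕ} (hv : v ≠ S3 φ) : y3 φ v = bg3 φ v := by
  unfold y3
  rw [if_neg hv]

theorem y3_sink (φ : CNF3) : y3 φ (S3 φ) = D3 φ := by
  unfold y3
  rw [if_pos rfl]
  simp

theorem x3_eq (φ : CNF3) {v : ℕ} (hv : v ≠ S3 φ) :
    x3 φ v = y3 φ v + if v = 0 then (D3 φ : ℤ) else 0 := by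
  unfold x3
  rw [if_neg hv, y3_eq φ hv]
  unfold bg3
  split_ifs <;> push_cast <;> ring

theorem x3_sink (φ : CNF3) : x3 φ (S3 φ) = 0 := by
  unfold x3
  rw [if_pos rfl]

theorem S3_pos (φ : CNF3) : 0 < S3 φ := Nat.mul_pos (by have := hN3 φ; omega) (by omega)

theorem conn3 (φ : CNF3) : ∀ u < S3 φ + 1, ∀ v < S3 φ + 1,
    Relation.ReflTransGen (fun a b => (a, b) ∈ F3 φ) u v := fun _ hu _ hv =>
  conn_fin (hN3 φ) (hP3 φ) (tg3_zero φ) (htg3 φ) (tg3_back φ).1 (tg3_back φ).2 hu hv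

theorem inst3_correct (φ : CNF3) (hφ : Small φ) : SAT3 φ ↔ ¬ SimpleReach (inst3 φ) := by
  have hn : (inst3 φ).2.1.length = S3 φ + 1 := by
    unfold inst3
    simp
  have hn' : (inst3 φ).2.2.length = S3 φ + 1 := by
    unfold inst3
    simp
  have hwf : Wf (S3 φ + 1) (F3 φ) := wf_fin (by have := hN3 φ; omega) (hP3 φ) (htg3 φ)
  have hsn : S3 φ < (inst3 φ).2.1.length := by omega
  obtain ⟨F, hF0, hF1, hFL⟩ := pot3 φ
  have hlapK : ∀ v, lap (E3 φ) (fun u => ((K3 φ * F u : ℕ) : ℤ)) v =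
      K3 φ * lap (E3 φ) (fun u => (F u : ℤ)) v := by
    intro v
    unfold lap
    rw [← List.sum_map_mul_left]
    congr 1
    refine List.map_congr_left fun a _ => ?_
    push_cast
    split_ifs <;> ring
  have key : Reach (V := Fin (inst3 φ).2.1.length) (mul (inst3 φ).2.1.length (F3 φ))
      (fun v => (inst3 φ).2.1.getD v 0) (fun v => (inst3 φ).2.2.getD v 0) ↔
      ¬ ∃ g : ℕ → ℕ, g (S3 φ) = 0 ∧ (∃ v < (inst3 φ).2.1.length, g v ≠ 0) ∧
      (∀ v < (inst3 φ).2.1.length, g v ≤ K3 φ * F v) ∧ ∀ v < (inst3 φ).2.1.length, v ≠ S3 φ →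
        lap (E3 φ) (fun u => (g u : ℤ)) v ≤ cc (P3 φ) (nv φ) v := by
    refine reach_iff_list (n := (inst3 φ).2.1.length) (E := E3 φ) (s := S3 φ)
      (t := leaf (P3 φ) 0) ?_ hsn ?_ (fun v => K3 φ * F v) ?_ (cc (P3 φ) (nv φ)) ?_ _ _ ?_ ?_
    · rw [hn]
      exact hwf
    · rw [hn]
      exact conn3 φ
    · simp [hF0]
    · intro v _
      exact cc_nonneg _ _ _
    · intro v hv
      have hv' : (v : ℕ) < S3 φ + 1 := by
        have := v.2
        omega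
      change ((List.range (S3 φ + 1)).map (y3 φ)).getD v 0 = _
      rw [getD_map_range _ hv', y3_eq φ hv, bg3_eq]
    · intro v
      have hv' : (v : ℕ) < S3 φ + 1 := by
        have := v.2
        omega
      change ((List.range (S3 φ + 1)).map (x3 φ)).getD v 0 =
        ((List.range (S3 φ + 1)).map (y3 φ)).getD v 0 + _
      rw [getD_map_range _ hv', getD_map_range _ hv', hlapK, hFL _ hv']
      by_cases h1 : (v : ℕ) = S3 φ
      · have h0 : ¬ ((v : ℕ) = 0) := by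
          have := S3_pos φ
          omega
        rw [if_neg h0, if_pos h1, h1, x3_sink, y3_sink]
        unfold D3
        push_cast
        ring
      · rw [x3_eq φ h1, if_neg h1]
        unfold D3
        split_ifs <;> push_cast <;> ring
  rw [hn] at key
  have key2 : Reach (V := Fin (inst3 φ).2.1.length)
      (fun u v => (inst3 φ).1.count ((u : ℕ), (v : ℕ)))
      (fun v => (inst3 φ).2.1.getD v 0) (fun v => (inst3 φ).2.2.getD v 0) ↔ ¬ SAT3 φ := by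
    have key3 : (∃ g : ℕ → ℕ, g (S3 φ) = 0 ∧ (∃ v < S3 φ + 1, g v ≠ 0) ∧
      (∀ v < S3 φ + 1, g v ≤ K3 φ * F v) ∧ ∀ v < S3 φ + 1, v ≠ S3 φ →
        lap (E3 φ) (fun u => (g u : ℤ)) v ≤ cc (P3 φ) (nv φ) v) ↔ SAT3 φ := by
      constructor
      · rintro ⟨g, hg1, hg2, hg3, hg4⟩
        refine sat_of_bad φ hφ (K := (range (S3 φ + 1)).sup g) ⟨g, hg1, hg2, ?_, ?_⟩
        · intro v hv
          exact Finset.le_sup (Finset.mem_range.2 hv)
        · intro v hv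
          by_cases h1 : v = S3 φ
          · rw [h1]
            unfold E3 S3
            rw [lap_cub_sink (hP3 φ), cc_sink (by have := hN3 φ; omega)]
            have := LF_nonneg (N := N3 φ) (P := P3 φ) (tg := tg3 φ) (fun u => (g u : ℤ))
              (fun a => by positivity) (N3 φ)
            linarith
          · exact hg4 v hv h1
      · intro h
        obtain ⟨g, hg1, hg2, hg3, hg4⟩ := bad_of_sat φ hφ h
        refine ⟨g, hg1, hg2, ?_, fun v hv _ => hg4 v hv⟩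
        intro v hv
        by_cases h1 : v = S3 φ
        · rw [h1, hg1]
          exact Nat.zero_le _
        · have h2 := hF1 v (by omega)
          calc g v ≤ K3 φ * 1 := by rw [mul_one]; exact hg3 v hv
            _ ≤ K3 φ * F v := Nat.mul_le_mul_left _ h2
    rw [key3] at key
    rw [← key, ← hn]
    exact Iff.rfl
  constructor
  · rintro h ⟨-, -, -, h4⟩
    exact (key2.1 h4) h
  · intro h
    by_contra hcon
    apply h
    refine ⟨hn.trans hn'.symm, nodup_fin, ?_, ?_⟩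
    · rw [hn]
      exact hwf
    · exact key2.2 hcon

/-- The instances are tame. -/
theorem tame_inst3 (φ : CNF3) : Tame (inst3 φ) := by
  have hn : (inst3 φ).2.1.length = S3 φ + 1 := by
    unfold inst3
    simp
  have hn' : (inst3 φ).2.2.length = S3 φ + 1 := by
    unfold inst3
    simp
  have hP := hP3 φ
  have hN := hN3 φ
  have hx : ∀ v < S3 φ + 1, (inst3 φ).2.1.getD v 0 = x3 φ v := fun v hv => by
    change ((List.range (S3 φ + 1)).map (x3 φ)).getD v 0 = _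
    rw [getD_map_range _ hv]
  have hy : ∀ v < S3 φ + 1, (inst3 φ).2.2.getD v 0 = y3 φ v := fun v hv => by
    change ((List.range (S3 φ + 1)).map (y3 φ)).getD v 0 = _
    rw [getD_map_range _ hv]
  refine ⟨hn.trans hn'.symm, nodup_fin, ?_, ?_, ?_, D3 φ, 0, S3 φ, ?_⟩
  · rw [hn]
    exact wf_fin (by omega) hP (htg3 φ)
  · rw [hn]
    exact conn3 φ
  · rw [hn]
    intro v hv
    exact deg_fin (by omega) hP (htg3 φ) hv
  rw [hn]
  have hS := S3_pos φ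
  refine ⟨by omega, by omega, by omega, ?_, ?_, ?_⟩
  · rw [hx _ (by omega), x3_sink]
  · rw [hy _ (by omega), y3_sink]
  intro v hv hvS
  rw [hx v hv, hy v hv]
  refine ⟨?_, by rw [x3_eq φ hvS]; split_ifs <;> simp⟩
  rw [y3_eq φ hvS, bg3_eq]
  have hcc : 0 ≤ cc (P3 φ) (nv φ) v ∧ cc (P3 φ) (nv φ) v ≤ 1 := by
    unfold cc
    split_ifs
    · have := Nat.mod_lt (nv φ / 2 ^ Nat.log 2 (v + 1)) (show 0 < 2 by norm_num)
      omega
    · omega
  have ho := outdeg_of_lap (wf_E3 φ) v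
  unfold E3 at ho ⊢
  rcases code_cases (N := N3 φ) (P := P3 φ) hv with rfl | ⟨u, hu, t, ht, rfl⟩ | ⟨b, hb, rfl⟩
  · exact absurd rfl hvS
  · rw [lap_cub_int _ hu ht] at ho
    have h2 : LF (N3 φ) (P3 φ) (tg3 φ) (fun v => if v = u * (2 * P3 φ + 1) + t then (1 : ℤ)
        else 0) u = 0 := by
      unfold LF
      refine Finset.sum_eq_zero fun a _ => ?_
      have h4 := leaf_ne_int (b := a) (u := u) ht
      simp [h4]
    have h3 : t ≠ 0 → ¬ (u * (2 * P3 φ + 1) + (t - 1) / 2 = u * (2 * P3 φ + 1) + t) := by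
      intro h
      omega
    by_cases h0 : t = 0
    · rw [if_pos h0, h2, if_pos rfl] at ho
      omega
    · rw [if_neg h0, if_neg (h3 h0), if_pos rfl] at ho
      omega
  · rw [lap_cub_leaf hP _ hb] at ho
    have hbm := Nat.mod_lt b (show 0 < P3 φ + 1 by omega)
    have h1 : par (P3 φ) b ≠ leaf (P3 φ) b := by
      unfold par
      exact (leaf_ne_int (by omega)).symm
    have h2 : PF (N3 φ) (P3 φ) (tg3 φ) (fun v => if v = leaf (P3 φ) b then (1 : ℤ) else 0) b =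
        0 := by
      unfold PF
      refine Finset.sum_eq_zero fun a _ => ?_
      by_cases hn : next (N3 φ) (P3 φ) (tg3 φ) a = some b
      · have h4 := (next_some hn).2.1
        have h5 : ¬ (leaf (P3 φ) a = leaf (P3 φ) b) := by
          intro h6
          have := leaf_inj.1 h6
          omega
        simp [hn, h5]
      · rw [if_neg hn]
    rw [h2, if_pos rfl, if_neg h1] at ho
    rw [cc_leaf (P3_eq φ) (hk3 φ)]
    omega

theorem hardPr_tame : HardPr Tame (fun I => ¬ SimpleReach I) :=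
  HardPr.trans (Pr' := Tame) hardPr_small poly_inst3 (fun φ _ => tame_inst3 φ) inst3_correct

theorem tameHard : TameHard := by
  intro L hL
  obtain ⟨f, hf, hpr, hfL⟩ := hardPr_tame _ hL
  refine ⟨f, PC.toPolyTime hf, hpr, fun x => ?_⟩
  have h1 := hfL x
  rw [Set.mem_compl_iff, not_iff_not] at h1
  exact h1

end Pool.Agent.NPC.Y403CF
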