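import Pool.Agent.Y403.CF.Cub4
import Pool.Agent.H577R2.Reach

/-!
# The reduction to strongly connected digraphs of small degree
-/

namespace Pool.Agent.NPC.Y403CF

open Finset Pool.Agent.H577R2 Pool.Agent.Y403.CF Pool.Agent.NPC.H577R2

section Gen

variable {α : Type} [TEnc α] {N P : α → ℕ} {tgf : α → ℕ → ℕ → ℕ}

theorem poly_leaf (hP : UPoly P) : Poly (fun p : α × ℕ => leaf (P p.1) p.2) := by
  unfold leaf
  have h1 : Poly (fun p : α × ℕ => P p.1) := hP.toPoly.comp (Poly.fst Poly.id)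
  have h2 : Poly (fun p : α × ℕ => P p.1 + 1) := Poly.add h1 (Poly.const 1)
  have h3 : Poly (fun p : α × ℕ => p.2) := Poly.snd Poly.id
  exact Poly.add (Poly.mul (Poly.div h3 h2) (Poly.add (Poly.mul (Poly.const 2) h1) (Poly.const 1)))
    (Poly.add h1 (Poly.mod h3 h2))

theorem poly_ta (hP : UPoly P) (htg : Poly (fun p : α × ℕ × ℕ => tgf p.1 p.2.1 p.2.2)) :
    Poly (fun p : α × ℕ => ta (P p.1) (tgf p.1) p.2) := by
  unfold ta
  have h1 : Poly (fun p : α × ℕ => P p.1) := hP.toPoly.comp (Poly.fst Poly.id)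
  have h2 : Poly (fun p : α × ℕ => P p.1 + 1) := Poly.add h1 (Poly.const 1)
  have h3 : Poly (fun p : α × ℕ => p.2) := Poly.snd Poly.id
  exact htg.comp (Poly.pair (Poly.fst Poly.id) (Poly.pair (Poly.div h3 h2) (Poly.mod h3 h2)))

theorem nx_eq (N P : ℕ) (tg : ℕ → ℕ → ℕ) (a : ℕ) : nx N P tg a =
    ((((List.range (N * (P + 1))).filter
    (fun b => decide (a < b) && decide (ta P tg b = ta P tg a))).map (fun b => leaf P b) ++
      [ta P tg a * (2 * P + 1)]).head?).getD 0 := by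
  unfold nx next
  cases (List.range (N * (P + 1))).filter
    (fun b => decide (a < b) && decide (ta P tg b = ta P tg a)) <;> rfl

attribute [local irreducible] leaf ta

theorem poly_filt (hN : UPoly N) (hP : UPoly P)
    (htg : Poly (fun p : α × ℕ × ℕ => tgf p.1 p.2.1 p.2.2)) :
    Poly (fun p : α × ℕ => (List.range (N p.1 * (P p.1 + 1))).filter
      (fun b => decide (p.2 < b) && decide (ta (P p.1) (tgf p.1) b = ta (P p.1) (tgf p.1) p.2))) := by
  have hM : UPoly (fun p : α × ℕ => N p.1 * (P p.1 + 1)) :=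
    (UPoly.mul hN (UPoly.add hP (UPoly.const 1))).comp (Poly.fst Poly.id)
  have h1 : Poly (fun x : (α × ℕ) × ℕ => ta (P x.1.1) (tgf x.1.1) x.2) :=
    (poly_ta hP htg).comp (Poly.pair (Poly.fst (Poly.fst Poly.id)) (Poly.snd Poly.id))
  have h2 : Poly (fun x : (α × ℕ) × ℕ => ta (P x.1.1) (tgf x.1.1) x.1.2) :=
    (poly_ta hP htg).comp (Poly.fst Poly.id)
  exact Poly.filter (p := fun (p : α × ℕ) b => decide (p.2 < b) &&
    decide (ta (P p.1) (tgf p.1) b = ta (P p.1) (tgf p.1) p.2)) (poly_range hM)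
    (Poly.and (Poly.decide_lt (Poly.snd (Poly.fst Poly.id)) (Poly.snd Poly.id))
      (Poly.decide_eq h1 h2))

theorem poly_nx (hN : UPoly N) (hP : UPoly P)
    (htg : Poly (fun p : α × ℕ × ℕ => tgf p.1 p.2.1 p.2.2)) :
    Poly (fun p : α × ℕ => nx (N p.1) (P p.1) (tgf p.1) p.2) := by
  simp only [nx_eq]
  have h1 : Poly (fun p : α × ℕ => P p.1) := hP.toPoly.comp (Poly.fst Poly.id)
  have h2 : Poly (fun p : α × ℕ => ta (P p.1) (tgf p.1) p.2 * (2 * P p.1 + 1)) :=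
    Poly.mul (poly_ta hP htg) (Poly.add (Poly.mul (Poly.const 2) h1) (Poly.const 1))
  have h3 : Poly (fun x : (α × ℕ) × ℕ => leaf (P x.1.1) x.2) :=
    (poly_leaf hP).comp (Poly.pair (Poly.fst (Poly.fst Poly.id)) (Poly.snd Poly.id))
  have h4 : Poly (fun p : α × ℕ => ((List.range (N p.1 * (P p.1 + 1))).filter
      (fun b => decide (p.2 < b) && decide (ta (P p.1) (tgf p.1) b = ta (P p.1) (tgf p.1) p.2))).map
      (fun b => leaf (P p.1) b)) :=
    Poly.map (F := fun (p : α × ℕ) b => leaf (P p.1) b) (poly_filt hN hP htg) h3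
  exact Poly.head?_getD (Poly.append h4 (Poly.cons h2 (Poly.const []))) 0

attribute [local irreducible] nx

theorem poly_ints (hN : UPoly N) (hP : UPoly P) : Poly (fun a => ints (N a) (P a)) := by
  unfold ints
  have hP2 : Poly (fun x : (α × ℕ) × ℕ => P x.1.1) :=
    hP.toPoly.comp (Poly.fst (Poly.fst Poly.id))
  have hu : Poly (fun x : (α × ℕ) × ℕ => x.1.2) := Poly.snd (Poly.fst Poly.id)
  have ht : Poly (fun x : (α × ℕ) × ℕ => x.2) := Poly.snd Poly.id
  have hb : Poly (fun x : (α × ℕ) × ℕ => x.1.2 * (2 * P x.1.1 + 1)) :=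
    Poly.mul hu (Poly.add (Poly.mul (Poly.const 2) hP2) (Poly.const 1))
  have h1 := Poly.add hb ht
  have h2 := Poly.add hb (Poly.add (Poly.mul (Poly.const 2) ht) (Poly.const 1))
  have h3 := Poly.add hb (Poly.add (Poly.mul (Poly.const 2) ht) (Poly.const 2))
  have h4 : Poly (fun x : (α × ℕ) × ℕ =>
    [(x.1.2 * (2 * P x.1.1 + 1) + x.2, x.1.2 * (2 * P x.1.1 + 1) + (2 * x.2 + 1)),
      (x.1.2 * (2 * P x.1.1 + 1) + x.2, x.1.2 * (2 * P x.1.1 + 1) + (2 * x.2 + 2))]) :=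
    Poly.cons (Poly.pair h1 h2) (Poly.cons (Poly.pair h1 h3) (Poly.const []))
  have h5 : Poly (fun p : α × ℕ => (List.range (P p.1)).flatMap (fun t =>
    [(p.2 * (2 * P p.1 + 1) + t, p.2 * (2 * P p.1 + 1) + (2 * t + 1)),
      (p.2 * (2 * P p.1 + 1) + t, p.2 * (2 * P p.1 + 1) + (2 * t + 2))])) :=
    Poly.flatMap (F := fun (p : α × ℕ) t =>
      [(p.2 * (2 * P p.1 + 1) + t, p.2 * (2 * P p.1 + 1) + (2 * t + 1)),
      (p.2 * (2 * P p.1 + 1) + t, p.2 * (2 * P p.1 + 1) + (2 * t + 2))])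
      (poly_range (hP.comp (Poly.fst Poly.id))) h4
  exact Poly.flatMap (F := fun a u => (List.range (P a)).flatMap (fun t =>
    [(u * (2 * P a + 1) + t, u * (2 * P a + 1) + (2 * t + 1)),
      (u * (2 * P a + 1) + t, u * (2 * P a + 1) + (2 * t + 2))])) (poly_range hN) h5

theorem poly_cub (hN : UPoly N) (hP : UPoly P)
    (htg : Poly (fun p : α × ℕ × ℕ => tgf p.1 p.2.1 p.2.2)) :
    Poly (fun a => cub (N a) (P a) (tgf a)) := by
  unfold cub lfs
  exact Poly.append (poly_ints hN hP) (Poly.map (F := fun a b => (leaf (P a) b,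
    nx (N a) (P a) (tgf a) b)) (poly_range (UPoly.mul hN (UPoly.add hP (UPoly.const 1))))
    (Poly.pair (poly_leaf hP) (poly_nx hN hP htg)))

theorem poly_fin (hN : UPoly N) (hP : UPoly P)
    (htg : Poly (fun p : α × ℕ × ℕ => tgf p.1 p.2.1 p.2.2)) :
    Poly (fun a => fin (N a) (P a) (tgf a)) := by
  unfold fin
  have h1 : Poly (fun a => N a * (2 * P a + 1)) :=
    Poly.mul hN.toPoly (Poly.add (Poly.mul (Poly.const 2) hP.toPoly) (Poly.const 1))
  have h2 : Poly (fun a : α => ((a, 0) : α × ℕ)) := Poly.pair Poly.id (Poly.const 0)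
  have h3 : Poly (fun a => leaf (P a) 0) := Poly.comp (g := fun p : α × ℕ => leaf (P p.1) p.2)
    (f := fun a : α => ((a, 0) : α × ℕ)) (poly_leaf hP) h2
  exact Poly.cons (Poly.pair h1 h3) (poly_cub hN hP htg)

attribute [local irreducible] fin cub

/-- The distribution of the chips, as a natural number. -/
def ccN (P k p : ℕ) : ℕ := if p < 2 * P + 1 then k / 2 ^ (Nat.log 2 (p + 1)) % 2 else 0

theorem ccN_eq (P k p : ℕ) : ((ccN P k p : ℕ) : ℤ) = cc P k p := by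
  unfold ccN cc
  split_ifs <;> rfl

theorem log_eq_bits (p : ℕ) : Nat.log 2 (p + 1) = (p + 1).bits.tail.length := by
  rw [List.length_tail, Nat.size_eq_bits_len]
  have h1 : Nat.size (p + 1) ≠ 0 := by
    rw [Ne, Nat.size_eq_zero]
    omega
  apply Nat.log_eq_of_pow_le_of_lt_pow
  · rw [← Nat.lt_size]
    omega
  · rw [← Nat.size_le]
    omega

theorem poly_ccN {k : α → ℕ} (hP : UPoly P) (hk : Poly k) :
    Poly (fun p : α × ℕ => ccN (P p.1) (k p.1) p.2) := by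
  unfold ccN
  have h1 : Poly (fun p : α × ℕ => P p.1) := hP.toPoly.comp (Poly.fst Poly.id)
  have h2 : Poly (fun p : α × ℕ => p.2) := Poly.snd Poly.id
  have h3 : UPoly (fun p : α × ℕ => Nat.log 2 (p.2 + 1)) := by
    have : UPoly (fun p : α × ℕ => (p.2 + 1).bits.tail.length) :=
      UPoly.length (Poly.tail (Poly.natBits (Poly.add h2 (Poly.const 1))))
    refine Poly.congr this fun p => ?_
    simp only [log_eq_bits]
  exact Poly.ite (Poly.decide_lt h2 (Poly.add (Poly.mul (Poly.const 2) h1) (Poly.const 1)))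
    (Poly.mod (Poly.div (hk.comp (Poly.fst Poly.id)) (poly_two_pow h3)) (Poly.const 2))
    (Poly.const 0)

/-- A power of two above a number. -/
def pw (n : ℕ) : ℕ := 2 ^ n.size

theorem lt_pw (n : ℕ) : n < pw n := Nat.lt_size_self n

theorem pw_le (n : ℕ) : pw n ≤ 2 * n + 1 := by
  unfold pw
  by_cases h : n = 0
  · subst h
    simp
  · have h1 : 0 < n.size := Nat.size_pos.2 (by omega)
    have h2 : 2 ^ (n.size - 1) ≤ n := Nat.lt_size.1 (by omega)
    have h3 : 2 ^ n.size = 2 * 2 ^ (n.size - 1) := by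
      rw [← pow_succ', show n.size - 1 + 1 = n.size by omega]
    omega

theorem upoly_size {n : α → ℕ} (hn : Poly n) : UPoly (fun a => (n a).size) := by
  have h : UPoly (fun a => (n a).bits.length) := UPoly.length (Poly.natBits hn)
  refine Poly.congr h fun a => ?_
  simp only [Nat.size_eq_bits_len]

theorem upoly_pw {n : α → ℕ} (hn : UPoly n) : UPoly (fun a => pw (n a)) := by
  unfold pw
  exact UPoly.of_le (poly_two_pow (upoly_size hn.toPoly))
    (UPoly.add (UPoly.mul (UPoly.const 2) hn) (UPoly.const 1)) fun a => pw_le (n a)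

end Gen

/-- The number of coordinates. -/
def L3 (φ : CNF3) : ℕ := nv φ + φ.length

/-- The order of the cyclic factors. -/
def q3 (φ : CNF3) : ℕ := pw (5 * nv φ * nv φ + nv φ)

/-- The out-degree. -/
def Q3 (φ : CNF3) : ℕ := q3 φ * pw (2 * L3 φ + 1)

/-- The depth of the trees. -/
def H3 (φ : CNF3) : ℕ := (5 * nv φ * nv φ + nv φ).size + (2 * L3 φ + 1).size

/-- The number of inner vertices of a tree. -/
def P3 (φ : CNF3) : ℕ := Q3 φ - 1

/-- The number of trees. -/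
def N3 (φ : CNF3) : ℕ := L3 φ + 2 + 2 * nv φ

/-- The targets. -/
def tg3 (φ : CNF3) (u i : ℕ) : ℕ := tg (L3 φ) (Q3 φ) (q3 φ) (nv φ) (rS φ) (bS φ) u i

/-- The number of firings. -/
def K3 (φ : CNF3) : ℕ := 2 ^ (N3 φ * (P3 φ + 1) + Q3 φ + (nv φ + N3 φ * Q3 φ * N3 φ))

theorem Q3_eq (φ : CNF3) : Q3 φ = 2 ^ H3 φ := by
  unfold Q3 q3 pw H3
  rw [pow_add]

theorem Q3_pos (φ : CNF3) : 0 < Q3 φ := by
  rw [Q3_eq]
  positivity

theorem P3_eq (φ : CNF3) : P3 φ + 1 = 2 ^ H3 φ := by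
  rw [← Q3_eq]
  have := Q3_pos φ
  unfold P3
  omega

theorem upoly_L3 : UPoly L3 := UPoly.add upoly_nv (UPoly.length Poly.id)

theorem upoly_q3 : UPoly q3 :=
  upoly_pw (UPoly.add (UPoly.mul (UPoly.mul (UPoly.const 5) upoly_nv) upoly_nv) upoly_nv)

theorem upoly_Q3 : UPoly Q3 :=
  UPoly.mul upoly_q3 (upoly_pw (UPoly.add (UPoly.mul (UPoly.const 2) upoly_L3) (UPoly.const 1)))

theorem upoly_P3 : UPoly P3 :=
  UPoly.of_le (Poly.sub upoly_Q3.toPoly (Poly.const 1)) upoly_Q3 fun _ => Nat.sub_le _ _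

theorem upoly_N3 : UPoly N3 :=
  UPoly.add (UPoly.add upoly_L3 (UPoly.const 2)) (UPoly.mul (UPoly.const 2) upoly_nv)

theorem poly_K3 : Poly K3 :=
  poly_two_pow (UPoly.add (UPoly.add (UPoly.mul upoly_N3 (UPoly.add upoly_P3 (UPoly.const 1)))
    upoly_Q3) (UPoly.add upoly_nv (UPoly.mul (UPoly.mul upoly_N3 upoly_Q3) upoly_N3)))

attribute [local irreducible] pw L3 q3 Q3 P3 N3 K3

theorem poly_tg3 : Poly (fun p : CNF3 × ℕ × ℕ => tg3 p.1 p.2.1 p.2.2) := by
  unfold tg3 tg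
  have hol : Poly (fun p : CNF3 × ℕ => ol (L3 p.1) (Q3 p.1) (q3 p.1) (nv p.1) (rS p.1) (bS p.1)
      p.2) := by
    unfold ol
    have hφ : Poly (fun p : CNF3 × ℕ => p.1) := Poly.fst Poly.id
    have hu : Poly (fun p : CNF3 × ℕ => p.2) := Poly.snd Poly.id
    have hL : UPoly (fun p : CNF3 × ℕ => L3 p.1) := upoly_L3.comp hφ
    have h1 : Poly (fun p : CNF3 × ℕ => List.replicate (Q3 p.1) 1) :=
      poly_replicate (upoly_Q3.comp hφ) (Poly.const 1)
    have h2 : Poly (fun p : CNF3 × ℕ => List.replicate (q3 p.1) (p.2 + 1)) :=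
      poly_replicate (upoly_q3.comp hφ) (Poly.add hu (Poly.const 1))
    have hφ3 : Poly (fun p : (CNF3 × ℕ) × ℕ => p.1.1) := Poly.fst (Poly.fst Poly.id)
    have hj3 : Poly (fun p : (CNF3 × ℕ) × ℕ => p.1.2 - (L3 p.1.1 + 2)) :=
      Poly.sub (Poly.snd (Poly.fst Poly.id)) (Poly.add (upoly_L3.toPoly.comp hφ3) (Poly.const 2))
    have he3 : Poly (fun p : (CNF3 × ℕ) × ℕ => p.2) := Poly.snd Poly.id
    have hr3 : Poly (fun p : (CNF3 × ℕ) × ℕ => rS p.1.1 (p.1.2 - (L3 p.1.1 + 2)) p.2) :=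
      poly_rS.comp (Poly.pair hφ3 (Poly.pair hj3 he3))
    have hb3 : Poly (fun p : (CNF3 × ℕ) × ℕ => bS p.1.1 p.2) :=
      poly_bS.comp (Poly.pair hφ3 he3)
    have hn3 : UPoly (fun p : (CNF3 × ℕ) × ℕ => nv p.1.1) := upoly_nv.comp hφ3
    have hq3 : UPoly (fun p : (CNF3 × ℕ) × ℕ => q3 p.1.1) := upoly_q3.comp hφ3
    have h3 : UPoly (fun p : (CNF3 × ℕ) × ℕ => bS p.1.1 p.2 + q3 p.1.1 -
        nv p.1.1 * rS p.1.1 (p.1.2 - (L3 p.1.1 + 2)) p.2) :=
      UPoly.of_le (n := fun p : (CNF3 × ℕ) × ℕ => 5 + q3 p.1.1)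
        (Poly.sub (Poly.add hb3 hq3.toPoly) (Poly.mul hn3.toPoly hr3))
        (UPoly.add (UPoly.const 5) hq3) fun p => by
          have := bS_le p.1.1 p.2
          omega
    have h4 : Poly (fun p : CNF3 × ℕ => (List.range (L3 p.1)).flatMap
        (fun e => List.replicate (bS p.1 e + q3 p.1 - nv p.1 * rS p.1 (p.2 - (L3 p.1 + 2)) e)
          (2 + e))) :=
      Poly.flatMap (F := fun (p : CNF3 × ℕ) e => List.replicate (bS p.1 e + q3 p.1 -
        nv p.1 * rS p.1 (p.2 - (L3 p.1 + 2)) e) (2 + e)) (poly_range hL)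
        (poly_replicate h3 (Poly.add (Poly.const 2) he3))
    exact Poly.ite (Poly.decide_eq hu (Poly.const 0)) h1
      (Poly.ite (Poly.decide_le hu (Poly.add hL.toPoly (Poly.const 1))) h2
        (Poly.cons (Poly.add hu (Poly.const 1)) h4))
  exact Poly.getD (d := fun _ => 0) (hol.comp (Poly.pair (Poly.fst Poly.id)
    (Poly.fst (Poly.snd Poly.id)))) (Poly.snd (Poly.snd Poly.id)) (Poly.const 0)

/-- The arcs without the one leaving the sink. -/
def E3 (φ : CNF3) : List (ℕ × ℕ) := cub (N3 φ) (P3 φ) (tg3 φ)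

/-- The arcs. -/
def F3 (φ : CNF3) : List (ℕ × ℕ) := fin (N3 φ) (P3 φ) (tg3 φ)

/-- The number of vertices, minus one; the vertex which gets the chips. -/
def S3 (φ : CNF3) : ℕ := N3 φ * (2 * P3 φ + 1)

/-- The number of chips to be moved. -/
def D3 (φ : CNF3) : ℕ := K3 φ * q3 φ

/-- The background. -/
def bg3 (φ : CNF3) (v : ℕ) : ℤ :=
  ((outdeg (E3 φ) v : ℕ) : ℤ) - ((1 + ccN (P3 φ) (nv φ) v : ℕ) : ℤ)

/-- The target distribution. -/
def y3 (φ : CNF3) (v : ℕ) : ℤ :=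
  if v = S3 φ then ((D3 φ : ℕ) : ℤ) - ((0 : ℕ) : ℤ) else bg3 φ v

/-- The initial distribution. -/
def x3 (φ : CNF3) (v : ℕ) : ℤ :=
  if v = S3 φ then 0 else ((outdeg (E3 φ) v + (if v = 0 then D3 φ else 0) : ℕ) : ℤ) -
    ((1 + ccN (P3 φ) (nv φ) v : ℕ) : ℤ)

/-- The instance. -/
def inst3 (φ : CNF3) : List (ℕ × ℕ) × List ℤ × List ℤ :=
  (F3 φ, (List.range (S3 φ + 1)).map (x3 φ), (List.range (S3 φ + 1)).map (y3 φ))

theorem poly_E3 : Poly E3 := poly_cub upoly_N3 upoly_P3 poly_tg3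

theorem poly_F3 : Poly F3 := poly_fin upoly_N3 upoly_P3 poly_tg3

theorem upoly_S3 : UPoly S3 :=
  UPoly.mul upoly_N3 (UPoly.add (UPoly.mul (UPoly.const 2) upoly_P3) (UPoly.const 1))

theorem poly_D3 : Poly D3 := Poly.mul poly_K3 upoly_q3.toPoly

theorem poly_bg3 : Poly (fun p : CNF3 × ℕ => bg3 p.1 p.2) := by
  have hφ : Poly (fun p : CNF3 × ℕ => p.1) := Poly.fst Poly.id
  have hv : Poly (fun p : CNF3 × ℕ => p.2) := Poly.snd Poly.id
  exact poly_intSub (poly_outdeg (poly_E3.comp hφ) hv) (Poly.add (Poly.const 1)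
    (poly_ccN upoly_P3 upoly_nv.toPoly))

theorem poly_y3 : Poly (fun p : CNF3 × ℕ => y3 p.1 p.2) := by
  have hφ : Poly (fun p : CNF3 × ℕ => p.1) := Poly.fst Poly.id
  have hv : Poly (fun p : CNF3 × ℕ => p.2) := Poly.snd Poly.id
  exact Poly.ite (Poly.decide_eq hv (upoly_S3.toPoly.comp hφ))
    (poly_intSub (poly_D3.comp hφ) (Poly.const 0)) poly_bg3

theorem poly_x3 : Poly (fun p : CNF3 × ℕ => x3 p.1 p.2) := by
  have hφ : Poly (fun p : CNF3 × ℕ => p.1) := Poly.fst Poly.id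
  have hv : Poly (fun p : CNF3 × ℕ => p.2) := Poly.snd Poly.id
  have h1 : Poly (fun p : CNF3 × ℕ => if p.2 = 0 then D3 p.1 else 0) :=
    Poly.ite (Poly.decide_eq hv (Poly.const 0)) (poly_D3.comp hφ) (Poly.const 0)
  exact Poly.ite (Poly.decide_eq hv (upoly_S3.toPoly.comp hφ)) (Poly.const 0)
    (poly_intSub (Poly.add (poly_outdeg (poly_E3.comp hφ) hv) h1) (Poly.add (Poly.const 1)
    (poly_ccN upoly_P3 upoly_nv.toPoly)))

theorem poly_inst3 : Poly inst3 := by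
  have hr : Poly (fun φ => List.range (S3 φ + 1)) :=
    poly_range (UPoly.add upoly_S3 (UPoly.const 1))
  exact Poly.pair poly_F3 (Poly.pair (Poly.map (F := fun φ v => x3 φ v) hr poly_x3)
    (Poly.map (F := fun φ v => y3 φ v) hr poly_y3))

end Pool.Agent.NPC.Y403CF
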